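import Mathlib

/-!
# Definitions for MP_33f69e_ag

Smooth complete intersection surfaces in a product of projective lines, elliptic fibrations on
them, rational curves on them and their canonical degree.
-/

namespace Pool.Agent.Lib.MP_33f69e_ag

open scoped LinearAlgebra.Projectivization
open MvPolynomial

/-- The complex projective line. -/
abbrev PLine : Type := ℙ ℂ (Fin 2 → ℂ)

/-- The product of `m` copies of the complex projective line. -/
abbrev PPow (m : ℕ) : Type := Fin m → PLine

/-- Polynomials in the `2 m` homogeneous coordinates of the product of `m` projective lines; the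
variable `(i, 0)` and the variable `(i, 1)` are the two homogeneous coordinates of the `i`-th
factor. -/
abbrev HPoly (m : ℕ) : Type := MvPolynomial (Fin m × Fin 2) ℂ

/-- The value of a polynomial at (a fixed choice of) homogeneous coordinates of a point. Whether it
is zero does not depend on the choice when the polynomial is multihomogeneous. -/
noncomputable def evalAt {m : ℕ} (P : PPow m) (G : HPoly m) : ℂ :=
  eval (fun a => (P a.1).rep a.2) G

/-- `G` is multihomogeneous of multidegree `D`: it is homogeneous of degree `D i` in the two
coordinates of the `i`-th factor, for every `i`. -/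
def IsMultiHom {m : ℕ} (G : HPoly m) (D : Fin m → ℕ) : Prop :=
  G.IsWeightedHomogeneous (fun a => (Pi.single a.1 1 : Fin m → ℕ)) D

/-- The zero locus of a set of polynomials. -/
def zeroLocus {m : ℕ} (S : Set (HPoly m)) : Set (PPow m) := {P | ∀ G ∈ S, evalAt P G = 0}

/-- Zariski closed subsets of a product of projective lines. -/
def IsZariskiClosed {m : ℕ} (A : Set (PPow m)) : Prop :=
  ∃ S : Set (HPoly m), (∀ G ∈ S, ∃ D, IsMultiHom G D) ∧ A = zeroLocus S

/-- A Zariski closed subset is connected if it is nonempty and not the disjoint union of two
nonempty Zariski closed subsets. -/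
def IsZariskiConnected {m : ℕ} (A : Set (PPow m)) : Prop :=
  A.Nonempty ∧ ∀ B C : Set (PPow m), IsZariskiClosed B → IsZariskiClosed C →
    A = B ∪ C → Disjoint B C → B = ∅ ∨ C = ∅

/-- `f` restricted to `A` is a morphism of algebraic varieties: near every point of `A`, each
coordinate of `f` is given by a pair of multihomogeneous polynomials of the same multidegree. -/
def IsRegularOn {m k : ℕ} (f : PPow m → PPow k) (A : Set (PPow m)) : Prop :=
  ∀ P ∈ A, ∀ i : Fin k, ∃ (D : Fin m → ℕ) (G : Fin 2 → HPoly m),
    (∀ c, IsMultiHom (G c) D) ∧ (∃ c, evalAt P (G c) ≠ 0) ∧
    ∀ Q ∈ A, ∀ h : (fun c => evalAt Q (G c)) ≠ 0,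
      f Q i = Projectivization.mk ℂ (fun c => evalAt Q (G c)) h

/-- Isomorphism of closed subvarieties of products of projective lines. -/
def AreIsomorphic {m k : ℕ} (A : Set (PPow m)) (B : Set (PPow k)) : Prop :=
  ∃ (f : PPow m → PPow k) (g : PPow k → PPow m), IsRegularOn f A ∧ IsRegularOn g B ∧
    (∀ P ∈ A, f P ∈ B ∧ g (f P) = P) ∧ (∀ Q ∈ B, g Q ∈ A ∧ f (g Q) = Q)

/-- A smooth connected curve of genus one: it is isomorphic to a smooth curve of bidegree `(2, 2)`
in the product of two projective lines. -/
def IsGenusOneCurve {m : ℕ} (A : Set (PPow m)) : Prop :=
  ∃ G : HPoly 2, IsMultiHom G (fun _ => 2) ∧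
    (∀ Q : PPow 2, evalAt Q G = 0 → ∃ a, evalAt Q (pderiv a G) ≠ 0) ∧
    AreIsomorphic A {Q : PPow 2 | evalAt Q G = 0}

/-- `n` multihomogeneous equations in the product of `n + 2` projective lines. -/
structure CISurface (n : ℕ) where
  /-- the equations -/
  F : Fin n → HPoly (n + 2)
  /-- their multidegrees -/
  D : Fin n → Fin (n + 2) → ℕ
  isMultiHom : ∀ j, IsMultiHom (F j) (D j)

namespace CISurface

variable {n : ℕ}

/-- The closed subset of the product of `n + 2` projective lines defined by the equations. -/
def points (X : CISurface n) : Set (PPow (n + 2)) := {P | ∀ j, evalAt P (X.F j) = 0}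

/-- Jacobian criterion: at every point the differentials of the `n` equations are linearly
independent. Then `X` is a smooth complete intersection, of dimension two. -/
def IsSmooth (X : CISurface n) : Prop :=
  ∀ P ∈ X.points, LinearIndependent ℂ
    (fun (j : Fin n) (a : Fin (n + 2) × Fin 2) => evalAt P (pderiv a (X.F j)))

/-- The canonical class of a smooth complete intersection (adjunction formula): the canonical
divisor is the restriction of the line bundle whose degree on the `i`-th factor is the sum of the
degrees of the equations in that factor, minus two. -/
def canonicalClass (X : CISurface n) (i : Fin (n + 2)) : ℤ := (∑ j, (X.D j i : ℤ)) - 2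

/-- `X` is a smooth connected projective surface and the projection to the `i`-th projective line
is surjective with general fibre a smooth connected curve of genus one: for all points `b` outside
a finite set the scheme theoretic fibre over `b` is smooth (Jacobian criterion in the remaining
variables) and it is a curve of genus one. -/
structure IsEllipticFibration (X : CISurface n) (i : Fin (n + 2)) : Prop where
  smooth : X.IsSmooth
  connected : IsZariskiConnected X.points
  surjective : ∀ b : PLine, ∃ P ∈ X.points, P i = b
  fibres : ∃ Z : Set PLine, Z.Finite ∧ ∀ b ∉ Z,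
    (∀ P ∈ X.points, P i = b → LinearIndependent ℂ
      (fun (j : Fin n) (a : {a : Fin (n + 2) × Fin 2 // a.1 ≠ i}) =>
        evalAt P (pderiv (a : Fin (n + 2) × Fin 2) (X.F j)))) ∧
    IsGenusOneCurve {P | P ∈ X.points ∧ P i = b}

end CISurface

/-- The point of the product of projective lines with `i`-th coordinate
`[num i (u) : den i (u)]`. -/
noncomputable def pointOf {m : ℕ} (num den : Fin m → Polynomial ℂ)
    (h : ∀ i, IsCoprime (num i) (den i)) (u : ℂ) : PPow m := fun i =>
  Projectivization.mk ℂ (![(num i).eval u, (den i).eval u]) (by
    intro h0
    obtain ⟨a, b, hab⟩ := h i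
    have h1 : (num i).eval u = 0 := by simpa using congrFun h0 0
    have h2 : (den i).eval u = 0 := by simpa using congrFun h0 1
    have := congrArg (Polynomial.eval u) hab
    simp [h1, h2] at this)

/-- A rational curve on `X`, given by its normalisation, a morphism from the projective line which
is birational onto its image. The `i`-th coordinate of the morphism is the rational function
`num i / den i` (in lowest terms) of the affine coordinate `u` of the projective line; the image of
the morphism lies in `X` and the morphism is injective outside a finite set. -/
structure RationalCurve {n : ℕ} (X : CISurface n) where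
  num : Fin (n + 2) → Polynomial ℂ
  den : Fin (n + 2) → Polynomial ℂ
  coprime : ∀ i, IsCoprime (num i) (den i)
  mem : ∀ u : ℂ, pointOf num den coprime u ∈ X.points
  injective : ∃ Z : Set ℂ, Z.Finite ∧ ∀ u ∉ Z, ∀ v ∉ Z,
    pointOf num den coprime u = pointOf num den coprime v → u = v

namespace RationalCurve

variable {n : ℕ} {X : CISurface n}

/-- The degree of the `i`-th coordinate function on the normalisation of the curve, i.e. the
intersection number of the curve with the pull back of a point of the `i`-th projective line. -/
noncomputable def degree (C : RationalCurve X) (i : Fin (n + 2)) : ℕ :=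
  max (C.num i).natDegree (C.den i).natDegree

/-- The canonical degree `K_X . C`. -/
noncomputable def canonicalDegree (C : RationalCurve X) : ℤ :=
  ∑ i, X.canonicalClass i * (C.degree i : ℤ)

end RationalCurve

end Pool.Agent.Lib.MP_33f69e_ag
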