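import Mathlib
import Pool.Agent.Lib.MP_33f69e_ag.Defs

/-!
# Basic lemmas and the surface
-/

namespace Pool.Agent.Lib.MP_33f69e_ag

open scoped LinearAlgebra.Projectivization
open MvPolynomial

/-! ## Multihomogeneous polynomials -/

theorem IsMultiHom.X {m : ℕ} (i : Fin m) (c : Fin 2) :
    IsMultiHom (X (i, c) : HPoly m) (Pi.single i 1) :=
  isWeightedHomogeneous_X ℂ _ (i, c)

theorem IsMultiHom.C {m : ℕ} (r : ℂ) : IsMultiHom (C r : HPoly m) 0 :=
  isWeightedHomogeneous_C _ r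

theorem IsMultiHom.mul {m : ℕ} {G H : HPoly m} {D E : Fin m → ℕ} (hG : IsMultiHom G D)
    (hH : IsMultiHom H E) : IsMultiHom (G * H) (D + E) :=
  IsWeightedHomogeneous.mul hG hH

theorem IsMultiHom.add {m : ℕ} {G H : HPoly m} {D : Fin m → ℕ} (hG : IsMultiHom G D)
    (hH : IsMultiHom H D) : IsMultiHom (G + H) D :=
  IsWeightedHomogeneous.add hG hH

theorem IsMultiHom.neg {m : ℕ} {G : HPoly m} {D : Fin m → ℕ} (hG : IsMultiHom G D) :
    IsMultiHom (-G) D := by
  have := (IsMultiHom.C (m := m) (-1)).mul hG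
  simpa using this

theorem IsMultiHom.sub {m : ℕ} {G H : HPoly m} {D : Fin m → ℕ} (hG : IsMultiHom G D)
    (hH : IsMultiHom H D) : IsMultiHom (G - H) D := by
  rw [sub_eq_add_neg]
  exact hG.add hH.neg

/-- Scaling the homogeneous coordinates. -/
theorem IsMultiHom.eval_smul {m : ℕ} {G : HPoly m} {D : Fin m → ℕ} (hG : IsMultiHom G D)
    (c : Fin m → ℂ) (z : Fin m × Fin 2 → ℂ) :
    eval (fun a => c a.1 * z a) G = (∏ i, c i ^ D i) * eval z G := by
  rw [eval_eq, eval_eq, Finset.mul_sum]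
  refine Finset.sum_congr rfl fun e he => ?_
  have hw := hG (mem_support_iff.mp he)
  have hD : ∀ i, D i = e (i, 0) + e (i, 1) := by
    intro i
    rw [← hw, Finsupp.weight_apply, Finsupp.sum_fintype _ _ (by simp)]
    rw [Finset.sum_apply, Fintype.sum_prod_type]
    rw [Finset.sum_eq_single i]
    · simp [Fin.sum_univ_two]
    · intro j _ hj
      simp [hj.symm]
    · simp
  have h1 : ∏ a : Fin m × Fin 2, c a.1 ^ e a = ∏ i, c i ^ D i := by
    rw [Fintype.prod_prod_type]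
    refine Finset.prod_congr rfl fun i _ => ?_
    rw [Fin.prod_univ_two, ← pow_add, ← hD]
  have h2 : ∀ f : Fin m × Fin 2 → ℂ, ∏ a ∈ e.support, f a ^ e a = ∏ a, f a ^ e a := by
    intro f
    refine Finset.prod_subset (Finset.subset_univ _) ?_
    intro a _ ha
    rw [Finsupp.notMem_support_iff.mp ha, pow_zero]
  rw [h2, h2]
  simp only [mul_pow]
  rw [Finset.prod_mul_distrib, h1]
  ring

/-- `P` has homogeneous coordinates `z`. -/
def HasCoords {m : ℕ} (P : PPow m) (z : Fin m → Fin 2 → ℂ) : Prop :=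
  ∀ i, ∃ h : z i ≠ 0, P i = Projectivization.mk ℂ (z i) h

theorem hasCoords_rep {m : ℕ} (P : PPow m) : HasCoords P (fun i => (P i).rep) :=
  fun i => ⟨(P i).rep_nonzero, (Projectivization.mk_rep (P i)).symm⟩

theorem HasCoords.exists_scale {m : ℕ} {P : PPow m} {z : Fin m → Fin 2 → ℂ}
    (h : HasCoords P z) : ∃ c : Fin m → ℂ, (∀ i, c i ≠ 0) ∧
      (fun a : Fin m × Fin 2 => (P a.1).rep a.2) = fun a => c a.1 * z a.1 a.2 := by
  choose h0 h1 using h
  have h2 : ∀ i, ∃ c : ℂˣ, c • z i = (P i).rep := by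
    intro i
    have := Projectivization.mk_rep (P i)
    rw [h1 i] at this
    rw [h1 i]
    exact (Projectivization.mk_eq_mk_iff ℂ _ _ (Projectivization.rep_nonzero _) (h0 i)).mp this
  choose c hc using h2
  refine ⟨fun i => c i, fun i => (c i).ne_zero, ?_⟩
  funext a
  rw [← hc a.1]
  rfl

theorem HasCoords.evalAt_eq {m : ℕ} {P : PPow m} {z : Fin m → Fin 2 → ℂ}
    (h : HasCoords P z) {G : HPoly m} {D : Fin m → ℕ} (hG : IsMultiHom G D) :
    ∃ c : ℂ, c ≠ 0 ∧ evalAt P G = c * eval (fun a => z a.1 a.2) G := by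
  obtain ⟨c, hc, h1⟩ := h.exists_scale
  refine ⟨∏ i, c i ^ D i, Finset.prod_ne_zero_iff.mpr fun i _ => pow_ne_zero _ (hc i), ?_⟩
  rw [evalAt, h1]
  exact hG.eval_smul c (fun a => z a.1 a.2)

theorem HasCoords.evalAt_eq_zero_iff {m : ℕ} {P : PPow m} {z : Fin m → Fin 2 → ℂ}
    (h : HasCoords P z) {G : HPoly m} {D : Fin m → ℕ} (hG : IsMultiHom G D) :
    evalAt P G = 0 ↔ eval (fun a => z a.1 a.2) G = 0 := by
  obtain ⟨c, hc, h1⟩ := h.evalAt_eq hG
  rw [h1, mul_eq_zero, or_iff_right hc]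

/-! ## The surface -/

/-- First equation: `r s = x - 1/x`. The coordinates are numbered `x = 0`, `y = 1`, `r = 2`,
`s = 3`, `t = 4`. -/
noncomputable def F0 : HPoly 5 :=
  X (2, 0) * X (3, 0) * X (0, 0) * X (0, 1) -
    X (2, 1) * X (3, 1) * (X (0, 0) * X (0, 0) - X (0, 1) * X (0, 1))

/-- Second equation: `r = s (y - 1/y)`. -/
noncomputable def F1 : HPoly 5 :=
  X (2, 0) * X (3, 1) * X (1, 0) * X (1, 1) -
    X (2, 1) * X (3, 0) * (X (1, 0) * X (1, 0) - X (1, 1) * X (1, 1))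

/-- Third equation: `t s x = (x - I) (s - 1)`. -/
noncomputable def F2 : HPoly 5 :=
  X (4, 0) * X (3, 0) * X (0, 0) -
    X (4, 1) * (X (0, 0) - C Complex.I * X (0, 1)) * (X (3, 0) - X (3, 1))

/-- The multidegrees. -/
def surfD : Fin 3 → Fin 5 → ℕ := ![![2, 0, 1, 1, 0], ![0, 2, 1, 1, 0], ![1, 0, 0, 1, 1]]

theorem F0_multiHom : IsMultiHom F0 (surfD 0) := by
  have e : surfD 0 = ((Pi.single 2 1 + Pi.single 3 1) + Pi.single 0 1) + Pi.single 0 1 := by
    funext i; fin_cases i <;> simp [surfD]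
  have e' : surfD 0 = (Pi.single 2 1 + Pi.single 3 1) + (Pi.single 0 1 + Pi.single 0 1) := by
    rw [e, add_assoc]
  refine IsMultiHom.sub ?_ ?_
  · rw [e]
    exact (((IsMultiHom.X 2 0).mul (IsMultiHom.X 3 0)).mul (IsMultiHom.X 0 0)).mul
      (IsMultiHom.X 0 1)
  · rw [e']
    exact ((IsMultiHom.X 2 1).mul (IsMultiHom.X 3 1)).mul
      (((IsMultiHom.X 0 0).mul (IsMultiHom.X 0 0)).sub ((IsMultiHom.X 0 1).mul (IsMultiHom.X 0 1)))

theorem F1_multiHom : IsMultiHom F1 (surfD 1) := by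
  have e : surfD 1 = ((Pi.single 2 1 + Pi.single 3 1) + Pi.single 1 1) + Pi.single 1 1 := by
    funext i; fin_cases i <;> simp [surfD]
  have e' : surfD 1 = (Pi.single 2 1 + Pi.single 3 1) + (Pi.single 1 1 + Pi.single 1 1) := by
    rw [e, add_assoc]
  refine IsMultiHom.sub ?_ ?_
  · rw [e]
    exact (((IsMultiHom.X 2 0).mul (IsMultiHom.X 3 1)).mul (IsMultiHom.X 1 0)).mul
      (IsMultiHom.X 1 1)
  · rw [e']
    exact ((IsMultiHom.X 2 1).mul (IsMultiHom.X 3 0)).mul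
      (((IsMultiHom.X 1 0).mul (IsMultiHom.X 1 0)).sub ((IsMultiHom.X 1 1).mul (IsMultiHom.X 1 1)))

theorem F2_multiHom : IsMultiHom F2 (surfD 2) := by
  have e : surfD 2 = (Pi.single 4 1 + Pi.single 3 1) + Pi.single 0 1 := by
    funext i; fin_cases i <;> simp [surfD]
  have e' : surfD 2 = (Pi.single 4 1 + Pi.single 0 1) + Pi.single 3 1 := by
    rw [e, add_right_comm]
  refine IsMultiHom.sub ?_ ?_
  · rw [e]
    exact ((IsMultiHom.X 4 0).mul (IsMultiHom.X 3 0)).mul (IsMultiHom.X 0 0)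
  · rw [e']
    refine ((IsMultiHom.X 4 1).mul ?_).mul ((IsMultiHom.X 3 0).sub (IsMultiHom.X 3 1))
    refine (IsMultiHom.X 0 0).sub ?_
    have := (IsMultiHom.C (m := 5) Complex.I).mul (IsMultiHom.X 0 1)
    simpa using this

/-- The surface: the K3 surface `r s = x - 1/x`, `r = s (y - 1/y)` (the Kummer surface of the
square of the elliptic curve with complex multiplication by `ℤ[i]`), blown up in four points. -/
noncomputable def surf : CISurface 3 where
  F := ![F0, F1, F2]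
  D := surfD
  isMultiHom := by
    intro j
    fin_cases j
    · exact F0_multiHom
    · exact F1_multiHom
    · exact F2_multiHom

/-- The three equations in homogeneous coordinates. -/
def Eqs (z : Fin 5 → Fin 2 → ℂ) : Prop :=
  z 2 0 * z 3 0 * z 0 0 * z 0 1 = z 2 1 * z 3 1 * (z 0 0 * z 0 0 - z 0 1 * z 0 1) ∧
  z 2 0 * z 3 1 * z 1 0 * z 1 1 = z 2 1 * z 3 0 * (z 1 0 * z 1 0 - z 1 1 * z 1 1) ∧
  z 4 0 * z 3 0 * z 0 0 = z 4 1 * (z 0 0 - Complex.I * z 0 1) * (z 3 0 - z 3 1)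

theorem mem_surf_iff {P : PPow 5} {z : Fin 5 → Fin 2 → ℂ} (h : HasCoords P z) :
    P ∈ surf.points ↔ Eqs z := by
  have h0 := h.evalAt_eq_zero_iff F0_multiHom
  have h1 := h.evalAt_eq_zero_iff F1_multiHom
  have h2 := h.evalAt_eq_zero_iff F2_multiHom
  simp only [CISurface.points, Set.mem_ofPred_eq, Eqs]
  rw [Fin.forall_fin_succ, Fin.forall_fin_two]
  simp only [surf, Matrix.cons_val_zero, Fin.succ_zero_eq_one, Matrix.cons_val_one,
    Fin.succ_one_eq_two, Matrix.cons_val]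
  rw [h0, h1, h2]
  simp only [F0, F1, F2, map_sub, map_mul, eval_X, eval_C, sub_eq_zero]

end Pool.Agent.Lib.MP_33f69e_ag
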