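import Mathlib
import Pool.Agent.Lib.MP_33f69e_ag.Basic

/-!
# The surface is connected

We work with normalised homogeneous coordinates (a compact subset `Xc` of `(ℂ²)⁵`). The surface is
a double cover, with covering involution `y ↦ -1/y`, of a modification of the `(x, s)` plane; the
fibres of the involution over the point `x = 1`, `s = 0` are connected, and this forces `Xc` to be
connected in the classical topology.
-/

namespace Pool.Agent.Lib.MP_33f69e_ag

open scoped LinearAlgebra.Projectivization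
open MvPolynomial

namespace Conn

/-- The space of homogeneous coordinates. -/
abbrev V : Type := Fin 5 → Fin 2 → ℂ

/-- The unit sphere of `ℂ²`. -/
def S3 : Set (Fin 2 → ℂ) := Metric.sphere 0 1

theorem mem_S3 {v : Fin 2 → ℂ} : v ∈ S3 ↔ ‖v‖ = 1 := by simp [S3]

theorem S3_preconnected : IsPreconnected S3 := by
  refine isPreconnected_sphere ?_ 0 1
  refine Module.lt_rank_of_lt_finrank ?_
  rw [Module.finrank_pi_fintype]
  simp

theorem circle_preconnected (v : Fin 2 → ℂ) :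
    IsPreconnected ((fun c : ℂ => c • v) '' Metric.sphere 0 1) := by
  refine IsPreconnected.image ?_ _ (by fun_prop)
  refine isPreconnected_sphere ?_ 0 1
  refine Module.lt_rank_of_lt_finrank ?_
  simp

/-- Normalised homogeneous coordinates of the points of the surface. -/
def Xc : Set V := {z | (∀ i, ‖z i‖ = 1) ∧ Eqs z}

theorem Xc_closed : IsClosed Xc := by
  have h1 : IsClosed {z : V | ∀ i, ‖z i‖ = 1} := by
    simp only [Set.ofPred_forall]
    exact isClosed_iInter fun i => isClosed_eq (by fun_prop) continuous_const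
  have h2 : IsClosed {z : V | Eqs z} := by
    simp only [Eqs, Set.ofPred_and]
    exact (isClosed_eq (by fun_prop) (by fun_prop)).inter
      ((isClosed_eq (by fun_prop) (by fun_prop)).inter (isClosed_eq (by fun_prop) (by fun_prop)))
  exact h1.inter h2

theorem Xc_compact : IsCompact Xc := by
  refine (isCompact_closedBall (0 : V) 1).of_isClosed_subset Xc_closed ?_
  intro z hz
  rw [mem_closedBall_zero_iff]
  exact (pi_norm_le_iff_of_nonneg zero_le_one).mpr fun i => (hz.1 i).le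

theorem mem_Xc {x y r s t : Fin 2 → ℂ} : (![x, y, r, s, t] : V) ∈ Xc ↔
    (x ∈ S3 ∧ y ∈ S3 ∧ r ∈ S3 ∧ s ∈ S3 ∧ t ∈ S3) ∧
    r 0 * s 0 * x 0 * x 1 = r 1 * s 1 * (x 0 * x 0 - x 1 * x 1) ∧
    r 0 * s 1 * y 0 * y 1 = r 1 * s 0 * (y 0 * y 0 - y 1 * y 1) ∧
    t 0 * s 0 * x 0 = t 1 * (x 0 - Complex.I * x 1) * (s 0 - s 1) := by
  simp only [mem_S3, Xc, Eqs, Set.mem_ofPred_eq, Fin.forall_fin_succ]
  simp

theorem eq_vec (z : V) : z = ![z 0, z 1, z 2, z 3, z 4] := by
  funext i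
  fin_cases i <;> rfl

theorem scale_of_det {v w : Fin 2 → ℂ} (hv : v ∈ S3) (hw : w ∈ S3) (h : v 0 * w 1 = v 1 * w 0) :
    w ∈ (fun c : ℂ => c • v) '' Metric.sphere 0 1 := by
  rw [mem_S3] at hv hw
  have hex : ∃ c : ℂ, w = c • v := by
    by_cases h0 : v 0 = 0
    · have h1 : v 1 ≠ 0 := by
        intro h1
        have : v = 0 := by
          funext i
          fin_cases i <;> simp [h0, h1]
        simp [this] at hv
      refine ⟨w 1 / v 1, ?_⟩
      have hw0 : w 0 = 0 := by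
        have : v 1 * w 0 = 0 := by rw [← h, h0, zero_mul]
        exact (mul_eq_zero.mp this).resolve_left h1
      funext i
      fin_cases i
      · simp [h0, hw0]
      · simp [h1]
    · refine ⟨w 0 / v 0, ?_⟩
      funext i
      fin_cases i
      · simp [h0]
      · simp only [Fin.mk_one, Pi.smul_apply, smul_eq_mul]
        field_simp
        linear_combination h
  obtain ⟨c, rfl⟩ := hex
  refine ⟨c, ?_, rfl⟩
  rw [norm_smul, hv, mul_one] at hw
  simpa using hw

/-- The covering involution on the `y` coordinate. -/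
def inv (y : Fin 2 → ℂ) : Fin 2 → ℂ := ![-(y 1), y 0]

theorem inv_mem {y : Fin 2 → ℂ} (h : y ∈ S3) : inv y ∈ S3 := by
  rw [mem_S3] at *
  rw [← h]
  simp only [inv, Pi.norm_def, Fin.univ_succ]
  simp [sup_comm]

/-- The data of a decomposition into two closed sets. -/
structure Dec (B C : Set V) : Prop where
  hB : IsClosed B
  hC : IsClosed C
  cov : Xc ⊆ B ∪ C
  dis : ∀ z ∈ Xc, z ∈ B → z ∉ C

theorem Dec.move {B C : Set V} (D : Dec B C) {A : Set (Fin 2 → ℂ)} (hA : IsPreconnected A)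
    {f : (Fin 2 → ℂ) → V} (hf : Continuous f) (h : ∀ v ∈ A, f v ∈ Xc) {v w : Fin 2 → ℂ}
    (hv : v ∈ A) (hw : w ∈ A) (hvB : f v ∈ B) : f w ∈ B := by
  by_contra hn
  have hwC : f w ∈ C := (D.cov (h w hw)).resolve_left hn
  have hA' := hA.image f hf.continuousOn
  rw [isPreconnected_closed_iff] at hA'
  have hsub : f '' A ⊆ B ∪ C := by
    rintro _ ⟨u, hu, rfl⟩
    exact D.cov (h u hu)
  obtain ⟨_, ⟨u, hu, rfl⟩, huB, huC⟩ := hA' B C D.hB D.hC hsub
    ⟨f v, ⟨v, hv, rfl⟩, hvB⟩ ⟨f w, ⟨w, hw, rfl⟩, hwC⟩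
  exact D.dis _ (h u hu) huB huC

theorem cont_y (x r s t : Fin 2 → ℂ) : Continuous (fun y => (![x, y, r, s, t] : V)) := by
  refine continuous_pi fun i => ?_
  fin_cases i <;> simp <;> fun_prop

theorem cont_r (x y s t : Fin 2 → ℂ) : Continuous (fun r => (![x, y, r, s, t] : V)) := by
  refine continuous_pi fun i => ?_
  fin_cases i <;> simp <;> fun_prop

theorem cont_t (x y r s : Fin 2 → ℂ) : Continuous (fun t => (![x, y, r, s, t] : V)) := by
  refine continuous_pi fun i => ?_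
  fin_cases i <;> simp <;> fun_prop

theorem circle_mem {v w : Fin 2 → ℂ} (hv : v ∈ S3)
    (hw : w ∈ (fun c : ℂ => c • v) '' Metric.sphere 0 1) :
    w ∈ S3 ∧ ∃ c : ℂ, w = c • v := by
  obtain ⟨c, hc, rfl⟩ := hw
  refine ⟨?_, c, rfl⟩
  rw [mem_S3] at *
  rw [norm_smul, hv, mul_one]
  simpa using hc

theorem self_mem_circle (v : Fin 2 → ℂ) : v ∈ (fun c : ℂ => c • v) '' Metric.sphere 0 1 :=
  ⟨1, by simp, by simp⟩

variable {B C : Set V}

/-- Moving the `t` coordinate. -/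
theorem Dec.move_t (D : Dec B C) {x y r s t t' : Fin 2 → ℂ} (h : (![x, y, r, s, t] : V) ∈ Xc)
    (h' : (![x, y, r, s, t'] : V) ∈ Xc) (hB : (![x, y, r, s, t] : V) ∈ B) :
    (![x, y, r, s, t'] : V) ∈ B := by
  have h1 := mem_Xc.mp h
  have h2 := mem_Xc.mp h'
  obtain ⟨⟨hx, hy, hr, hs, ht⟩, e0, e1, e2⟩ := h1
  obtain ⟨⟨-, -, -, -, ht'⟩, -, -, e2'⟩ := h2
  by_cases hab : s 0 * x 0 = 0 ∧ (x 0 - Complex.I * x 1) * (s 0 - s 1) = 0
  · refine D.move S3_preconnected (cont_t x y r s) (fun v hv => ?_) ht ht' hB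
    refine mem_Xc.mpr ⟨⟨hx, hy, hr, hs, hv⟩, e0, e1, ?_⟩
    linear_combination v 0 * hab.1 - v 1 * hab.2
  · refine D.move (circle_preconnected t) (cont_t x y r s) (fun v hv => ?_)
      (self_mem_circle t) ?_ hB
    · obtain ⟨hv1, c, rfl⟩ := circle_mem ht hv
      refine mem_Xc.mpr ⟨⟨hx, hy, hr, hs, hv1⟩, e0, e1, ?_⟩
      simp only [Pi.smul_apply, smul_eq_mul]
      linear_combination c * e2
    · refine scale_of_det ht ht' ?_
      have k1 : s 0 * x 0 * (t 0 * t' 1 - t 1 * t' 0) = 0 := by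
        linear_combination t' 1 * e2 - t 1 * e2'
      have k2 : (x 0 - Complex.I * x 1) * (s 0 - s 1) * (t 0 * t' 1 - t 1 * t' 0) = 0 := by
        linear_combination t' 0 * e2 - t 0 * e2'
      by_contra hne
      have hne' : t 0 * t' 1 - t 1 * t' 0 ≠ 0 := sub_ne_zero.mpr hne
      exact hab ⟨(mul_eq_zero.mp k1).resolve_right hne', (mul_eq_zero.mp k2).resolve_right hne'⟩

/-- Moving the `r` coordinate along a circle. -/
theorem Dec.move_r (D : Dec B C) {x y r r' s t : Fin 2 → ℂ} (h : (![x, y, r, s, t] : V) ∈ Xc)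
    (hr' : r' ∈ S3) (hdet : r 0 * r' 1 = r 1 * r' 0) (hB : (![x, y, r, s, t] : V) ∈ B) :
    (![x, y, r', s, t] : V) ∈ B := by
  obtain ⟨⟨hx, hy, hr, hs, ht⟩, e0, e1, e2⟩ := mem_Xc.mp h
  refine D.move (circle_preconnected r) (cont_r x y s t) (fun v hv => ?_)
      (self_mem_circle r) (scale_of_det hr hr' hdet) hB
  obtain ⟨hv1, c, rfl⟩ := circle_mem hr hv
  refine mem_Xc.mpr ⟨⟨hx, hy, hv1, hs, ht⟩, ?_, ?_, e2⟩
  · simp only [Pi.smul_apply, smul_eq_mul]
    linear_combination c * e0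
  · simp only [Pi.smul_apply, smul_eq_mul]
    linear_combination c * e1

/-- Moving the `y` coordinate along a circle. -/
theorem Dec.move_y (D : Dec B C) {x y y' r s t : Fin 2 → ℂ} (h : (![x, y, r, s, t] : V) ∈ Xc)
    (hy' : y' ∈ S3) (hdet : y 0 * y' 1 = y 1 * y' 0) (hB : (![x, y, r, s, t] : V) ∈ B) :
    (![x, y', r, s, t] : V) ∈ B := by
  obtain ⟨⟨hx, hy, hr, hs, ht⟩, e0, e1, e2⟩ := mem_Xc.mp h
  refine D.move (circle_preconnected y) (cont_y x r s t) (fun v hv => ?_)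
      (self_mem_circle y) (scale_of_det hy hy' hdet) hB
  obtain ⟨hv1, c, rfl⟩ := circle_mem hy hv
  refine mem_Xc.mpr ⟨⟨hx, hv1, hr, hs, ht⟩, e0, ?_, e2⟩
  simp only [Pi.smul_apply, smul_eq_mul]
  linear_combination c ^ 2 * e1

theorem inv_Xc {x y r s t : Fin 2 → ℂ} (h : (![x, y, r, s, t] : V) ∈ Xc) :
    (![x, inv y, r, s, t] : V) ∈ Xc := by
  obtain ⟨⟨hx, hy, hr, hs, ht⟩, e0, e1, e2⟩ := mem_Xc.mp h
  refine mem_Xc.mpr ⟨⟨hx, inv_mem hy, hr, hs, ht⟩, e0, ?_, e2⟩
  simp only [inv, Matrix.cons_val_zero, Matrix.cons_val_one]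
  linear_combination - e1

/-- The fibres over the special points are connected. -/
theorem Dec.special (D : Dec B C) {x y y' r r' rs s t : Fin 2 → ℂ} (hrs : rs ∈ S3)
    (h : (![x, y, r, s, t] : V) ∈ Xc) (h' : (![x, y', r', s, t] : V) ∈ Xc)
    (H1 : ∀ u ∈ S3, (![x, u, rs, s, t] : V) ∈ Xc)
    (H2 : (∀ u ∈ S3, (![x, y, u, s, t] : V) ∈ Xc) ∨ r 0 * rs 1 = r 1 * rs 0)
    (H3 : (∀ u ∈ S3, (![x, y', u, s, t] : V) ∈ Xc) ∨ r' 0 * rs 1 = r' 1 * rs 0)
    (hB : (![x, y, r, s, t] : V) ∈ B) : (![x, y', r', s, t] : V) ∈ B := by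
  obtain ⟨⟨hx, hy, hr, hs, ht⟩, -⟩ := mem_Xc.mp h
  obtain ⟨⟨-, hy', hr', -, -⟩, -⟩ := mem_Xc.mp h'
  have s1 : (![x, y, rs, s, t] : V) ∈ B := by
    rcases H2 with H2 | H2
    · exact D.move S3_preconnected (cont_r x y s t) H2 hr hrs hB
    · exact D.move_r h hrs H2 hB
  have s2 : (![x, y', rs, s, t] : V) ∈ B :=
    D.move S3_preconnected (cont_y x rs s t) H1 hy hy' s1
  rcases H3 with H3 | H3
  · exact D.move S3_preconnected (cont_r x y' s t) H3 hrs hr' s2
  · exact D.move_r (H1 _ hy') hr' (by linear_combination - H3) s2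

/-- Two points in the same fibre. -/
theorem Dec.fibre (D : Dec B C) {x y r s t y' r' t' : Fin 2 → ℂ}
    (hP : (![x, y, r, s, t] : V) ∈ Xc) (hQ : (![x, y', r', s, t'] : V) ∈ Xc)
    (h1 : (![x, y, r, s, t] : V) ∈ B) (h2 : (![x, inv y, r, s, t] : V) ∈ B) :
    (![x, y', r', s, t'] : V) ∈ B := by
  obtain ⟨⟨hx, hy, hr, hs, ht⟩, e0, e1, e2⟩ := mem_Xc.mp hP
  obtain ⟨⟨-, hy', hr', -, ht'⟩, f0, f1, f2⟩ := mem_Xc.mp hQ
  have hP' : (![x, y, r, s, t'] : V) ∈ Xc :=
    mem_Xc.mpr ⟨⟨hx, hy, hr, hs, ht'⟩, e0, e1, f2⟩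
  have h1' := D.move_t hP hP' h1
  have h2' := D.move_t (inv_Xc hP) (inv_Xc hP') h2
  by_cases hab : s 0 * x 0 * x 1 = 0 ∧ s 1 * (x 0 * x 0 - x 1 * x 1) = 0
  · obtain ⟨a1, a2⟩ := hab
    by_cases hs0 : s 0 = 0
    · -- `s = 0`, `x = ± 1`
      have hs1 : s 1 ≠ 0 := by
        intro hs1
        have : s = 0 := by
          funext i
          fin_cases i <;> simp [hs0, hs1]
        rw [mem_S3, this] at hs
        simp at hs
      have hX : x 0 * x 0 - x 1 * x 1 = 0 := (mul_eq_zero.mp a2).resolve_left hs1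
      have key : ∀ {y r : Fin 2 → ℂ}, y ∈ S3 →
          r 0 * s 1 * y 0 * y 1 = r 1 * s 0 * (y 0 * y 0 - y 1 * y 1) →
          (∀ u ∈ S3, (![x, y, u, s, t'] : V) ∈ Xc) ∨
            r 0 * (![0, 1] : Fin 2 → ℂ) 1 = r 1 * (![0, 1] : Fin 2 → ℂ) 0 := by
        intro y r hy e
        rw [hs0] at e
        by_cases hr0 : r 0 = 0
        · right
          simp [hr0]
        · left
          have hyy : y 0 * y 1 = 0 := by
            have : r 0 * s 1 * (y 0 * y 1) = 0 := by linear_combination e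
            exact (mul_eq_zero.mp this).resolve_left (mul_ne_zero hr0 hs1)
          intro u hu
          refine mem_Xc.mpr ⟨⟨hx, hy, hu, hs, ht'⟩, ?_, ?_, f2⟩
          · linear_combination u 0 * x 0 * x 1 * hs0 - u 1 * s 1 * hX
          · linear_combination u 0 * s 1 * hyy - u 1 * (y 0 * y 0 - y 1 * y 1) * hs0
      refine D.special (rs := ![0, 1]) ?_ hP' hQ (fun u hu => ?_) (key hy e1) (key hy' f1) h1'
      · rw [mem_S3, Pi.norm_def, Fin.univ_succ]
        simp
      · refine mem_Xc.mpr ⟨⟨hx, hu, ?_, hs, ht'⟩, ?_, ?_, f2⟩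
        · rw [mem_S3, Pi.norm_def, Fin.univ_succ]
          simp
        · simp only [Matrix.cons_val_zero, Matrix.cons_val_one]
          linear_combination - s 1 * hX
        · simp only [Matrix.cons_val_zero, Matrix.cons_val_one]
          linear_combination - (u 0 * u 0 - u 1 * u 1) * hs0
    · -- `s = ∞`, `x = 0, ∞`
      have hX : x 0 * x 1 = 0 := by
        have : s 0 * (x 0 * x 1) = 0 := by linear_combination a1
        exact (mul_eq_zero.mp this).resolve_left hs0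
      have hX' : x 0 * x 0 - x 1 * x 1 ≠ 0 := by
        intro h
        have hx0 : x = 0 := by
          have h4 : x 0 ^ 4 = 0 := by
            linear_combination x 0 * x 0 * h + x 0 * x 1 * hX
          have h5 : x 0 = 0 := by simpa using h4
          have h6 : x 1 ^ 2 = 0 := by
            linear_combination - h + x 0 * h5
          have h7 : x 1 = 0 := by simpa using h6
          funext i
          fin_cases i <;> simp [h5, h7]
        rw [mem_S3, hx0] at hx
        simp at hx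
      have hs1 : s 1 = 0 := (mul_eq_zero.mp a2).resolve_right hX'
      have key : ∀ {y r : Fin 2 → ℂ}, y ∈ S3 →
          r 0 * s 1 * y 0 * y 1 = r 1 * s 0 * (y 0 * y 0 - y 1 * y 1) →
          (∀ u ∈ S3, (![x, y, u, s, t'] : V) ∈ Xc) ∨
            r 0 * (![1, 0] : Fin 2 → ℂ) 1 = r 1 * (![1, 0] : Fin 2 → ℂ) 0 := by
        intro y r hy e
        rw [hs1] at e
        by_cases hr1 : r 1 = 0
        · right
          simp [hr1]
        · left
          have hyy : y 0 * y 0 - y 1 * y 1 = 0 := by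
            have : r 1 * s 0 * (y 0 * y 0 - y 1 * y 1) = 0 := by linear_combination - e
            exact (mul_eq_zero.mp this).resolve_left (mul_ne_zero hr1 hs0)
          intro u hu
          refine mem_Xc.mpr ⟨⟨hx, hy, hu, hs, ht'⟩, ?_, ?_, f2⟩
          · linear_combination u 0 * s 0 * hX - u 1 * (x 0 * x 0 - x 1 * x 1) * hs1
          · linear_combination u 0 * y 0 * y 1 * hs1 - u 1 * s 0 * hyy
      refine D.special (rs := ![1, 0]) ?_ hP' hQ (fun u hu => ?_) (key hy e1) (key hy' f1) h1'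
      · rw [mem_S3, Pi.norm_def, Fin.univ_succ]
        simp
      · refine mem_Xc.mpr ⟨⟨hx, hu, ?_, hs, ht'⟩, ?_, ?_, f2⟩
        · rw [mem_S3, Pi.norm_def, Fin.univ_succ]
          simp
        · simp only [Matrix.cons_val_zero, Matrix.cons_val_one]
          linear_combination s 0 * hX
        · simp only [Matrix.cons_val_zero, Matrix.cons_val_one]
          linear_combination u 0 * u 1 * hs1
  · -- the generic case
    have hdet : r 0 * r' 1 = r 1 * r' 0 := by
      have k1 : s 0 * x 0 * x 1 * (r 0 * r' 1 - r 1 * r' 0) = 0 := by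
        linear_combination r' 1 * e0 - r 1 * f0
      have k2 : s 1 * (x 0 * x 0 - x 1 * x 1) * (r 0 * r' 1 - r 1 * r' 0) = 0 := by
        linear_combination r' 0 * e0 - r 0 * f0
      by_contra hne
      have hne' : r 0 * r' 1 - r 1 * r' 0 ≠ 0 := sub_ne_zero.mpr hne
      exact hab ⟨(mul_eq_zero.mp k1).resolve_right hne', (mul_eq_zero.mp k2).resolve_right hne'⟩
    have h1'' := D.move_r hP' hr' hdet h1'
    have h2'' := D.move_r (inv_Xc hP') hr' hdet h2'
    obtain ⟨-, c, rfl⟩ := circle_mem hr (scale_of_det hr hr' hdet)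
    have hP'' : (![x, y, c • r, s, t'] : V) ∈ Xc := by
      refine mem_Xc.mpr ⟨⟨hx, hy, hr', hs, ht'⟩, f0, ?_, f2⟩
      simp only [Pi.smul_apply, smul_eq_mul]
      linear_combination c * e1
    obtain ⟨-, -, g1, -⟩ := mem_Xc.mp hP''
    set R := c • r with hR
    by_cases hα : R 0 * s 1 = 0 ∧ R 1 * s 0 = 0
    · refine D.move S3_preconnected (cont_y x R s t') (fun v hv => ?_) hy hy' h1''
      refine mem_Xc.mpr ⟨⟨hx, hv, hr', hs, ht'⟩, f0, ?_, f2⟩
      linear_combination v 0 * v 1 * hα.1 - (v 0 * v 0 - v 1 * v 1) * hα.2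
    · have k0 : (y 0 * y' 1 - y 1 * y' 0) * (y 0 * y' 0 + y 1 * y' 1) = 0 := by
        have k1 : R 0 * s 1 * ((y 0 * y' 1 - y 1 * y' 0) * (y 0 * y' 0 + y 1 * y' 1)) = 0 := by
          linear_combination (y' 1 * y' 1 - y' 0 * y' 0) * g1 + (y 0 * y 0 - y 1 * y 1) * f1
        have k2 : R 1 * s 0 * ((y 0 * y' 1 - y 1 * y' 0) * (y 0 * y' 0 + y 1 * y' 1)) = 0 := by
          linear_combination (- y' 0 * y' 1) * g1 + y 0 * y 1 * f1
        by_contra hne
        exact hα ⟨(mul_eq_zero.mp k1).resolve_right hne, (mul_eq_zero.mp k2).resolve_right hne⟩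
      rcases mul_eq_zero.mp k0 with k | k
      · exact D.move_y hP'' hy' (by linear_combination k) h1''
      · refine D.move_y (inv_Xc hP'') hy' ?_ h2''
        simp only [inv, Matrix.cons_val_zero, Matrix.cons_val_one]
        linear_combination - k

theorem exists_lin (a b : ℂ) : ∃ v ∈ S3, v 0 * a = v 1 * b := by
  by_cases h : (![b, a] : Fin 2 → ℂ) = 0
  · have h0 : b = 0 := by simpa using congrFun h 0
    have h1 : a = 0 := by simpa using congrFun h 1
    refine ⟨![1, 0], ?_, by simp [h0, h1]⟩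
    rw [mem_S3, Pi.norm_def, Fin.univ_succ]
    simp
  · refine ⟨((‖(![b, a] : Fin 2 → ℂ)‖⁻¹ : ℝ) : ℂ) • ![b, a], ?_, ?_⟩
    · rw [mem_S3, norm_smul, Complex.norm_real, norm_inv, norm_norm]
      exact inv_mul_cancel₀ (norm_ne_zero_iff.mpr h)
    · simp only [Pi.smul_apply, smul_eq_mul, Matrix.cons_val_zero, Matrix.cons_val_one]
      ring

theorem exists_quad (α β : ℂ) : ∃ y ∈ S3, α * (y 0 * y 1) = β * (y 0 * y 0 - y 1 * y 1) := by
  by_cases hβ : β = 0
  · refine ⟨![0, 1], ?_, by simp [hβ]⟩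
    rw [mem_S3, Pi.norm_def, Fin.univ_succ]
    simp
  · obtain ⟨δ, hδ⟩ := IsAlgClosed.exists_pow_nat_eq (α ^ 2 + 4 * β ^ 2) (n := 2) (by norm_num)
    have h : (![α + δ, 2 * β] : Fin 2 → ℂ) ≠ 0 := by
      intro h
      have : 2 * β = 0 := by simpa using congrFun h 1
      exact hβ (by simpa using this)
    refine ⟨((‖(![α + δ, 2 * β] : Fin 2 → ℂ)‖⁻¹ : ℝ) : ℂ) • ![α + δ, 2 * β], ?_, ?_⟩
    · rw [mem_S3, norm_smul, Complex.norm_real, norm_inv, norm_norm]
      exact inv_mul_cancel₀ (norm_ne_zero_iff.mpr h)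
    · simp only [Pi.smul_apply, smul_eq_mul, Matrix.cons_val_zero, Matrix.cons_val_one]
      linear_combination
        (-((‖(![α + δ, 2 * β] : Fin 2 → ℂ)‖⁻¹ : ℝ) : ℂ) ^ 2 * β) * hδ

/-- Every `(x, s)` is the image of a point of the surface. -/
theorem exists_over {x s : Fin 2 → ℂ} (hx : x ∈ S3) (hs : s ∈ S3) :
    ∃ y r t : Fin 2 → ℂ, (![x, y, r, s, t] : V) ∈ Xc := by
  obtain ⟨r, hr, er⟩ := exists_lin (s 0 * x 0 * x 1) (s 1 * (x 0 * x 0 - x 1 * x 1))
  obtain ⟨t, ht, et⟩ := exists_lin (s 0 * x 0) ((x 0 - Complex.I * x 1) * (s 0 - s 1))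
  obtain ⟨y, hy, ey⟩ := exists_quad (r 0 * s 1) (r 1 * s 0)
  refine ⟨y, r, t, mem_Xc.mpr ⟨⟨hx, hy, hr, hs, ht⟩, ?_, ?_, ?_⟩⟩
  · linear_combination er
  · linear_combination ey
  · linear_combination et

/-- The base point. -/
def P0 : V := ![![1, 1], ![1, 1], ![0, 1], ![0, 1], ![1, 0]]

theorem P0_line {u : Fin 2 → ℂ} (hu : u ∈ S3) :
    (![![1, 1], u, ![0, 1], ![0, 1], ![1, 0]] : V) ∈ Xc := by
  refine mem_Xc.mpr ⟨⟨?_, hu, ?_, ?_, ?_⟩, ?_, ?_, ?_⟩
  · rw [mem_S3, Pi.norm_def, Fin.univ_succ]; simp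
  · rw [mem_S3, Pi.norm_def, Fin.univ_succ]; simp
  · rw [mem_S3, Pi.norm_def, Fin.univ_succ]; simp
  · rw [mem_S3, Pi.norm_def, Fin.univ_succ]; simp
  · simp
  · simp
  · simp

theorem one_mem : (![1, 1] : Fin 2 → ℂ) ∈ S3 := by
  rw [mem_S3, Pi.norm_def, Fin.univ_succ]; simp

/-- The covering involution. -/
def iota (z : V) : V := ![z 0, inv (z 1), z 2, z 3, z 4]

theorem iota_cont : Continuous iota := by
  refine continuous_pi fun i => ?_
  fin_cases i
  · simp only [iota]; simpa using continuous_apply (A := fun _ : Fin 5 => Fin 2 → ℂ) 0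
  · refine continuous_pi fun j => ?_
    fin_cases j
    · simp only [iota, inv]; simp; fun_prop
    · simp only [iota, inv]; simp; fun_prop
  · simp only [iota]; simpa using continuous_apply (A := fun _ : Fin 5 => Fin 2 → ℂ) 2
  · simp only [iota]; simpa using continuous_apply (A := fun _ : Fin 5 => Fin 2 → ℂ) 3
  · simp only [iota]; simpa using continuous_apply (A := fun _ : Fin 5 => Fin 2 → ℂ) 4

theorem Dec.main (D : Dec B C) (h0 : P0 ∈ B) : ∀ z ∈ Xc, z ∉ C := by
  have h0' : iota P0 ∈ B := by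
    have := D.move (f := fun y => (![![1, 1], y, ![0, 1], ![0, 1], ![1, 0]] : V))
      S3_preconnected (cont_y _ _ _ _) (fun u hu => P0_line hu) one_mem (inv_mem one_mem) h0
    exact this
  set π : V → (Fin 2 → ℂ) × (Fin 2 → ℂ) := fun z => (z 0, z 3) with hπ
  have hπc : Continuous π := by fun_prop
  set K1 := π '' (Xc ∩ (B ∩ iota ⁻¹' B)) with hK1
  set K2 := π '' (Xc ∩ C) with hK2
  have c1 : IsClosed K1 :=
    ((Xc_compact.inter_right (D.hB.inter (D.hB.preimage iota_cont))).image hπc).isClosed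
  have c2 : IsClosed K2 := ((Xc_compact.inter_right D.hC).image hπc).isClosed
  have hpre : IsPreconnected (S3 ×ˢ S3) := S3_preconnected.prod S3_preconnected
  have hcov : S3 ×ˢ S3 ⊆ K1 ∪ K2 := by
    rintro ⟨x, s⟩ ⟨hx, hs⟩
    obtain ⟨y, r, t, hP⟩ := exists_over hx hs
    have hiP : (![x, inv y, r, s, t] : V) ∈ Xc := inv_Xc hP
    rcases D.cov hP with hB | hC
    · rcases D.cov hiP with hB' | hC'
      · left
        exact ⟨![x, y, r, s, t], ⟨hP, hB, hB'⟩, rfl⟩
      · right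
        exact ⟨_, ⟨hiP, hC'⟩, rfl⟩
    · right
      exact ⟨_, ⟨hP, hC⟩, rfl⟩
  have hdis : ∀ p, p ∈ K1 → p ∈ K2 → False := by
    rintro _ ⟨z, ⟨hz, hzB, hzB'⟩, rfl⟩ ⟨w, ⟨hw, hwC⟩, hzw⟩
    simp only [hπ, Prod.mk.injEq] at hzw
    obtain ⟨e0, e3⟩ := hzw
    refine D.dis w hw ?_ hwC
    rw [eq_vec z] at hz hzB
    rw [eq_vec w, e0, e3] at hw ⊢
    exact D.fibre hz hw hzB hzB'
  intro z hz hzC
  have hz' := hz
  rw [eq_vec z] at hz'
  obtain ⟨⟨hx, -, -, hs, -⟩, -⟩ := mem_Xc.mp hz'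
  rw [isPreconnected_closed_iff] at hpre
  have hP0 : P0 ∈ Xc := P0_line one_mem
  obtain ⟨p, -, hp1, hp2⟩ := hpre K1 K2 c1 c2 hcov
    ⟨π P0, ⟨one_mem, by
      show (![0, 1] : Fin 2 → ℂ) ∈ S3
      rw [mem_S3, Pi.norm_def, Fin.univ_succ]; simp⟩, ⟨P0, ⟨hP0, h0, h0'⟩, rfl⟩⟩
    ⟨π z, ⟨hx, hs⟩, ⟨z, ⟨hz, hzC⟩, rfl⟩⟩
  exact hdis p hp1 hp2

/-- The closed subset of the space of coordinates defined by a set of polynomials. -/
def lift (S : Set (HPoly 5)) : Set V := {z | ∀ G ∈ S, eval (fun a => z a.1 a.2) G = 0}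

theorem lift_closed (S : Set (HPoly 5)) : IsClosed (lift S) := by
  simp only [lift, Set.ofPred_forall]
  refine isClosed_iInter fun G => isClosed_iInter fun _ => isClosed_eq ?_ continuous_const
  exact (MvPolynomial.continuous_eval G).comp (by fun_prop)

theorem mem_lift {S : Set (HPoly 5)} (hS : ∀ G ∈ S, ∃ D, IsMultiHom G D) {P : PPow 5} {z : V}
    (h : HasCoords P z) : P ∈ zeroLocus S ↔ z ∈ lift S := by
  refine forall_congr' fun G => forall_congr' fun hG => ?_
  obtain ⟨D, hD⟩ := hS G hG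
  exact h.evalAt_eq_zero_iff hD

theorem exists_coords (P : PPow 5) : ∃ z : V, (∀ i, ‖z i‖ = 1) ∧ HasCoords P z := by
  refine ⟨fun i => ((‖(P i).rep‖⁻¹ : ℝ) : ℂ) • (P i).rep, fun i => ?_, fun i => ?_⟩
  · have h := norm_ne_zero_iff.mpr (P i).rep_nonzero
    simp only [norm_smul, Complex.norm_real, norm_inv, norm_norm]
    exact inv_mul_cancel₀ h
  · have h := norm_ne_zero_iff.mpr (P i).rep_nonzero
    have h' : ((‖(P i).rep‖⁻¹ : ℝ) : ℂ) ≠ 0 := by
      rw [Ne, Complex.ofReal_eq_zero]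
      exact inv_ne_zero h
    refine ⟨smul_ne_zero h' (P i).rep_nonzero, ?_⟩
    conv_lhs => rw [← Projectivization.mk_rep (P i)]
    rw [Projectivization.mk_eq_mk_iff']
    refine ⟨(((‖(P i).rep‖⁻¹ : ℝ) : ℂ))⁻¹, ?_⟩
    rw [smul_smul, inv_mul_cancel₀ h', one_smul]

theorem exists_point {z : V} (hz : ∀ i, ‖z i‖ = 1) : ∃ P : PPow 5, HasCoords P z := by
  have h : ∀ i, z i ≠ 0 := fun i hi => by
    have := hz i
    rw [hi, norm_zero] at this
    exact zero_ne_one this
  exact ⟨fun i => Projectivization.mk ℂ (z i) (h i), fun i => ⟨h i, rfl⟩⟩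

end Conn

open Conn in
theorem surf_connected : IsZariskiConnected surf.points := by
  constructor
  · obtain ⟨P, hP⟩ := exists_point (z := P0) (P0_line one_mem).1
    exact ⟨P, (mem_surf_iff hP).mpr (P0_line one_mem).2⟩
  · rintro B C ⟨SB, hSB, rfl⟩ ⟨SC, hSC, rfl⟩ hcov hdis
    have D : Dec (lift SB) (lift SC) := by
      refine ⟨lift_closed _, lift_closed _, fun z hz => ?_, fun z hz hB hC => ?_⟩
      · obtain ⟨P, hP⟩ := exists_point hz.1
        have h1 : P ∈ surf.points := (mem_surf_iff hP).mpr hz.2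
        rw [hcov] at h1
        exact h1.imp (mem_lift hSB hP).mp (mem_lift hSC hP).mp
      · obtain ⟨P, hP⟩ := exists_point hz.1
        exact Set.disjoint_left.mp hdis ((mem_lift hSB hP).mpr hB) ((mem_lift hSC hP).mpr hC)
    have D' : Dec (lift SC) (lift SB) :=
      ⟨D.hC, D.hB, fun z hz => (D.cov hz).symm, fun z hz hC hB => D.dis z hz hB hC⟩
    rcases D.cov (P0_line one_mem) with h | h
    · right
      rw [Set.eq_empty_iff_forall_notMem]
      intro P hP
      obtain ⟨z, hz, hPz⟩ := exists_coords P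
      have h1 : P ∈ surf.points := by rw [hcov]; exact Or.inr hP
      exact D.main h z ⟨hz, (mem_surf_iff hPz).mp h1⟩ ((mem_lift hSC hPz).mp hP)
    · left
      rw [Set.eq_empty_iff_forall_notMem]
      intro P hP
      obtain ⟨z, hz, hPz⟩ := exists_coords P
      have h1 : P ∈ surf.points := by rw [hcov]; exact Or.inl hP
      exact D'.main h z ⟨hz, (mem_surf_iff hPz).mp h1⟩ ((mem_lift hSB hPz).mp hP)

end Pool.Agent.Lib.MP_33f69e_ag
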