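import Mathlib

/-!
# Values of rational functions

`HasVal a f v`: the rational function `f` is regular at `a` with value `v`.
-/

namespace Pool.Agent.Lib.MP_33f69e_ag

open Polynomial

/-- The rational function `f` is regular at `a`, with value `v`. -/
def HasVal (a : ℂ) (f : RatFunc ℂ) (v : ℂ) : Prop :=
  ∃ p q : ℂ[X], q.eval a ≠ 0 ∧ algebraMap ℂ[X] (RatFunc ℂ) q * f = algebraMap ℂ[X] (RatFunc ℂ) p ∧
    p.eval a = v * q.eval a

/-- The degree of a rational function. -/
noncomputable def rdeg (f : RatFunc ℂ) : ℕ := max f.num.natDegree f.denom.natDegree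

namespace HasVal

variable {a : ℂ} {f g : RatFunc ℂ} {v w : ℂ}

theorem C (a c : ℂ) : HasVal a (RatFunc.C c) c :=
  ⟨Polynomial.C c, 1, by simp, by simp [RatFunc.algebraMap_C], by simp⟩

theorem X (a : ℂ) : HasVal a RatFunc.X a :=
  ⟨Polynomial.X, 1, by simp, by simp [RatFunc.algebraMap_X], by simp⟩

theorem one (a : ℂ) : HasVal a 1 1 := by
  simpa using HasVal.C a 1

theorem zero (a : ℂ) : HasVal a 0 0 := by
  simpa using HasVal.C a 0

theorem add (hf : HasVal a f v) (hg : HasVal a g w) : HasVal a (f + g) (v + w) := by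
  obtain ⟨p, q, hq, h1, h2⟩ := hf
  obtain ⟨p', q', hq', h1', h2'⟩ := hg
  refine ⟨p * q' + p' * q, q * q', by simp [hq, hq'], ?_, ?_⟩
  · rw [map_add, map_mul, map_mul, map_mul, ← h1, ← h1']
    ring
  · simp only [eval_add, eval_mul, h2, h2']
    ring

theorem mul (hf : HasVal a f v) (hg : HasVal a g w) : HasVal a (f * g) (v * w) := by
  obtain ⟨p, q, hq, h1, h2⟩ := hf
  obtain ⟨p', q', hq', h1', h2'⟩ := hg
  refine ⟨p * p', q * q', by simp [hq, hq'], ?_, ?_⟩
  · rw [map_mul, map_mul, ← h1, ← h1']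
    ring
  · simp only [eval_mul, h2, h2']
    ring

theorem neg (hf : HasVal a f v) : HasVal a (-f) (-v) := by
  have := (HasVal.C a (-1)).mul hf
  simpa using this

theorem sub (hf : HasVal a f v) (hg : HasVal a g w) : HasVal a (f - g) (v - w) := by
  rw [sub_eq_add_neg, sub_eq_add_neg]
  exact hf.add hg.neg

theorem pow (hf : HasVal a f v) (n : ℕ) : HasVal a (f ^ n) (v ^ n) := by
  induction n with
  | zero => simpa using HasVal.one a
  | succ n ih => rw [pow_succ, pow_succ]; exact ih.mul hf

theorem unique (hf : HasVal a f v) (hf' : HasVal a f w) : v = w := by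
  obtain ⟨p, q, hq, h1, h2⟩ := hf
  obtain ⟨p', q', hq', h1', h2'⟩ := hf'
  have h3 : algebraMap ℂ[X] (RatFunc ℂ) (q' * p) = algebraMap ℂ[X] (RatFunc ℂ) (q * p') := by
    rw [map_mul, map_mul, ← h1, ← h1']
    ring
  have h4 := congrArg (Polynomial.eval a) (RatFunc.algebraMap_injective ℂ h3)
  simp only [eval_mul, h2, h2'] at h4
  have h5 : (q'.eval a * q.eval a) * (v - w) = 0 := by linear_combination h4
  rcases mul_eq_zero.mp h5 with h | h
  · exact absurd h (mul_ne_zero hq' hq)
  · exact sub_eq_zero.mp h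

theorem inv (hf : HasVal a f v) (hv : v ≠ 0) : HasVal a f⁻¹ v⁻¹ := by
  obtain ⟨p, q, hq, h1, h2⟩ := hf
  have hp : p.eval a ≠ 0 := by rw [h2]; exact mul_ne_zero hv hq
  have hp0 : algebraMap ℂ[X] (RatFunc ℂ) p ≠ 0 := by
    intro h
    have : p = 0 := RatFunc.algebraMap_injective ℂ (by simpa using h)
    simp [this] at hp
  have hf0 : f ≠ 0 := by
    rintro rfl
    exact hp0 (by rw [← h1]; simp)
  refine ⟨q, p, hp, ?_, ?_⟩
  · rw [← h1]
    field_simp
  · rw [h2]
    field_simp

theorem div (hf : HasVal a f v) (hg : HasVal a g w) (hw : w ≠ 0) : HasVal a (f / g) (v / w) := by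
  rw [div_eq_mul_inv, div_eq_mul_inv]
  exact hf.mul (hg.inv hw)

theorem ne_zero (hf : HasVal a f v) (hv : v ≠ 0) : f ≠ 0 := by
  rintro rfl
  exact hv (hf.unique (HasVal.zero a))

theorem congr_val (hf : HasVal a f v) (h : v = w) : HasVal a f w := h ▸ hf

theorem denom_ne_zero (hf : HasVal a f v) : f.denom.eval a ≠ 0 := by
  obtain ⟨p, q, hq, h1, h2⟩ := hf
  have h3 : q * f.num = p * f.denom := by
    apply RatFunc.algebraMap_injective ℂ
    rw [map_mul, map_mul, ← h1]
    have hd : algebraMap ℂ[X] (RatFunc ℂ) f.denom ≠ 0 := by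
      intro h
      exact f.denom_ne_zero (RatFunc.algebraMap_injective ℂ (by simpa using h))
    have h4 := RatFunc.num_div_denom f
    rw [div_eq_iff hd] at h4
    rw [h4]
    ring
  intro h0
  have hn : f.num.eval a = 0 := by
    have := congrArg (Polynomial.eval a) h3
    simp only [eval_mul, h0, mul_zero] at this
    rcases mul_eq_zero.mp this with h | h
    · exact absurd h hq
    · exact h
  obtain ⟨b, c, hbc⟩ := f.isCoprime_num_denom
  have := congrArg (Polynomial.eval a) hbc
  simp [hn, h0] at this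

theorem num_eval (hf : HasVal a f v) : f.num.eval a = v * f.denom.eval a := by
  have hd := hf.denom_ne_zero
  have h1 : HasVal a f (f.num.eval a / f.denom.eval a) := by
    refine ⟨f.num, f.denom, hd, ?_, ?_⟩
    · have hd' : algebraMap ℂ[X] (RatFunc ℂ) f.denom ≠ 0 := by
        intro h
        exact f.denom_ne_zero (RatFunc.algebraMap_injective ℂ (by simpa using h))
      have h4 := RatFunc.num_div_denom f
      rw [div_eq_iff hd'] at h4
      rw [h4]
      ring
    · field_simp
  have h2 := hf.unique h1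
  rw [h2]
  field_simp

theorem of_eval (f : RatFunc ℂ) (hd : f.denom.eval a ≠ 0) :
    HasVal a f (f.num.eval a / f.denom.eval a) := by
  refine ⟨f.num, f.denom, hd, ?_, ?_⟩
  · have hd' : algebraMap ℂ[X] (RatFunc ℂ) f.denom ≠ 0 := by
      intro h
      exact f.denom_ne_zero (RatFunc.algebraMap_injective ℂ (by simpa using h))
    have h4 := RatFunc.num_div_denom f
    rw [div_eq_iff hd'] at h4
    rw [h4]
    ring
  · field_simp

end HasVal

end Pool.Agent.Lib.MP_33f69e_ag
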