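import Mathlib
import Pool.Agent.Lib.MP_33f69e_ag.Val

/-!
# The rational curves
-/

namespace Pool.Agent.Lib.MP_33f69e_ag

open Polynomial IntermediateField

/-- The Lattes map of degree two. -/
noncomputable def phi (w : ℂ) : ℂ := (w - w⁻¹) / (2 * Complex.I)

namespace Curves

/-! ## Identities in a field -/

section Field

variable {K : Type*} [Field K] (i c : K)

/-- the Lattes map over a field containing a square root `i` of `-1` -/
def ph (w : K) : K := (w - w⁻¹) / (2 * i)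

/-- the factor of `s` -/
def lam (w : K) : K := c * (w ^ 2 + 1) / (w ^ 2 - 1)

variable {i c}

theorem lam_identity (hi : i ^ 2 = -1) (h2 : (2 : K) ≠ 0) (hc : 2 * i * c ^ 2 = 1) {w : K}
    (hw : w ≠ 0) (hw1 : w ^ 2 - 1 ≠ 0) :
    ph i w - (ph i w)⁻¹ = lam c w ^ 2 * (w - w⁻¹) := by
  have hi0 : i ≠ 0 := by
    rintro rfl
    simp at hi
  have h1 : ph i w = (w ^ 2 - 1) / (2 * i * w) := by
    rw [ph]
    field_simp
  have hc' : c ^ 2 = 1 / (2 * i) := by
    field_simp
    linear_combination hc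
  have h3 : lam c w ^ 2 = 1 / (2 * i) * (w ^ 2 + 1) ^ 2 / (w ^ 2 - 1) ^ 2 := by
    rw [lam, div_pow, mul_pow, hc']
  rw [h1, h3]
  field_simp
  linear_combination (-4 * w ^ 2) * hi

/-- the numerator of rho -/
def gN (x η : K) : K := 2 * x ^ 2 * η ^ 2 + (1 + η) * (1 - 2 * η)

/-- the denominator of rho -/
def gD (x η : K) : K := (1 + η) ^ 2 - (3 * η + η ^ 2) * x ^ 2

theorem g_identity (x η s : K) (hx : x ≠ 0) (hη : η ≠ 0) (hη1 : 1 - η ^ 2 ≠ 0)
    (hN : gN x η ≠ 0) (hD : gD x η ≠ 0) (hM : η * gD x η + (1 + η) * gN x η ≠ 0)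
    (h : s ^ 2 * (η⁻¹ - η) = x - x⁻¹) :
    (s * ((1 + η) + η * gD x η / gN x η)) ^ 2 *
      ((η * gD x η / (η * gD x η + (1 + η) * gN x η))⁻¹ -
        η * gD x η / (η * gD x η + (1 + η) * gN x η)) =
      x * gN x η / gD x η - (x * gN x η / gD x η)⁻¹ := by
  have key : (x ^ 2 - 1) * (η * gD x η + (1 + η) * gN x η) *
      ((1 + η) * gN x η + 2 * η * gD x η) = (1 - η) * (x ^ 2 * gN x η ^ 2 - gD x η ^ 2) := by
    simp only [gN, gD]
    ring
  have hs : s ^ 2 * (1 - η ^ 2) * x = (x ^ 2 - 1) * η := by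
    field_simp at h
    linear_combination h
  set N := gN x η with hNdef
  set D := gD x η with hDdef
  set M := η * D + (1 + η) * N with hMdef
  have e1 : s * ((1 + η) + η * D / N) = s * M / N := by
    rw [hMdef]
    field_simp
    ring
  rw [e1]
  have e2 : (s * M / N) ^ 2 * ((η * D / M)⁻¹ - η * D / M) =
      s ^ 2 * M * ((1 + η) * ((1 + η) * N + 2 * η * D)) / (N * η * D) := by
    have : M ^ 2 - (η * D) ^ 2 = ((1 + η) * N) * ((1 + η) * N + 2 * η * D) := by
      rw [hMdef]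
      ring
    have e3 : (η * D / M)⁻¹ - η * D / M = (M ^ 2 - (η * D) ^ 2) / (η * D * M) := by
      field_simp
    rw [e3, this]
    field_simp
  rw [e2]
  have h1 : (1 + η) ≠ 0 := by
    intro h0
    apply hη1
    linear_combination (1 - η) * h0
  have h2 : (1 - η) ≠ 0 := by
    intro h0
    apply hη1
    linear_combination (1 + η) * h0
  have e4 : x * N / D - (x * N / D)⁻¹ = (x ^ 2 * N ^ 2 - D ^ 2) / (x * N * D) := by
    field_simp
  rw [e4, div_eq_div_iff (mul_ne_zero (mul_ne_zero hN hη) hD) (mul_ne_zero (mul_ne_zero hx hN) hD)]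
  apply mul_left_cancel₀ h2
  linear_combination (M * ((1 + η) * N + 2 * η * D) * N * D) * hs + (η * N * D) * key

/-- one step of the comparison -/
theorem ph_sub (h2 : (2 : K) ≠ 0) (hi : i ≠ 0) {w w' : K} (hw : w ≠ 0) (hw' : w' ≠ 0) :
    ph i w - ph i w' = (w - w') * ((1 + (w * w')⁻¹) / (2 * i)) := by
  rw [ph, ph]
  field_simp
  ring

/-- the final evaluation -/
theorem z_identity (xb δ B W M1 xm η η' T ρ1 ρ s : K)
    (hδ : δ = xb - i) (hδ0 : δ ≠ 0) (hxi : xb + i ≠ 0) (hxm : xm + i ≠ 0) (hM1 : M1 ≠ 0)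
    (hη : η = ((xb - i) / (xb + i)) ^ 2) (hρ : ρ = 1 + η * ρ1) (hT : T = η + (1 + η) * ρ)
    (hT0 : T ≠ 0) (hη' : η' = η / T) (hs : s = δ * B) (hW : xm - xb = W * s ^ 2)
    (hM : M1 = 1 + W * B ^ 2 * δ) :
    (η' - ((xm - i) / (xm + i)) ^ 2) / (xm - i) ^ 3 =
      (-(δ * ((2 + (1 + η) * ρ1) / T) / (xb + i) ^ 4) -
        2 * i * W * B ^ 2 * (M1 / (xm + i) + 1 / (xb + i)) / ((xm + i) * (xb + i))) / M1 ^ 3 := by
  have h1 : xm - i = δ * M1 := by
    rw [hM]
    linear_combination hW + (W * (s + δ * B)) * hs - hδ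
  have h2 : η' - η = -(η ^ 2 * ((2 + (1 + η) * ρ1) / T)) := by
    rw [hη']
    field_simp
    rw [hT, hρ]
    ring
  have h3 : η = δ ^ 2 / (xb + i) ^ 2 := by
    rw [hη, ← hδ, div_pow]
  have h4 : ((xm - i) / (xm + i)) ^ 2 - η =
      2 * i * (W * s ^ 2) / ((xm + i) * (xb + i)) * (δ * M1 / (xm + i) + δ / (xb + i)) := by
    rw [← hW, ← h1, hδ, hη]
    field_simp
    ring
  have h5 : η' - ((xm - i) / (xm + i)) ^ 2 = -(η ^ 2 * ((2 + (1 + η) * ρ1) / T)) -
      2 * i * (W * s ^ 2) / ((xm + i) * (xb + i)) * (δ * M1 / (xm + i) + δ / (xb + i)) := by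
    linear_combination h2 - h4
  rw [h5, h1]
  have h6 : η ^ 2 = δ ^ 4 / (xb + i) ^ 4 := by
    rw [h3, div_pow]
    ring
  rw [h6, hs]
  field_simp

theorem s_identity (hi : i ^ 2 = -1) (h2 : (2 : K) ≠ 0) (hc : 2 * i * c ^ 2 = 1) {x : K}
    (hx : x ≠ 0) (h1 : x - i ≠ 0) (h1' : x + i ≠ 0) :
    (c / 2 * (x + x⁻¹)) ^ 2 * ((((x - i) / (x + i)) ^ 2)⁻¹ - ((x - i) / (x + i)) ^ 2) =
      x - x⁻¹ := by
  have hi0 : i ≠ 0 := by
    rintro rfl
    simp at hi
  have hc' : c ^ 2 = 1 / (2 * i) := by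
    field_simp
    linear_combination hc
  have h4 : (4 : K) ≠ 0 := by
    have : (4 : K) = 2 * 2 := by norm_num
    rw [this]
    exact mul_ne_zero h2 h2
  have e1 : (c / 2 * (x + x⁻¹)) ^ 2 = c ^ 2 / 4 * ((x - i) * (x + i)) ^ 2 / x ^ 2 := by
    have : (x - i) * (x + i) = x ^ 2 + 1 := by linear_combination -hi
    rw [this]
    field_simp
    ring
  have e2 : (((x - i) / (x + i)) ^ 2)⁻¹ - ((x - i) / (x + i)) ^ 2 =
      (8 * i * x * (x ^ 2 - 1)) / ((x - i) * (x + i)) ^ 2 := by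
    field_simp
    linear_combination (8 * i * x) * hi
  rw [e1, e2, hc']
  field_simp
  ring

end Field

/-! ## The orbit of a complex number -/

theorem phi_zero : phi 0 = 0 := by simp [phi]

theorem iterate_phi_zero (n : ℕ) : phi^[n] 0 = 0 := by
  induction n with
  | zero => rfl
  | succ n ih => rw [Function.iterate_succ_apply, phi_zero, ih]

theorem orbit_ne_zero {k : ℕ} {w : ℂ} (h : phi^[k] w = Complex.I) : w ≠ 0 := by
  rintro rfl
  rw [iterate_phi_zero] at h
  exact Complex.I_ne_zero h.symm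

theorem orbit_sq_ne_one {k : ℕ} {w : ℂ} (h : phi^[k] w = Complex.I) : w ^ 2 - 1 ≠ 0 := by
  intro h1
  have hw : w ≠ 0 := orbit_ne_zero h
  rcases k with _ | k
  · simp only [Function.iterate_zero, id_eq] at h
    rw [h, Complex.I_sq] at h1
    norm_num at h1
  · have h2 : phi w = 0 := by
      rw [phi]
      have : w - w⁻¹ = 0 := by
        field_simp
        linear_combination h1
      rw [this, zero_div]
    rw [Function.iterate_succ_apply, h2, iterate_phi_zero] at h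
    exact Complex.I_ne_zero h.symm

theorem orbit_sq_ne_neg_one {k : ℕ} {w : ℂ} (h : phi^[k + 1] w = Complex.I) : w ^ 2 + 1 ≠ 0 := by
  intro h1
  have hw : w ≠ 0 := orbit_ne_zero h
  rw [Function.iterate_succ_apply] at h
  apply orbit_sq_ne_one h
  have h2 : w - w⁻¹ = 2 * w := by
    field_simp
    linear_combination -h1
  rw [phi, h2]
  have h3 : (2 * w / (2 * Complex.I)) ^ 2 = w ^ 2 / Complex.I ^ 2 := by
    rw [mul_div_mul_left _ _ (two_ne_zero), div_pow]
  rw [h3, Complex.I_sq]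
  linear_combination -h1

/-! ## Values -/

/-- the constant `I` -/
noncomputable abbrev iK : RatFunc ℂ := RatFunc.C Complex.I

/-- the constant `(1 - I) / 2` -/
noncomputable abbrev cC : ℂ := (1 - Complex.I) / 2

/-- the constant `(1 - I) / 2` -/
noncomputable abbrev cK : RatFunc ℂ := RatFunc.C cC

theorem iK_sq : iK ^ 2 = -1 := by
  rw [← map_pow, Complex.I_sq, map_neg, map_one]

theorem cC_sq : 2 * Complex.I * cC ^ 2 = 1 := by
  have := Complex.I_sq
  simp only [cC]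
  linear_combination (-1 + Complex.I / 2) * this

theorem cK_sq : 2 * iK * cK ^ 2 = 1 := by
  have h := congrArg (RatFunc.C (K := ℂ)) cC_sq
  simpa only [map_mul, map_pow, map_ofNat, map_one] using h

theorem val_I (a : ℂ) : HasVal a iK Complex.I := HasVal.C a _

theorem val_two (a : ℂ) : HasVal a 2 2 := by
  have h := HasVal.C a 2
  have e : (RatFunc.C (2 : ℂ)) = 2 := map_ofNat _ 2
  rwa [e] at h

theorem val_ph {a : ℂ} {w : RatFunc ℂ} {v : ℂ} (h : HasVal a w v) (hv : v ≠ 0) :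
    HasVal a (ph iK w) (phi v) :=
  (h.sub (h.inv hv)).div ((val_two a).mul (val_I a))
    (mul_ne_zero two_ne_zero Complex.I_ne_zero)

theorem val_lam {a : ℂ} {w : RatFunc ℂ} {v : ℂ} (h : HasVal a w v) (hv : v ^ 2 - 1 ≠ 0) :
    HasVal a (lam cK w) (lam cC v) :=
  ((HasVal.C a cC).mul ((h.pow 2).add (HasVal.one a))).div ((h.pow 2).sub (HasVal.one a)) hv

theorem cC_ne_zero : cC ≠ 0 := by
  intro h
  have := cC_sq
  rw [h] at this
  simp at this

theorem lam_ne_zero {v : ℂ} (h1 : v ^ 2 - 1 ≠ 0) (h2 : v ^ 2 + 1 ≠ 0) : lam cC v ≠ 0 :=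
  div_ne_zero (mul_ne_zero cC_ne_zero h2) h1

/-! ## The sequences -/

/-- iterates of the Lattes map, applied to the variable -/
noncomputable def xbar (j : ℕ) : RatFunc ℂ := (ph iK)^[j] RatFunc.X

theorem xbar_zero : xbar 0 = RatFunc.X := rfl

theorem xbar_succ (j : ℕ) : xbar (j + 1) = ph iK (xbar j) := Function.iterate_succ_apply' _ _ _

/-- the product of the factors `lam` along an orbit -/
noncomputable def Lam (f : ℕ → RatFunc ℂ) (j : ℕ) : RatFunc ℂ :=
  ∏ l ∈ Finset.range j, lam cK (f l)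

theorem Lam_succ (f : ℕ → RatFunc ℂ) (j : ℕ) : Lam f (j + 1) = Lam f j * lam cK (f j) :=
  Finset.prod_range_succ _ _

theorem Lam_zero (f : ℕ → RatFunc ℂ) : Lam f 0 = 1 := Finset.prod_range_zero _

/-- A point `a` of the orbit: `phi^[m] a = I`. -/
theorem iterate_split {m : ℕ} {a : ℂ} (h : phi^[m] a = Complex.I) {j : ℕ} (hj : j ≤ m) :
    phi^[m - j] (phi^[j] a) = Complex.I := by
  rw [← Function.iterate_add_apply, Nat.sub_add_cancel hj, h]

theorem iterate_split' {m : ℕ} {a : ℂ} (h : phi^[m] a = Complex.I) {j : ℕ} (hj : j < m) :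
    phi^[(m - j - 1) + 1] (phi^[j] a) = Complex.I := by
  have : m - j - 1 + 1 = m - j := by omega
  rw [this]
  exact iterate_split h hj.le

theorem val_xbar {m : ℕ} {a : ℂ} (h : phi^[m] a = Complex.I) :
    ∀ j ≤ m, HasVal a (xbar j) (phi^[j] a) := by
  intro j
  induction j with
  | zero => intro _; exact HasVal.X a
  | succ j ih =>
    intro hj
    rw [xbar_succ, Function.iterate_succ_apply']
    exact val_ph (ih (by omega)) (orbit_ne_zero (iterate_split h (by omega : j ≤ m)))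

/-- the value of `Lam` along an orbit -/
theorem val_Lam {m : ℕ} {a : ℂ} (h : phi^[m] a = Complex.I) (f : ℕ → RatFunc ℂ)
    (hf : ∀ j ≤ m, HasVal a (f j) (phi^[j] a)) :
    ∀ j ≤ m, ∃ v : ℂ, v ≠ 0 ∧ HasVal a (Lam f j) v := by
  intro j
  induction j with
  | zero => intro _; exact ⟨1, one_ne_zero, by rw [Lam_zero]; exact HasVal.one a⟩
  | succ j ih =>
    intro hj
    obtain ⟨v, hv, h1⟩ := ih (by omega)
    have h2 := orbit_sq_ne_one (iterate_split h (by omega : j ≤ m))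
    have h3 := orbit_sq_ne_neg_one (iterate_split' h (by omega : j < m))
    refine ⟨v * lam cC (phi^[j] a), mul_ne_zero hv (lam_ne_zero h2 h3), ?_⟩
    rw [Lam_succ]
    exact h1.mul (val_lam (hf j (by omega)) h2)

/-- `xbar m` is not the constant `I`. -/
theorem xbar_ne (m : ℕ) : xbar m - iK ≠ 0 := by
  obtain ⟨b, hb⟩ := IsAlgClosed.exists_pow_nat_eq (1 / (1 - 2 * Complex.I) : ℂ) (n := 2) (by norm_num)
  have h1 : (1 - 2 * Complex.I : ℂ) ≠ 0 := by
    intro h
    have := congrArg Complex.re h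
    simp at this
  have hb0 : b ≠ 0 := by
    rintro rfl
    rw [zero_pow two_ne_zero] at hb
    exact (one_div_ne_zero h1) hb.symm
  have hb1 : b ^ 2 * (1 - 2 * Complex.I) = 1 := by
    rw [hb]
    field_simp
  have hphi : phi b = b := by
    have hI := Complex.I_ne_zero
    rw [phi]
    field_simp
    linear_combination hb1
  have hval : ∀ j, HasVal b (xbar j) b := by
    intro j
    induction j with
    | zero => exact HasVal.X b
    | succ j ih =>
      rw [xbar_succ]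
      have := val_ph ih hb0
      rwa [hphi] at this
  intro h0
  have h2 : HasVal b (xbar m - iK) (b - Complex.I) := (hval m).sub (val_I b)
  rw [h0] at h2
  have h3 : b - Complex.I = 0 := h2.unique (HasVal.zero b)
  have h4 : b = Complex.I := sub_eq_zero.mp h3
  rw [h4, Complex.I_sq] at hb1
  have := congrArg Complex.re hb1
  norm_num at this

/-- the coordinate `1/y` of the linear curve -/
noncomputable def eta (m : ℕ) : RatFunc ℂ := ((xbar m - iK) / (xbar m + iK)) ^ 2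

/-- the coordinate `s` of the image of the linear curve under `f^m` -/
noncomputable def sm (m : ℕ) : RatFunc ℂ := cK / 2 * (xbar m + (xbar m)⁻¹)

/-- the coordinate `s` of the linear curve, after `j` steps -/
noncomputable def sb (m j : ℕ) : RatFunc ℂ := sm m * Lam xbar j / Lam xbar m

/-- the numerator, the denominator of rho, rho and `T` -/
noncomputable def NN (m : ℕ) : RatFunc ℂ := gN RatFunc.X (eta m)
noncomputable def DD (m : ℕ) : RatFunc ℂ := gD RatFunc.X (eta m)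
noncomputable def rho (m : ℕ) : RatFunc ℂ := NN m / DD m
noncomputable def TT (m : ℕ) : RatFunc ℂ := eta m + (1 + eta m) * rho m
noncomputable def rho1 (m : ℕ) : RatFunc ℂ := 3 * (1 + eta m) * (RatFunc.X ^ 2 - 1) / DD m

/-- the coordinate `1/y` of the curve -/
noncomputable def etaP (m : ℕ) : RatFunc ℂ := eta m / TT m

/-- the coordinate `x` after `j` steps -/
noncomputable def xs (m j : ℕ) : RatFunc ℂ := (ph iK)^[j] (RatFunc.X * rho m)

theorem xs_succ (m j : ℕ) : xs m (j + 1) = ph iK (xs m j) := Function.iterate_succ_apply' _ _ _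

/-- the coordinate `s` after `j` steps -/
noncomputable def ss (m j : ℕ) : RatFunc ℂ :=
  sb m 0 * ((1 + eta m) + eta m / rho m) * Lam (xs m) j

/-- the difference quotient -/
noncomputable def WW (m : ℕ) : ℕ → RatFunc ℂ
  | 0 => RatFunc.X * rho1 m * (1 - eta m ^ 2) / (RatFunc.X - RatFunc.X⁻¹)
  | j + 1 => WW m j * ((1 + (xs m j * xbar j)⁻¹) / (2 * iK)) / lam cK (xbar j) ^ 2

section Local

variable {m : ℕ} {a : ℂ} (h : phi^[m] a = Complex.I)

include h

theorem val_eta : HasVal a (eta m) 0 := by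
  have h1 := val_xbar h m le_rfl
  rw [h] at h1
  have h2 := ((h1.sub (val_I a)).div (h1.add (val_I a))
    (by rw [← two_mul]; exact mul_ne_zero two_ne_zero Complex.I_ne_zero)).pow 2
  exact h2.congr_val (by simp)

theorem val_sm : HasVal a (sm m) 0 := by
  have h1 := val_xbar h m le_rfl
  rw [h] at h1
  have h2 := ((HasVal.C a cC).div (val_two a) two_ne_zero).mul (h1.add (h1.inv Complex.I_ne_zero))
  exact h2.congr_val (by simp)

theorem val_sb {j : ℕ} (hj : j ≤ m) : HasVal a (sb m j) 0 := by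
  obtain ⟨v, hv, h1⟩ := val_Lam h xbar (val_xbar h) m le_rfl
  obtain ⟨w, hw, h2⟩ := val_Lam h xbar (val_xbar h) j hj
  exact (((val_sm h).mul h2).div h1 hv).congr_val (by simp)

theorem val_NN : HasVal a (NN m) 1 := by
  have h0 := val_eta h
  have h1 := ((((val_two a).mul ((HasVal.X a).pow 2)).mul (h0.pow 2)).add
    (((HasVal.one a).add h0).mul ((HasVal.one a).sub ((val_two a).mul h0))))
  exact h1.congr_val (by simp)

omit h in
theorem val_three : HasVal a 3 3 := by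
  have h := HasVal.C a 3
  have e : (RatFunc.C (3 : ℂ)) = 3 := map_ofNat _ 3
  rwa [e] at h

theorem val_DD : HasVal a (DD m) 1 := by
  have h0 := val_eta h
  have h1 := ((((HasVal.one a).add h0).pow 2).sub
    ((val_three.mul h0).add (h0.pow 2) |>.mul ((HasVal.X a).pow 2)))
  exact h1.congr_val (by simp)

theorem val_rho : HasVal a (rho m) 1 :=
  ((val_NN h).div (val_DD h) one_ne_zero).congr_val (by simp)

theorem val_TT : HasVal a (TT m) 1 := by
  have h0 := val_eta h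
  exact (h0.add (((HasVal.one a).add h0).mul (val_rho h))).congr_val (by simp)

theorem val_rho1 : HasVal a (rho1 m) (3 * (a ^ 2 - 1)) := by
  have h0 := val_eta h
  have h1 := (((val_three.mul ((HasVal.one a).add h0))).mul
    (((HasVal.X a).pow 2).sub (HasVal.one a))).div (val_DD h) one_ne_zero
  exact h1.congr_val (by simp)

theorem eta_ne_zero : eta m ≠ 0 := by
  have h1 := val_xbar h m le_rfl
  rw [h] at h1
  refine pow_ne_zero 2 (div_ne_zero (xbar_ne m) ?_)
  exact (h1.add (val_I a)).ne_zero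
    (by rw [← two_mul]; exact mul_ne_zero two_ne_zero Complex.I_ne_zero)

theorem one_sub_eta_sq_ne_zero : 1 - eta m ^ 2 ≠ 0 := by
  have h0 := val_eta h
  exact ((HasVal.one a).sub (h0.pow 2)).ne_zero (by simp)

theorem xbar_add_ne_zero : xbar m + iK ≠ 0 := by
  have h1 := val_xbar h m le_rfl
  rw [h] at h1
  exact (h1.add (val_I a)).ne_zero
    (by rw [← two_mul]; exact mul_ne_zero two_ne_zero Complex.I_ne_zero)

theorem xbar_ne_zero {j : ℕ} (hj : j ≤ m) : xbar j ≠ 0 :=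
  (val_xbar h j hj).ne_zero (orbit_ne_zero (iterate_split h hj))

theorem xbar_sq_ne {j : ℕ} (hj : j ≤ m) : xbar j ^ 2 - 1 ≠ 0 :=
  (((val_xbar h j hj).pow 2).sub (HasVal.one a)).ne_zero (orbit_sq_ne_one (iterate_split h hj))

theorem Lam_ne_zero : Lam xbar m ≠ 0 := by
  obtain ⟨v, hv, h1⟩ := val_Lam h xbar (val_xbar h) m le_rfl
  exact h1.ne_zero hv

theorem lam_xbar_ne_zero {j : ℕ} (hj : j < m) : lam cK (xbar j) ≠ 0 :=
  (val_lam (val_xbar h j hj.le) (orbit_sq_ne_one (iterate_split h hj.le))).ne_zero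
    (lam_ne_zero (orbit_sq_ne_one (iterate_split h hj.le))
      (orbit_sq_ne_neg_one (iterate_split' h hj)))

theorem sm_ne_zero : sm m ≠ 0 := by
  have hx := xbar_ne_zero h le_rfl
  have e : sm m = cK / 2 * ((xbar m - iK) * (xbar m + iK)) / xbar m := by
    have : (xbar m - iK) * (xbar m + iK) = xbar m ^ 2 + 1 := by linear_combination -iK_sq
    rw [this, sm]
    field_simp
  rw [e]
  have hc : cK ≠ 0 := (HasVal.C a cC).ne_zero cC_ne_zero
  exact div_ne_zero (mul_ne_zero (div_ne_zero hc two_ne_zero)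
    (mul_ne_zero (xbar_ne m) (xbar_add_ne_zero h))) hx

theorem sb_zero_ne_zero : sb m 0 ≠ 0 := by
  rw [sb, Lam_zero, mul_one]
  exact div_ne_zero (sm_ne_zero h) (Lam_ne_zero h)

omit h in
theorem sb_succ (j : ℕ) : sb m (j + 1) = sb m j * lam cK (xbar j) := by
  rw [sb, sb, Lam_succ]
  ring

theorem sb_self : sb m m = sm m := by
  rw [sb]
  field_simp [Lam_ne_zero h]

theorem xbar_identity : ∀ j ≤ m, xbar j - (xbar j)⁻¹ =
    Lam xbar j ^ 2 * (RatFunc.X - (RatFunc.X)⁻¹) := by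
  intro j
  induction j with
  | zero => intro _; rw [xbar_zero, Lam_zero]; ring
  | succ j ih =>
    intro hj
    rw [xbar_succ, lam_identity iK_sq two_ne_zero cK_sq (xbar_ne_zero h (by omega))
      (xbar_sq_ne h (by omega)), ih (by omega), Lam_succ]
    ring

theorem sb_identity : sb m 0 ^ 2 * ((eta m)⁻¹ - eta m) = RatFunc.X - (RatFunc.X)⁻¹ := by
  have h1 := s_identity iK_sq two_ne_zero cK_sq (xbar_ne_zero h le_rfl) (xbar_ne m)
    (xbar_add_ne_zero h)
  have h2 := xbar_identity h m le_rfl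
  have hL := Lam_ne_zero h
  have h3 : sm m ^ 2 * ((eta m)⁻¹ - eta m) = Lam xbar m ^ 2 * (RatFunc.X - (RatFunc.X)⁻¹) := by
    rw [← h2, ← h1]
    rfl
  have h4 : sb m 0 ^ 2 * ((eta m)⁻¹ - eta m) =
      (sm m ^ 2 * ((eta m)⁻¹ - eta m)) / Lam xbar m ^ 2 := by
    rw [sb, Lam_zero, mul_one, div_pow]
    ring
  rw [h4, h3]
  field_simp

theorem X_sub_inv_ne_zero : (RatFunc.X : RatFunc ℂ) - RatFunc.X⁻¹ ≠ 0 := by
  have ha := orbit_ne_zero h
  have h1 := (HasVal.X a).sub ((HasVal.X a).inv ha)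
  refine h1.ne_zero ?_
  intro h0
  apply orbit_sq_ne_one h
  field_simp at h0
  linear_combination h0

theorem rho_eq : rho m = 1 + eta m * rho1 m := by
  have hD : DD m ≠ 0 := (val_DD h).ne_zero one_ne_zero
  have : DD m * rho m = DD m * (1 + eta m * rho1 m) := by
    rw [rho, rho1]
    have e : NN m = DD m + eta m * (3 * (1 + eta m) * (RatFunc.X ^ 2 - 1)) := by
      rw [NN, DD, gN, gD]
      ring
    field_simp
    rw [e]
    ring
  exact mul_left_cancel₀ hD this

end Local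

theorem step_identity {w ξ : ℂ} (hξ : ξ ≠ 0) (h1 : ξ ^ 2 - 1 ≠ 0) (h2 : ξ ^ 2 + 1 ≠ 0) :
    (w * ((1 + (ξ * ξ)⁻¹) / (2 * Complex.I)) / lam cC ξ ^ 2) ^ 2 *
      ((phi ξ ^ 2 - 1) / phi ξ ^ 3) * cC ^ 2 = w ^ 2 * ((ξ ^ 2 - 1) / ξ ^ 3) := by
  have hI := Complex.I_ne_zero
  have hI2 := Complex.I_sq
  have hc : cC ^ 2 = 1 / (2 * Complex.I) := by
    rw [eq_div_iff (mul_ne_zero two_ne_zero hI)]
    linear_combination cC_sq
  have hc0 := cC_ne_zero
  have e1 : phi ξ = (ξ ^ 2 - 1) / (2 * Complex.I * ξ) := by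
    rw [phi]
    field_simp
  have hphi : phi ξ ≠ 0 := by
    rw [e1]
    exact div_ne_zero h1 (mul_ne_zero (mul_ne_zero two_ne_zero hI) hξ)
  have h3 : phi ξ - (phi ξ)⁻¹ = lam cC ξ ^ 2 * (ξ - ξ⁻¹) :=
    lam_identity hI2 two_ne_zero cC_sq hξ h1
  have hlam : lam cC ξ ≠ 0 := lam_ne_zero h1 h2
  have e2 : (phi ξ ^ 2 - 1) / phi ξ ^ 3 = lam cC ξ ^ 2 * (ξ - ξ⁻¹) / phi ξ ^ 2 := by
    rw [← h3]
    field_simp
  have e3 : lam cC ξ ^ 2 = 1 / (2 * Complex.I) * (ξ ^ 2 + 1) ^ 2 / (ξ ^ 2 - 1) ^ 2 := by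
    rw [lam, div_pow, mul_pow, hc]
  rw [e2]
  have e4 : (w * ((1 + (ξ * ξ)⁻¹) / (2 * Complex.I)) / lam cC ξ ^ 2) ^ 2 *
      (lam cC ξ ^ 2 * (ξ - ξ⁻¹) / phi ξ ^ 2) * cC ^ 2 =
      (w * ((1 + (ξ * ξ)⁻¹) / (2 * Complex.I))) ^ 2 / lam cC ξ ^ 2 * (ξ - ξ⁻¹) / phi ξ ^ 2 *
        cC ^ 2 := by
    field_simp
  rw [e4, e3, e1, hc]
  field_simp

theorem WW_succ (m j : ℕ) : WW m (j + 1) =
    WW m j * ((1 + (xs m j * xbar j)⁻¹) / (2 * iK)) / lam cK (xbar j) ^ 2 := rfl

theorem main_local {m : ℕ} {a : ℂ} (h : phi^[m] a = Complex.I) : ∀ j ≤ m, ∃ w : ℂ,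
    HasVal a (WW m j) w ∧ HasVal a (xs m j) (phi^[j] a) ∧
    xs m j - xbar j = WW m j * sb m j ^ 2 ∧
    w ^ 2 * (((phi^[j] a) ^ 2 - 1) / (phi^[j] a) ^ 3) * cC ^ (2 * j) = 9 * (a ^ 3 - a) := by
  intro j
  induction j with
  | zero =>
    intro _
    have ha := orbit_ne_zero h
    have ha1 := orbit_sq_ne_one h
    have hx : a - a⁻¹ ≠ 0 := by
      intro h0
      apply ha1
      field_simp at h0
      linear_combination h0
    refine ⟨3 * a ^ 2, ?_, ?_, ?_, ?_⟩
    · have h0 := val_eta h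
      have h1 := (((HasVal.X a).mul (val_rho1 h)).mul ((HasVal.one a).sub (h0.pow 2))).div
        ((HasVal.X a).sub ((HasVal.X a).inv ha)) hx
      refine h1.congr_val ?_
      field_simp
      ring
    · exact ((HasVal.X a).mul (val_rho h)).congr_val (by simp)
    · have hη := eta_ne_zero h
      have hη1 := one_sub_eta_sq_ne_zero h
      have hX := X_sub_inv_ne_zero h
      have hid := sb_identity h
      have e1 : xs m 0 - xbar 0 = RatFunc.X * (eta m * rho1 m) := by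
        have : xs m 0 = RatFunc.X * rho m := rfl
        rw [this, xbar_zero, rho_eq h]
        ring
      have e2 : WW m 0 = RatFunc.X * rho1 m * (1 - eta m ^ 2) / (RatFunc.X - RatFunc.X⁻¹) := rfl
      rw [e1, e2]
      have e3 : sb m 0 ^ 2 * (1 - eta m ^ 2) = (RatFunc.X - (RatFunc.X)⁻¹) * eta m := by
        rw [← hid]
        field_simp
      rw [div_mul_eq_mul_div, eq_div_iff hX]
      linear_combination (-(RatFunc.X * rho1 m)) * e3
    · simp only [Function.iterate_zero, id_eq, mul_zero, pow_zero]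
      field_simp
      ring
  | succ j ih =>
    intro hj
    obtain ⟨w, h1, h2, h3, h4⟩ := ih (by omega)
    have hjm : j ≤ m := by omega
    have hξ := orbit_ne_zero (iterate_split h hjm)
    have hξ1 := orbit_sq_ne_one (iterate_split h hjm)
    have hξ2 := orbit_sq_ne_neg_one (iterate_split' h (by omega : j < m))
    have hxs : xs m j ≠ 0 := h2.ne_zero hξ
    have hxb := xbar_ne_zero h hjm
    have hlam := lam_xbar_ne_zero h (by omega : j < m)
    have hv := val_xbar h j hjm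
    refine ⟨w * ((1 + ((phi^[j] a) * (phi^[j] a))⁻¹) / (2 * Complex.I)) /
      lam cC (phi^[j] a) ^ 2, ?_, ?_, ?_, ?_⟩
    · rw [WW_succ]
      exact (h1.mul (((HasVal.one a).add ((h2.mul hv).inv (mul_ne_zero hξ hξ))).div
        ((val_two a).mul (val_I a)) (mul_ne_zero two_ne_zero Complex.I_ne_zero))).div
        ((val_lam hv hξ1).pow 2) (pow_ne_zero 2 (lam_ne_zero hξ1 hξ2))
    · rw [xs_succ, Function.iterate_succ_apply']
      exact val_ph h2 hξ
    · have hiK : iK ≠ 0 := (val_I a).ne_zero Complex.I_ne_zero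
      rw [xs_succ, xbar_succ, ph_sub two_ne_zero hiK hxs hxb, h3, WW_succ, sb_succ]
      field_simp
    · rw [Function.iterate_succ_apply', ← h4, ← step_identity (w := w) hξ hξ1 hξ2]
      ring

theorem phi_iter_div {m : ℕ} {a : ℂ} (h : phi^[m] a = Complex.I) {w : ℂ}
    (h4 : w ^ 2 * (((phi^[m] a) ^ 2 - 1) / (phi^[m] a) ^ 3) * cC ^ (2 * m) = 9 * (a ^ 3 - a)) :
    (w * cC ^ 2 / 2) ^ 2 = (9 * cC ^ 4 / (4 * ((Complex.I ^ 2 - 1) / Complex.I ^ 3 *
      cC ^ (2 * m)))) * (a ^ 3 - a) := by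
  rw [h] at h4
  have hI := Complex.I_ne_zero
  have hI1 : Complex.I ^ 2 - 1 ≠ 0 := by
    rw [Complex.I_sq]
    norm_num
  have hc := cC_ne_zero
  have hk : (Complex.I ^ 2 - 1) / Complex.I ^ 3 * cC ^ (2 * m) ≠ 0 :=
    mul_ne_zero (div_ne_zero hI1 (pow_ne_zero 3 hI)) (pow_ne_zero _ hc)
  rw [div_mul_eq_mul_div, eq_div_iff (mul_ne_zero (by norm_num) hk)]
  linear_combination cC ^ 4 * h4

theorem kappa_ne_zero (m : ℕ) : 9 * cC ^ 4 / (4 * ((Complex.I ^ 2 - 1) / Complex.I ^ 3 *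
      cC ^ (2 * m))) ≠ 0 := by
  have hI := Complex.I_ne_zero
  have hI1 : Complex.I ^ 2 - 1 ≠ 0 := by
    rw [Complex.I_sq]
    norm_num
  have hc := cC_ne_zero
  exact div_ne_zero (mul_ne_zero (by norm_num) (pow_ne_zero 4 hc)) (mul_ne_zero (by norm_num)
    (mul_ne_zero (div_ne_zero hI1 (pow_ne_zero 3 hI)) (pow_ne_zero _ hc)))

/-- the function which separates the branches -/
noncomputable def zz (m : ℕ) : RatFunc ℂ :=
  (etaP m - ((xs m m - iK) / (xs m m + iK)) ^ 2) / (xs m m - iK) ^ 3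

theorem val_zz {m : ℕ} {a : ℂ} (h : phi^[m] a = Complex.I) : ∃ ζ : ℂ, HasVal a (zz m) ζ ∧
    ζ ^ 2 = (9 * cC ^ 4 / (4 * ((Complex.I ^ 2 - 1) / Complex.I ^ 3 * cC ^ (2 * m)))) *
      (a ^ 3 - a) := by
  obtain ⟨w, h1, h2, h3, h4⟩ := main_local h m le_rfl
  refine ⟨w * cC ^ 2 / 2, ?_, phi_iter_div h h4⟩
  have hI := Complex.I_ne_zero
  have h2I : Complex.I + Complex.I ≠ 0 := by
    rw [← two_mul]
    exact mul_ne_zero two_ne_zero hI
  rw [h] at h2
  have hxb := val_xbar h m le_rfl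
  rw [h] at hxb
  have hxb0 := xbar_ne_zero h (le_refl m)
  set B : RatFunc ℂ := cK / 2 * ((xbar m + iK) / xbar m) with hB
  set δ : RatFunc ℂ := xbar m - iK with hδ
  have vB : HasVal a B cC := by
    have := ((HasVal.C a cC).div (val_two a) two_ne_zero).mul ((hxb.add (val_I a)).div hxb hI)
    refine this.congr_val ?_
    field_simp
    ring
  have vδ : HasVal a δ 0 := (hxb.sub (val_I a)).congr_val (by simp)
  set M1 : RatFunc ℂ := 1 + WW m m * B ^ 2 * δ with hM1
  have vM1 : HasVal a M1 1 :=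
    ((HasVal.one a).add ((h1.mul (vB.pow 2)).mul vδ)).congr_val (by simp)
  have hs : sm m = δ * B := by
    have : δ * (xbar m + iK) = xbar m ^ 2 + 1 := by
      rw [hδ]
      linear_combination -iK_sq
    rw [sm, hB]
    have e : δ * (cK / 2 * ((xbar m + iK) / xbar m)) =
        cK / 2 * ((δ * (xbar m + iK)) / xbar m) := by ring
    rw [e, this]
    field_simp
  have hW : xs m m - xbar m = WW m m * (sm m) ^ 2 := by
    rw [h3, sb_self h]
  have hxi := xbar_add_ne_zero h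
  have hxm : xs m m + iK ≠ 0 := (h2.add (val_I a)).ne_zero h2I
  have hT := val_TT h
  have key := z_identity (i := iK) (xbar m) δ B (WW m m) M1 (xs m m) (eta m) (etaP m) (TT m)
    (rho1 m) (rho m) (sm m) hδ (xbar_ne m) hxi hxm (vM1.ne_zero one_ne_zero) rfl (rho_eq h) rfl
    (hT.ne_zero one_ne_zero) rfl hs hW hM1
  rw [zz, key]
  have v1 := (vδ.mul (((val_two a).add (((HasVal.one a).add (val_eta h)).mul (val_rho1 h))).div hT
    one_ne_zero)).div ((hxb.add (val_I a)).pow 4) (pow_ne_zero 4 h2I)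
  have v2 := ((((val_two a).mul (val_I a)).mul h1).mul (vB.pow 2)).mul
    ((vM1.div (h2.add (val_I a)) h2I).add ((HasVal.one a).div (hxb.add (val_I a)) h2I))
  have v3 := v2.div ((h2.add (val_I a)).mul (hxb.add (val_I a))) (mul_ne_zero h2I h2I)
  have v4 := (v1.neg.sub v3).div (vM1.pow 3) (by norm_num)
  refine v4.congr_val ?_
  have hI2 := Complex.I_sq
  have e1 : (Complex.I + Complex.I) * (Complex.I + Complex.I) = -4 := by
    linear_combination 4 * hI2
  have e2 : 1 / (Complex.I + Complex.I) + 1 / (Complex.I + Complex.I) = 1 / Complex.I := by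
    rw [← two_mul Complex.I]
    field_simp
    norm_num
  rw [e1, e2]
  generalize cC = c
  have e3 : 2 * Complex.I * w * c ^ 2 * (1 / Complex.I) = 2 * w * c ^ 2 := by
    field_simp
  rw [e3]
  ring

theorem ss_identity {m : ℕ} {a : ℂ} (h : phi^[m] a = Complex.I) : ∀ j ≤ m,
    ss m j ^ 2 * ((etaP m)⁻¹ - etaP m) = xs m j - (xs m j)⁻¹ := by
  intro j
  induction j with
  | zero =>
    intro _
    have hN : NN m ≠ 0 := (val_NN h).ne_zero one_ne_zero
    have hD : DD m ≠ 0 := (val_DD h).ne_zero one_ne_zero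
    have hX : (RatFunc.X : RatFunc ℂ) ≠ 0 := RatFunc.X_ne_zero
    have hT : TT m ≠ 0 := (val_TT h).ne_zero one_ne_zero
    have hM : eta m * DD m + (1 + eta m) * NN m = TT m * DD m := by
      rw [TT, rho]
      field_simp
    have hM0 : eta m * DD m + (1 + eta m) * NN m ≠ 0 := by
      rw [hM]
      exact mul_ne_zero hT hD
    have key := g_identity RatFunc.X (eta m) (sb m 0) hX (eta_ne_zero h)
      (one_sub_eta_sq_ne_zero h) hN hD hM0 (sb_identity h)
    have e1 : ss m 0 = sb m 0 * ((1 + eta m) + eta m * DD m / NN m) := by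
      rw [ss, Lam_zero, mul_one, rho]
      congr 2
      field_simp
    have e2 : etaP m = eta m * DD m / (eta m * DD m + (1 + eta m) * NN m) := by
      rw [hM, etaP]
      field_simp
    have e3 : xs m 0 = RatFunc.X * NN m / DD m := by
      have : xs m 0 = RatFunc.X * rho m := rfl
      rw [this, rho]
      ring
    rw [e1, e2, e3]
    exact key
  | succ j ih =>
    intro hj
    obtain ⟨w, h1, h2, h3, h4⟩ := main_local h j (by omega)
    have hξ := orbit_ne_zero (iterate_split h (by omega : j ≤ m))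
    have hξ1 := orbit_sq_ne_one (iterate_split h (by omega : j ≤ m))
    have e : ss m (j + 1) = ss m j * lam cK (xs m j) := by
      rw [ss, ss, Lam_succ]
      ring
    rw [e, xs_succ, lam_identity iK_sq two_ne_zero cK_sq (h2.ne_zero hξ)
      (((h2.pow 2).sub (HasVal.one a)).ne_zero hξ1), ← ih (by omega)]
    ring

end Curves

open Curves

theorem core (m : ℕ) (a₀ : ℂ) (h₀ : phi^[m] a₀ = Complex.I) :
    ∃ x y s z : RatFunc ℂ, x ≠ 0 ∧ y ≠ 0 ∧ s ≠ 0 ∧
    s ^ 2 * (y - y⁻¹) = x - x⁻¹ ∧ z ∈ adjoin ℂ ({x, y, s} : Set (RatFunc ℂ)) ∧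
    ∃ κ : ℂ, κ ≠ 0 ∧ ∀ u : ℂ, phi^[m] u = Complex.I → ∃ ζ : ℂ,
      HasVal u x Complex.I ∧ HasVal u s 0 ∧ HasVal u z ζ ∧ ζ ^ 2 = κ * (u ^ 3 - u) := by
  refine ⟨xs m m, (etaP m)⁻¹, ss m m, zz m, ?_, ?_, ?_, ?_, ?_, _, kappa_ne_zero m, ?_⟩
  · obtain ⟨w, h1, h2, h3, h4⟩ := main_local h₀ m le_rfl
    exact h2.ne_zero (orbit_ne_zero (iterate_split h₀ le_rfl))
  · exact inv_ne_zero (div_ne_zero (eta_ne_zero h₀) ((val_TT h₀).ne_zero one_ne_zero))
  · have hf : ∀ j ≤ m, HasVal a₀ (xs m j) (phi^[j] a₀) := fun j hj => by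
      obtain ⟨w, h1, h2, h3, h4⟩ := main_local h₀ j hj
      exact h2
    obtain ⟨v, hv, h1⟩ := val_Lam h₀ (xs m) hf m le_rfl
    have h2 := ((HasVal.one a₀).add (val_eta h₀)).add
      ((val_eta h₀).div (val_rho h₀) one_ne_zero)
    exact mul_ne_zero (mul_ne_zero (sb_zero_ne_zero h₀) (h2.ne_zero (by simp))) (h1.ne_zero hv)
  · rw [inv_inv]
    exact ss_identity h₀ m le_rfl
  · have hx : xs m m ∈ adjoin ℂ ({xs m m, (etaP m)⁻¹, ss m m} : Set (RatFunc ℂ)) :=
      subset_adjoin ℂ _ (by simp)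
    have hy : (etaP m)⁻¹ ∈ adjoin ℂ ({xs m m, (etaP m)⁻¹, ss m m} : Set (RatFunc ℂ)) :=
      subset_adjoin ℂ _ (by simp)
    have hI : iK ∈ adjoin ℂ ({xs m m, (etaP m)⁻¹, ss m m} : Set (RatFunc ℂ)) := by
      have := (adjoin ℂ ({xs m m, (etaP m)⁻¹, ss m m} : Set (RatFunc ℂ))).algebraMap_mem Complex.I
      simpa using this
    have hη : etaP m ∈ adjoin ℂ ({xs m m, (etaP m)⁻¹, ss m m} : Set (RatFunc ℂ)) := by
      have := inv_mem hy
      rwa [inv_inv] at this
    exact div_mem (sub_mem hη (pow_mem (div_mem (sub_mem hx hI) (add_mem hx hI)) 2))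
      (pow_mem (sub_mem hx hI) 3)
  · intro u hu
    obtain ⟨ζ, hz1, hz2⟩ := val_zz hu
    have hf : ∀ j ≤ m, HasVal u (xs m j) (phi^[j] u) := fun j hj => by
      obtain ⟨w, h1, h2, h3, h4⟩ := main_local hu j hj
      exact h2
    obtain ⟨v, hv, h1⟩ := val_Lam hu (xs m) hf m le_rfl
    have h2 := ((HasVal.one u).add (val_eta hu)).add
      ((val_eta hu).div (val_rho hu) one_ne_zero)
    refine ⟨ζ, ?_, ?_, hz1, hz2⟩
    · have := hf m le_rfl
      rwa [hu] at this
    · exact (((val_sb hu (Nat.zero_le m)).mul h2).mul h1).congr_val (by simp)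

end Pool.Agent.Lib.MP_33f69e_ag
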