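import Mathlib
import Pool.Agent.Lib.MP_33f69e_ag.Core

/-!
# Counting the preimages of `I` under iterates of `phi`
-/

namespace Pool.Agent.Lib.MP_33f69e_ag

private theorem count_phi_eq {u w : ℂ} (h : u * (u - 2 * Complex.I * w) = 1) : phi u = w := by
  have hu : u ≠ 0 := by
    rintro rfl
    simp at h
  have hinv : u⁻¹ = u - 2 * Complex.I * w := by
    apply mul_left_cancel₀ hu
    rw [mul_inv_cancel₀ hu, h]
  have hI : (2 : ℂ) * Complex.I ≠ 0 := mul_ne_zero two_ne_zero Complex.I_ne_zero
  unfold phi
  rw [hinv, div_eq_iff hI]
  ring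

private theorem count_phi_zero : phi 0 = 0 := by
  unfold phi
  simp

private theorem count_iter_zero (m : ℕ) : phi^[m] 0 = 0 := by
  induction m with
  | zero => rfl
  | succ m ih => rw [Function.iterate_succ_apply, count_phi_zero, ih]

private theorem count_ne (m : ℕ) {w : ℂ} (h : phi^[m] w = Complex.I) : 1 - w ^ 2 ≠ 0 := by
  intro hw
  have hw2 : w = 1 ∨ w = -1 := by
    have h1 : (w - 1) * (w + 1) = 0 := by linear_combination -hw
    rcases mul_eq_zero.1 h1 with h2 | h2
    · left; linear_combination h2
    · right; linear_combination h2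
  have hphi : phi w = 0 := by
    unfold phi
    rcases hw2 with rfl | rfl <;> norm_num
  cases m with
  | zero =>
      have h3 : w = Complex.I := h
      rw [h3, Complex.I_sq] at hw
      norm_num at hw
  | succ m =>
      rw [Function.iterate_succ_apply, hphi, count_iter_zero] at h
      exact Complex.I_ne_zero h.symm

theorem exists_preimages (m : ℕ) :
    ∃ A : Finset ℂ, A.card = 2 ^ m ∧ ∀ u ∈ A, phi^[m] u = Complex.I := by
  have hsq : ∀ w : ℂ, ∃ z : ℂ, z ^ 2 = 1 - w ^ 2 := fun w =>
    IsAlgClosed.exists_pow_nat_eq (1 - w ^ 2) (by norm_num)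
  choose s hs using hsq
  induction m with
  | zero =>
      refine ⟨{Complex.I}, by simp, ?_⟩
      intro u hu
      rw [Finset.mem_singleton] at hu
      rw [hu]
      rfl
  | succ m ih =>
      obtain ⟨A, hA, hAI⟩ := ih
      have hphi : ∀ w : ℂ, ∀ u ∈ ({Complex.I * w + s w, Complex.I * w - s w} : Finset ℂ),
          phi u = w := by
        intro w u hu
        apply count_phi_eq
        rw [Finset.mem_insert, Finset.mem_singleton] at hu
        rcases hu with rfl | rfl
        · linear_combination hs w - w ^ 2 * Complex.I_sq
        · linear_combination hs w - w ^ 2 * Complex.I_sq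
      refine ⟨A.biUnion (fun w => {Complex.I * w + s w, Complex.I * w - s w}), ?_, ?_⟩
      · rw [Finset.card_biUnion]
        · rw [Finset.sum_congr rfl (fun w hw => Finset.card_pair ?_), Finset.sum_const, hA,
            smul_eq_mul, pow_succ]
          intro h
          have h1 : s w = 0 := by linear_combination h / 2
          have h2 := hs w
          rw [h1] at h2
          exact count_ne m (hAI w hw) (by rw [← h2]; ring)
        · intro w _ w' _ hne
          rw [Function.onFun, Finset.disjoint_left]
          intro u hu hu'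
          exact hne ((hphi w u hu).symm.trans (hphi w' u hu'))
      · intro u hu
        rw [Finset.mem_biUnion] at hu
        obtain ⟨w, hw, hu⟩ := hu
        rw [Function.iterate_succ_apply, hphi w u hu]
        exact hAI w hw

/-- at most three points have the same value of `u ^ 3 - u` -/
theorem card_image_ge (A : Finset ℂ) (ζ : ℂ → ℂ) (κ : ℂ) (hκ : κ ≠ 0)
    (h : ∀ u ∈ A, ζ u ^ 2 = κ * (u ^ 3 - u)) : A.card ≤ 3 * (A.image ζ).card := by
  classical
  apply Finset.card_le_mul_card_image
  intro b _
  have hdeg : (Polynomial.X ^ 3 - Polynomial.X - Polynomial.C (b ^ 2 / κ) : Polynomial ℂ).natDegree = 3 := by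
    compute_degree!
  have hne : (Polynomial.X ^ 3 - Polynomial.X - Polynomial.C (b ^ 2 / κ) : Polynomial ℂ) ≠ 0 := by
    intro h0
    rw [h0] at hdeg
    simp at hdeg
  calc (A.filter fun x => ζ x = b).card
      ≤ (Polynomial.X ^ 3 - Polynomial.X - Polynomial.C (b ^ 2 / κ) : Polynomial ℂ).roots.toFinset.card := by
        apply Finset.card_le_card
        intro u hu
        rw [Finset.mem_filter] at hu
        rw [Multiset.mem_toFinset, Polynomial.mem_roots hne]
        unfold Polynomial.IsRoot
        simp only [Polynomial.eval_sub, Polynomial.eval_pow, Polynomial.eval_X, Polynomial.eval_C]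
        have h1 := h u hu.1
        rw [hu.2] at h1
        rw [h1]
        field_simp
        ring
    _ ≤ Multiset.card (Polynomial.X ^ 3 - Polynomial.X - Polynomial.C (b ^ 2 / κ) : Polynomial ℂ).roots :=
        Multiset.toFinset_card_le _
    _ ≤ 3 := by
        have h3 := Polynomial.card_roots'
          (Polynomial.X ^ 3 - Polynomial.X - Polynomial.C (b ^ 2 / κ) : Polynomial ℂ)
        rw [hdeg] at h3
        exact h3

end Pool.Agent.Lib.MP_33f69e_ag
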