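import Mathlib
import Pool.Agent.Lib.MP_33f69e_ag.Val

/-!
# The degree of the coordinate `t`
-/

namespace Pool.Agent.Lib.MP_33f69e_ag

open Polynomial

private theorem DEGREE_dvd (T : Finset ℂ) (p : ℂ[X]) (h : ∀ w ∈ T, p.eval w = 0) :
    (∏ w ∈ T, (X - C w)) ∣ p := by
  refine Finset.prod_dvd_of_coprime ?_ ?_
  · intro a _ b _ hab
    exact pairwise_coprime_X_sub_C Function.injective_id hab
  · intro w hw
    exact dvd_iff_isRoot.2 (h w hw)

theorem rdeg_t (x s : RatFunc ℂ) (hx : x ≠ 0) (hs : s ≠ 0) (T : Finset ℂ)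
    (hT : ∀ w ∈ T, HasVal w x Complex.I ∧ HasVal w s 0) :
    rdeg ((x - RatFunc.C Complex.I) * (s - 1) / (s * x)) + T.card ≤ rdeg x + rdeg s := by
  have ha0 : x.num ≠ 0 := by
    intro h
    exact hx (RatFunc.num_eq_zero_iff.1 h)
  have hc0 : s.num ≠ 0 := by
    intro h
    exact hs (RatFunc.num_eq_zero_iff.1 h)
  have hb0 := x.denom_ne_zero
  have hd0 := s.denom_ne_zero
  have ex := RatFunc.num_div_denom x
  have es := RatFunc.num_div_denom s
  set a := x.num with ha
  set b := x.denom with hb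
  set c := s.num with hc
  set d := s.denom with hd
  have hDa : (∏ w ∈ T, (X - C w)) ∣ a - C Complex.I * b := by
    apply DEGREE_dvd
    intro w hw
    have := (hT w hw).1.num_eval
    simp only [eval_sub, eval_mul, eval_C]
    rw [ha, hb, this]
    ring
  have hDc : (∏ w ∈ T, (X - C w)) ∣ c := by
    apply DEGREE_dvd
    intro w hw
    have := (hT w hw).2.num_eval
    rw [hc, this]
    ring
  obtain ⟨u, hu⟩ := hDa
  obtain ⟨v, hv⟩ := hDc
  have hD0 : (∏ w ∈ T, (X - C w)) ≠ 0 := Finset.prod_ne_zero_iff.2 fun w _ => X_sub_C_ne_zero w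
  have hDdeg : (∏ w ∈ T, (X - C w)).natDegree = T.card := by
    rw [natDegree_prod_of_monic _ _ (fun w _ => monic_X_sub_C w)]
    simp
  have hv0 : v ≠ 0 := by
    rintro rfl
    exact hc0 (by rw [hv, mul_zero])
  have hva : v * a ≠ 0 := mul_ne_zero hv0 ha0
  have A : ∀ p : ℂ[X], p ≠ 0 → algebraMap ℂ[X] (RatFunc ℂ) p ≠ 0 := by
    intro p hp h
    exact hp (RatFunc.algebraMap_injective ℂ (by simpa using h))
  have et : (x - RatFunc.C Complex.I) * (s - 1) / (s * x) =
      algebraMap ℂ[X] (RatFunc ℂ) (u * (c - d)) / algebraMap ℂ[X] (RatFunc ℂ) (v * a) := by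
    have e1 : algebraMap ℂ[X] (RatFunc ℂ) (a - C Complex.I * b) =
        algebraMap ℂ[X] (RatFunc ℂ) (∏ w ∈ T, (X - C w)) * algebraMap ℂ[X] (RatFunc ℂ) u := by
      rw [hu, map_mul]
    have e2 : algebraMap ℂ[X] (RatFunc ℂ) c =
        algebraMap ℂ[X] (RatFunc ℂ) (∏ w ∈ T, (X - C w)) * algebraMap ℂ[X] (RatFunc ℂ) v := by
      rw [← map_mul, ← hv]
    have e3 : algebraMap ℂ[X] (RatFunc ℂ) (a - C Complex.I * b) =
        algebraMap ℂ[X] (RatFunc ℂ) a - RatFunc.C Complex.I * algebraMap ℂ[X] (RatFunc ℂ) b := by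
      rw [map_sub, map_mul, RatFunc.algebraMap_C]
    have ex' : x - RatFunc.C Complex.I = algebraMap ℂ[X] (RatFunc ℂ) (∏ w ∈ T, (X - C w)) *
        algebraMap ℂ[X] (RatFunc ℂ) u / algebraMap ℂ[X] (RatFunc ℂ) b := by
      rw [← e1, e3, sub_div, ex, mul_div_assoc, div_self (A b hb0), mul_one]
    have es' : s - 1 = algebraMap ℂ[X] (RatFunc ℂ) (c - d) / algebraMap ℂ[X] (RatFunc ℂ) d := by
      rw [map_sub, sub_div, es, div_self (A d hd0)]
    have hP := A _ hD0
    have hB := A _ hb0
    have hDd := A _ hd0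
    have hV := A _ hv0
    have hA := A _ ha0
    rw [ex', es', ← es, ← ex, e2, map_mul, map_mul]
    field_simp
  have hx1 : a.natDegree ≤ rdeg x := le_max_left _ _
  have hx2 : b.natDegree ≤ rdeg x := le_max_right _ _
  have hs1 : c.natDegree ≤ rdeg s := le_max_left _ _
  have hs2 : d.natDegree ≤ rdeg s := le_max_right _ _
  have hcdeg : c.natDegree = T.card + v.natDegree := by
    rw [hv, natDegree_mul hD0 hv0, hDdeg]
  have key : ((x - RatFunc.C Complex.I) * (s - 1) / (s * x)).num.natDegree + T.card ≤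
      rdeg x + rdeg s := by
    rw [et]
    by_cases h0 : u * (c - d) = 0
    · rw [h0]
      simp
      omega
    · have h1 := natDegree_le_of_dvd (RatFunc.num_div_dvd (u * (c - d)) hva) h0
      have hu0 : u ≠ 0 := left_ne_zero_of_mul h0
      have hcd0 : c - d ≠ 0 := right_ne_zero_of_mul h0
      rw [natDegree_mul hu0 hcd0] at h1
      have h2 : (a - C Complex.I * b).natDegree = T.card + u.natDegree := by
        rw [hu, natDegree_mul hD0 hu0, hDdeg]
      have h3 : (a - C Complex.I * b).natDegree ≤ rdeg x := by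
        refine (natDegree_sub_le _ _).trans (max_le hx1 ?_)
        exact (natDegree_C_mul_le _ _).trans hx2
      have h4 : (c - d).natDegree ≤ rdeg s :=
        (natDegree_sub_le _ _).trans (max_le hs1 hs2)
      omega
  have key2 : ((x - RatFunc.C Complex.I) * (s - 1) / (s * x)).denom.natDegree + T.card ≤
      rdeg x + rdeg s := by
    rw [et]
    have h1 := natDegree_le_of_dvd (RatFunc.denom_div_dvd (u * (c - d)) (v * a)) hva
    rw [natDegree_mul hv0 ha0] at h1
    omega
  have key3 : rdeg ((x - RatFunc.C Complex.I) * (s - 1) / (s * x)) =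
      max ((x - RatFunc.C Complex.I) * (s - 1) / (s * x)).num.natDegree
        ((x - RatFunc.C Complex.I) * (s - 1) / (s * x)).denom.natDegree := rfl
  rw [key3]
  rcases max_choice ((x - RatFunc.C Complex.I) * (s - 1) / (s * x)).num.natDegree
    ((x - RatFunc.C Complex.I) * (s - 1) / (s * x)).denom.natDegree with h | h
  · rw [h]
    exact key
  · rw [h]
    exact key2

end Pool.Agent.Lib.MP_33f69e_ag
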