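import Mathlib
import Pool.Agent.Lib.MP_33f69e_ag.Basic
import Pool.Agent.Lib.MP_33f69e_ag.Val
import Pool.Agent.Lib.MP_33f69e_ag.Degree

/-!
# From rational functions to rational curves on the surface
-/

namespace Pool.Agent.Lib.MP_33f69e_ag

open Polynomial IntermediateField

private theorem curve_hasVal {n : ℕ} (S : Fin n → RatFunc ℂ) (u : ℂ)
    (hd : ∀ i, (S i).denom.eval u ≠ 0) (p : MvPolynomial (Fin n) ℂ) :
    HasVal u (MvPolynomial.aeval S p)
      (MvPolynomial.eval (fun i => (S i).num.eval u / (S i).denom.eval u) p) := by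
  induction p using MvPolynomial.induction_on with
  | C a =>
      rw [MvPolynomial.aeval_C, MvPolynomial.eval_C]
      exact HasVal.C u a
  | add p q hp hq =>
      rw [map_add, map_add]
      exact hp.add hq
  | mul_X p i hp =>
      rw [map_mul, map_mul, MvPolynomial.aeval_X, MvPolynomial.eval_X]
      exact hp.mul (HasVal.of_eval (S i) (hd i))

/-- Functions generating the rational function field separate the points outside a finite set. -/
theorem separates (S : Fin 3 → RatFunc ℂ) (h : adjoin ℂ (Set.range S) = ⊤) :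
    ∃ Z : Set ℂ, Z.Finite ∧ ∀ u ∉ Z, ∀ v ∉ Z,
      (∀ i, (S i).denom.eval u ≠ 0 ∧ (S i).denom.eval v ≠ 0) ∧
      ((∀ i, (S i).num.eval u / (S i).denom.eval u = (S i).num.eval v / (S i).denom.eval v) →
        u = v) := by
  have hX : (RatFunc.X : RatFunc ℂ) ∈ adjoin ℂ (Set.range S) := by
    rw [h]
    exact mem_top
  rw [mem_adjoin_range_iff] at hX
  obtain ⟨r, q, hrq⟩ := hX
  have hX0 : (RatFunc.X : RatFunc ℂ) ≠ 0 := RatFunc.X_ne_zero
  have hQ0 : MvPolynomial.aeval S q ≠ 0 := by
    intro h0
    rw [h0, div_zero] at hrq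
    exact hX0 hrq
  have hnum0 : (MvPolynomial.aeval S q).num ≠ 0 := by
    intro h0
    exact hQ0 (RatFunc.num_eq_zero_iff.1 h0)
  refine ⟨(⋃ i, {u | (S i).denom.eval u = 0}) ∪ {u | (MvPolynomial.aeval S q).num.eval u = 0},
    ?_, ?_⟩
  · apply Set.Finite.union
    · apply Set.finite_iUnion
      intro i
      exact Polynomial.finite_setOf_isRoot (RatFunc.denom_ne_zero (S i))
    · exact Polynomial.finite_setOf_isRoot hnum0
  · have key : ∀ u ∉ (⋃ i, {u | (S i).denom.eval u = 0}) ∪
        {u | (MvPolynomial.aeval S q).num.eval u = 0}, (∀ i, (S i).denom.eval u ≠ 0) ∧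
        u = MvPolynomial.eval (fun i => (S i).num.eval u / (S i).denom.eval u) r /
          MvPolynomial.eval (fun i => (S i).num.eval u / (S i).denom.eval u) q := by
      intro u hu
      rw [Set.mem_union, not_or, Set.mem_iUnion, not_exists] at hu
      have hd : ∀ i, (S i).denom.eval u ≠ 0 := hu.1
      refine ⟨hd, ?_⟩
      have hr := curve_hasVal S u hd r
      have hq := curve_hasVal S u hd q
      have hne : MvPolynomial.eval (fun i => (S i).num.eval u / (S i).denom.eval u) q ≠ 0 := by
        intro h0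
        have h1 := hq.num_eval
        rw [h0, zero_mul] at h1
        exact hu.2 h1
      have h1 := hr.div hq hne
      rw [← hrq] at h1
      exact (HasVal.X u).unique h1
    intro u hu v hv
    obtain ⟨hu1, hu2⟩ := key u hu
    obtain ⟨hv1, hv2⟩ := key v hv
    refine ⟨fun i => ⟨hu1 i, hv1 i⟩, ?_⟩
    intro heq
    have hfun : (fun i => (S i).num.eval u / (S i).denom.eval u) =
        fun i => (S i).num.eval v / (S i).denom.eval v := funext heq
    rw [hu2, hv2, hfun]

private theorem curve_num (f : RatFunc ℂ) : algebraMap ℂ[X] (RatFunc ℂ) f.num =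
    f * algebraMap ℂ[X] (RatFunc ℂ) f.denom := by
  have hd' : algebraMap ℂ[X] (RatFunc ℂ) f.denom ≠ 0 := by
    intro h
    exact f.denom_ne_zero (RatFunc.algebraMap_injective ℂ (by simpa using h))
  have h4 := RatFunc.num_div_denom f
  rw [div_eq_iff hd'] at h4
  exact h4

private theorem curve_eq1 {x r s : RatFunc ℂ} (h : r * s * x = x * x - 1) :
    r.num * s.num * x.num * x.denom =
      r.denom * s.denom * (x.num * x.num - x.denom * x.denom) := by
  apply RatFunc.algebraMap_injective ℂ
  simp only [map_mul, map_sub]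
  rw [curve_num r, curve_num s, curve_num x]
  linear_combination (algebraMap ℂ[X] (RatFunc ℂ) r.denom * algebraMap ℂ[X] (RatFunc ℂ) s.denom *
    algebraMap ℂ[X] (RatFunc ℂ) x.denom * algebraMap ℂ[X] (RatFunc ℂ) x.denom) * h

private theorem curve_eq2 {y r s : RatFunc ℂ} (h : r * y = s * (y * y - 1)) :
    r.num * s.denom * y.num * y.denom =
      r.denom * s.num * (y.num * y.num - y.denom * y.denom) := by
  apply RatFunc.algebraMap_injective ℂ
  simp only [map_mul, map_sub]
  rw [curve_num r, curve_num s, curve_num y]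
  linear_combination (algebraMap ℂ[X] (RatFunc ℂ) r.denom * algebraMap ℂ[X] (RatFunc ℂ) s.denom *
    algebraMap ℂ[X] (RatFunc ℂ) y.denom * algebraMap ℂ[X] (RatFunc ℂ) y.denom) * h

private theorem curve_eq3 {x s t : RatFunc ℂ}
    (h : t * s * x = (x - RatFunc.C Complex.I) * (s - 1)) :
    t.num * s.num * x.num =
      t.denom * (x.num - C Complex.I * x.denom) * (s.num - s.denom) := by
  apply RatFunc.algebraMap_injective ℂ
  simp only [map_mul, map_sub]
  rw [curve_num t, curve_num s, curve_num x, RatFunc.algebraMap_C]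
  linear_combination (algebraMap ℂ[X] (RatFunc ℂ) t.denom * algebraMap ℂ[X] (RatFunc ℂ) s.denom *
    algebraMap ℂ[X] (RatFunc ℂ) x.denom) * h

private theorem curve_ratio {a b c d : ℂ} (hb : b ≠ 0) (hd : d ≠ 0)
    (h0 : (![a, b] : Fin 2 → ℂ) ≠ 0) (h1 : (![c, d] : Fin 2 → ℂ) ≠ 0)
    (h : Projectivization.mk ℂ ![a, b] h0 = Projectivization.mk ℂ ![c, d] h1) :
    a / b = c / d := by
  rw [Projectivization.mk_eq_mk_iff'] at h
  obtain ⟨e, he⟩ := h
  have e0 := congrFun he 0
  have e1 := congrFun he 1
  simp at e0 e1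
  rw [div_eq_div_iff hb hd, ← e0, ← e1]
  ring

theorem exists_curve (x y s : RatFunc ℂ) (hx : x ≠ 0) (hy : y ≠ 0) (hs : s ≠ 0)
    (h : s ^ 2 * (y - y⁻¹) = x - x⁻¹) (hgen : adjoin ℂ ({x, y, s} : Set (RatFunc ℂ)) = ⊤)
    (T : Finset ℂ) (hT : ∀ w ∈ T, HasVal w x Complex.I ∧ HasVal w s 0) :
    ∃ C : RationalCurve surf, (T.card : ℤ) ≤ C.canonicalDegree := by
  have hr1 : s * (y - y⁻¹) * s * x = x * x - 1 := by
    have e : s * (y - y⁻¹) * s * x = (s ^ 2 * (y - y⁻¹)) * x := by ring
    rw [e, h, sub_mul, inv_mul_cancel₀ hx]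
  have hr2 : s * (y - y⁻¹) * y = s * (y * y - 1) := by
    rw [mul_assoc, sub_mul, inv_mul_cancel₀ hy]
  have ht : (x - RatFunc.C Complex.I) * (s - 1) / (s * x) * s * x =
      (x - RatFunc.C Complex.I) * (s - 1) := by
    rw [mul_assoc, div_mul_cancel₀ _ (mul_ne_zero hs hx)]
  obtain ⟨Z, hZ, hsep⟩ := separates ![x, y, s] (by
    have e : Set.range ![x, y, s] = {x, y, s} := by
      ext z
      simp only [Set.mem_range, Set.mem_insert_iff, Set.mem_singleton_iff]
      constructor
      · rintro ⟨i, rfl⟩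
        fin_cases i <;> simp
      · rintro (rfl | rfl | rfl)
        · exact ⟨0, rfl⟩
        · exact ⟨1, rfl⟩
        · exact ⟨2, rfl⟩
    rw [e]
    exact hgen)
  let f : Fin 5 → RatFunc ℂ := ![x, y, s * (y - y⁻¹), s,
    (x - RatFunc.C Complex.I) * (s - 1) / (s * x)]
  have hcop : ∀ i, IsCoprime (f i).num (f i).denom := fun i => RatFunc.isCoprime_num_denom _
  have hmem : ∀ u : ℂ, pointOf (fun i => (f i).num) (fun i => (f i).denom) hcop u ∈
      surf.points := by
    intro u
    have hc : HasCoords (pointOf (fun i => (f i).num) (fun i => (f i).denom) hcop u)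
        (fun i => ![(f i).num.eval u, (f i).denom.eval u]) := by
      intro i
      refine ⟨?_, rfl⟩
      intro h0
      obtain ⟨a, b, hab⟩ := hcop i
      have h1 : (f i).num.eval u = 0 := by simpa using congrFun h0 0
      have h2 : (f i).denom.eval u = 0 := by simpa using congrFun h0 1
      have := congrArg (Polynomial.eval u) hab
      simp [h1, h2] at this
    rw [mem_surf_iff hc]
    have e1 := congrArg (Polynomial.eval u) (curve_eq1 hr1)
    have e2 := congrArg (Polynomial.eval u) (curve_eq2 hr2)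
    have e3 := congrArg (Polynomial.eval u) (curve_eq3 ht)
    simp only [eval_mul, eval_sub, eval_C] at e1 e2 e3
    exact ⟨e1, e2, e3⟩
  have hinj : ∃ Z : Set ℂ, Z.Finite ∧ ∀ u ∉ Z, ∀ v ∉ Z,
      pointOf (fun i => (f i).num) (fun i => (f i).denom) hcop u =
        pointOf (fun i => (f i).num) (fun i => (f i).denom) hcop v → u = v := by
    refine ⟨Z, hZ, ?_⟩
    intro u hu v hv huv
    obtain ⟨hd, hval⟩ := hsep u hu v hv
    apply hval
    intro i
    have h0 := congrFun huv 0
    have h1 := congrFun huv 1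
    have h3 := congrFun huv 3
    have d0 := hd 0
    have d1 := hd 1
    have d2 := hd 2
    fin_cases i
    · exact curve_ratio d0.1 d0.2 _ _ h0
    · exact curve_ratio d1.1 d1.2 _ _ h1
    · exact curve_ratio d2.1 d2.2 _ _ h3
  let C0 : RationalCurve surf :=
    { num := fun i => (f i).num, den := fun i => (f i).denom, coprime := hcop,
      mem := hmem, injective := hinj }
  refine ⟨C0, ?_⟩
  have hdeg := rdeg_t x s hx hs T hT
  have e : C0.canonicalDegree = (rdeg x : ℤ) + (rdeg s : ℤ) -
      (rdeg ((x - RatFunc.C Complex.I) * (s - 1) / (s * x)) : ℤ) := by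
    have d0 : C0.degree 0 = rdeg x := rfl
    have d3 : C0.degree 3 = rdeg s := rfl
    have d4 : C0.degree 4 = rdeg ((x - RatFunc.C Complex.I) * (s - 1) / (s * x)) := rfl
    have c0 : surf.canonicalClass 0 = 1 := by
      simp [CISurface.canonicalClass, surf, surfD, Fin.sum_univ_three]
    have c1 : surf.canonicalClass 1 = 0 := by
      simp [CISurface.canonicalClass, surf, surfD, Fin.sum_univ_three]
    have c2 : surf.canonicalClass 2 = 0 := by
      simp [CISurface.canonicalClass, surf, surfD, Fin.sum_univ_three]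
    have c3 : surf.canonicalClass 3 = 1 := by
      simp [CISurface.canonicalClass, surf, surfD, Fin.sum_univ_three]
    have c4 : surf.canonicalClass 4 = -1 := by
      simp [CISurface.canonicalClass, surf, surfD, Fin.sum_univ_three]
    unfold RationalCurve.canonicalDegree
    rw [Fin.sum_univ_five, c0, c1, c2, c3, c4, d0, d3, d4]
    ring
  rw [e]
  omega

end Pool.Agent.Lib.MP_33f69e_ag
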