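import Mathlib
import Pool.Agent.Lib.MP_33f69e_ag.Basic

/-!
# The general fibre of the projection to the `y`-line is a curve of genus one
-/

namespace Pool.Agent.Lib.MP_33f69e_ag

open MvPolynomial

/-- Two nonzero vectors of the plane with vanishing determinant define the same point. -/
theorem fibreB_mk_eq {v w : Fin 2 → ℂ} (hv : v ≠ 0) (hw : w ≠ 0)
    (h : v 0 * w 1 = v 1 * w 0) :
    Projectivization.mk ℂ v hv = Projectivization.mk ℂ w hw := by
  rw [Projectivization.mk_eq_mk_iff']
  by_cases h0 : w 0 = 0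
  · have h1 : w 1 ≠ 0 := by
      intro h1
      apply hw
      funext i
      fin_cases i
      · exact h0
      · exact h1
    refine ⟨v 1 / w 1, ?_⟩
    have hv0 : v 0 = 0 := by
      rw [h0, mul_zero, mul_eq_zero] at h
      exact h.resolve_right h1
    funext i
    fin_cases i
    · simp [h0, hv0]
    · simp [h1]
  · refine ⟨v 0 / w 0, ?_⟩
    funext i
    fin_cases i
    · simp [h0]
    · simp only [Fin.mk_one, Pi.smul_apply, smul_eq_mul]
      field_simp
      rw [mul_comm (w 0) (v 1), ← h]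

/-- A point of the line is given by a vector proportional to its representative. -/
theorem fibreB_eq_mk {p : PLine} {w : Fin 2 → ℂ} (hw : w ≠ 0)
    (h : p.rep 0 * w 1 = p.rep 1 * w 0) : p = Projectivization.mk ℂ w hw :=
  (Projectivization.mk_rep p).symm.trans (fibreB_mk_eq p.rep_nonzero hw h)

theorem fibreB_evalAt_X {m : ℕ} (P : PPow m) (j : Fin m) (c : Fin 2) :
    evalAt P (X (j, c)) = (P j).rep c := by
  simp [evalAt]

/-- the coordinate functions are regular -/
theorem fibreB_coord {m : ℕ} (j : Fin m) (P : PPow m) :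
    (∀ c, IsMultiHom (X (j, c) : HPoly m) (Pi.single j 1)) ∧
    (∃ c, evalAt P (X (j, c) : HPoly m) ≠ 0) ∧
    ∀ (Q : PPow m) (h : (fun c => evalAt Q (X (j, c) : HPoly m)) ≠ 0),
      Q j = Projectivization.mk ℂ (fun c => evalAt Q (X (j, c) : HPoly m)) h := by
  refine ⟨fun c => IsMultiHom.X j c, ?_, ?_⟩
  · by_contra hc
    push Not at hc
    apply (P j).rep_nonzero
    funext c
    have := hc c
    rwa [fibreB_evalAt_X] at this
  · intro Q h
    have e : (fun c => evalAt Q (X (j, c) : HPoly m)) = (Q j).rep := by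
      funext c
      exact fibreB_evalAt_X Q j c
    have : Q j = Projectivization.mk ℂ (Q j).rep (Q j).rep_nonzero :=
      (Projectivization.mk_rep (Q j)).symm
    rw [this]
    congr 1
    exact e.symm

/-- the equation of the general fibre in the product of two projective lines -/
noncomputable def fibreB_G (k m : ℂ) : HPoly 2 :=
  C k * (X (1, 0) * X (1, 0)) * (X (0, 0) * X (0, 1)) -
    C m * (X (1, 1) * X (1, 1)) * (X (0, 0) * X (0, 0) - X (0, 1) * X (0, 1))

theorem fibreB_G_multiHom (k m : ℂ) : IsMultiHom (fibreB_G k m) (fun _ => 2) := by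
  have e : (fun _ => 2 : Fin 2 → ℕ) = (0 + (Pi.single 1 1 + Pi.single 1 1)) +
      (Pi.single 0 1 + Pi.single 0 1) := by
    funext i; fin_cases i <;> simp [Pi.single_apply]
  rw [e]
  refine IsMultiHom.sub ?_ ?_
  · exact ((IsMultiHom.C k).mul ((IsMultiHom.X 1 0).mul (IsMultiHom.X 1 0))).mul
      ((IsMultiHom.X 0 0).mul (IsMultiHom.X 0 1))
  · exact ((IsMultiHom.C m).mul ((IsMultiHom.X 1 1).mul (IsMultiHom.X 1 1))).mul
      (((IsMultiHom.X 0 0).mul (IsMultiHom.X 0 0)).sub ((IsMultiHom.X 0 1).mul (IsMultiHom.X 0 1)))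

theorem fibreB_evalAt_G (k m : ℂ) (Q : PPow 2) :
    evalAt Q (fibreB_G k m) =
      k * ((Q 1).rep 0 * (Q 1).rep 0) * ((Q 0).rep 0 * (Q 0).rep 1) -
      m * ((Q 1).rep 1 * (Q 1).rep 1) *
        ((Q 0).rep 0 * (Q 0).rep 0 - (Q 0).rep 1 * (Q 0).rep 1) := by
  simp [evalAt, fibreB_G]

/-- a nonzero vector of the plane with first coordinate zero has a nonzero second coordinate -/
theorem fibreB_ne {v : Fin 2 → ℂ} (hv : v ≠ 0) : v 0 ≠ 0 ∨ v 1 ≠ 0 := by
  by_contra hc
  push Not at hc
  apply hv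
  funext i
  fin_cases i
  · exact hc.1
  · exact hc.2

theorem fibreB_smooth {k m : ℂ} (hk : k ≠ 0) (hm : m ≠ 0) (Q : PPow 2)
    (hQ : evalAt Q (fibreB_G k m) = 0) :
    ∃ a, evalAt Q (pderiv a (fibreB_G k m)) ≠ 0 := by
  by_contra hc
  push Not at hc
  have hx := fibreB_ne (Q 0).rep_nonzero
  have hs := fibreB_ne (Q 1).rep_nonzero
  have d1 := hc (0, 0)
  have d2 := hc (0, 1)
  have d3 := hc (1, 0)
  have d4 := hc (1, 1)
  simp [evalAt, fibreB_G, pderiv_X, Derivation.leibniz] at d1 d2 d3 d4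
  rw [fibreB_evalAt_G] at hQ
  generalize (Q 0).rep 0 = x0 at *
  generalize (Q 0).rep 1 = x1 at *
  generalize (Q 1).rep 0 = s0 at *
  generalize (Q 1).rep 1 = s1 at *
  rcases d3 with (h | h) | h | h
  · subst h
    have hx1 : x1 ≠ 0 := hx.resolve_left (fun h => h rfl)
    have hs1 : s1 = 0 := by
      rcases d4 with h | h | h
      · exfalso
        apply hx1
        have : x1 * x1 = 0 := by linear_combination -h
        exact mul_self_eq_zero.mp this
      · exact absurd h hm
      · exact h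
    subst hs1
    have hs0 : s0 ≠ 0 := hs.resolve_right (fun h => h rfl)
    have : k * (s0 * s0) * x1 = 0 := by linear_combination d1
    exact mul_ne_zero (mul_ne_zero hk (mul_ne_zero hs0 hs0)) hx1 this
  · subst h
    have hx0 : x0 ≠ 0 := hx.resolve_right (fun h => h rfl)
    have hs1 : s1 = 0 := by
      rcases d4 with h | h | h
      · exfalso
        apply hx0
        have : x0 * x0 = 0 := by linear_combination h
        exact mul_self_eq_zero.mp this
      · exact absurd h hm
      · exact h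
    subst hs1
    have hs0 : s0 ≠ 0 := hs.resolve_right (fun h => h rfl)
    have : k * (s0 * s0) * x0 = 0 := by linear_combination d2
    exact mul_ne_zero (mul_ne_zero hk (mul_ne_zero hs0 hs0)) hx0 this
  · exact hk h
  · subst h
    have hs1 : s1 ≠ 0 := hs.resolve_left (fun h => h rfl)
    have hxx : x0 * x0 - x1 * x1 = 0 := by
      rcases d4 with h | h | h
      · exact h
      · exact absurd h hm
      · exact absurd h hs1
    have h1 : (2 * m * (s1 * s1)) * x0 = 0 := by linear_combination -d1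
    have hx0 : x0 = 0 :=
      (mul_eq_zero.mp h1).resolve_left
        (mul_ne_zero (mul_ne_zero two_ne_zero hm) (mul_ne_zero hs1 hs1))
    subst hx0
    have hx1 : x1 ≠ 0 := hx.resolve_left (fun h => h rfl)
    apply hx1
    have : x1 * x1 = 0 := by linear_combination -hxx
    exact mul_self_eq_zero.mp this

/-- the pair of homogeneous coordinates of `t` as a function of `x` and `s` -/
noncomputable def fibreB_t (Q : PPow 2) : Fin 2 → ℂ :=
  ![((Q 0).rep 0 - Complex.I * (Q 0).rep 1) * ((Q 1).rep 0 - (Q 1).rep 1),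
    (Q 1).rep 0 * (Q 0).rep 0]

theorem fibreB_t_ne {k m : ℂ} (_hk : k ≠ 0) (hm : m ≠ 0) (Q : PPow 2)
    (hQ : evalAt Q (fibreB_G k m) = 0) : fibreB_t Q ≠ 0 := by
  intro hc
  have h0 := congrFun hc 0
  have h1 := congrFun hc 1
  have hx := fibreB_ne (Q 0).rep_nonzero
  have hs := fibreB_ne (Q 1).rep_nonzero
  rw [fibreB_evalAt_G] at hQ
  simp only [fibreB_t, Matrix.cons_val_zero, Matrix.cons_val_one, Pi.zero_apply] at h0 h1
  generalize (Q 0).rep 0 = x0 at *
  generalize (Q 0).rep 1 = x1 at *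
  generalize (Q 1).rep 0 = s0 at *
  generalize (Q 1).rep 1 = s1 at *
  rcases mul_eq_zero.mp h1 with h | h
  · subst h
    have hs1 : s1 ≠ 0 := hs.resolve_left (fun h => h rfl)
    have e1 : x0 * x0 - x1 * x1 = 0 := by
      have : (m * (s1 * s1)) * (x0 * x0 - x1 * x1) = 0 := by linear_combination -hQ
      exact (mul_eq_zero.mp this).resolve_left (mul_ne_zero hm (mul_ne_zero hs1 hs1))
    have e2 : x0 = Complex.I * x1 := by
      have : s1 * (x0 - Complex.I * x1) = 0 := by linear_combination -h0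
      exact sub_eq_zero.mp ((mul_eq_zero.mp this).resolve_left hs1)
    subst e2
    have e3 : x1 * x1 = 0 := by
      have : (2 : ℂ) * (x1 * x1) = 0 := by
        linear_combination -e1 + (x1 * x1) * Complex.I_mul_I
      exact (mul_eq_zero.mp this).resolve_left two_ne_zero
    have hx1 : x1 = 0 := mul_self_eq_zero.mp e3
    subst hx1
    simp at hx
  · subst h
    have hx1 : x1 ≠ 0 := hx.resolve_left (fun h => h rfl)
    have hs1 : s1 = 0 := by
      have : (m * (x1 * x1)) * (s1 * s1) = 0 := by linear_combination hQ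
      exact mul_self_eq_zero.mp
        ((mul_eq_zero.mp this).resolve_left (mul_ne_zero hm (mul_ne_zero hx1 hx1)))
    subst hs1
    have hs0 : s0 ≠ 0 := hs.resolve_right (fun h => h rfl)
    have : Complex.I * x1 * s0 = 0 := by linear_combination -h0
    exact mul_ne_zero (mul_ne_zero Complex.I_ne_zero hx1) hs0 this

/-- the pair of homogeneous coordinates of `r` as a function of `s` -/
noncomputable def fibreB_r (k m : ℂ) (Q : PPow 2) : Fin 2 → ℂ :=
  ![k * (Q 1).rep 0, m * (Q 1).rep 1]

theorem fibreB_r_ne {k m : ℂ} (hk : k ≠ 0) (hm : m ≠ 0) (Q : PPow 2) :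
    fibreB_r k m Q ≠ 0 := by
  intro hc
  have h0 := congrFun hc 0
  have h1 := congrFun hc 1
  simp only [fibreB_r, Matrix.cons_val_zero, Matrix.cons_val_one, Pi.zero_apply] at h0 h1
  rcases fibreB_ne (Q 1).rep_nonzero with h | h
  · exact mul_ne_zero hk h h0
  · exact mul_ne_zero hm h h1

/-- the projection to `(x, s)` -/
noncomputable def fibreB_f (P : PPow 5) : PPow 2 := ![P 0, P 3]

open Classical in
/-- the inverse map -/
noncomputable def fibreB_g (b : PLine) {k m : ℂ} (hk : k ≠ 0) (hm : m ≠ 0) (Q : PPow 2) :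
    PPow 5 :=
  ![Q 0, b, Projectivization.mk ℂ (fibreB_r k m Q) (fibreB_r_ne hk hm Q), Q 1,
    if h : fibreB_t Q ≠ 0 then Projectivization.mk ℂ (fibreB_t Q) h else b]

theorem fibreB_g_t (b : PLine) {k m : ℂ} (hk : k ≠ 0) (hm : m ≠ 0) (Q : PPow 2)
    (h : fibreB_t Q ≠ 0) : fibreB_g b hk hm Q 4 = Projectivization.mk ℂ (fibreB_t Q) h := by
  show (if h : fibreB_t Q ≠ 0 then Projectivization.mk ℂ (fibreB_t Q) h else b) = _
  rw [dif_pos h]

/-- the general fibre is isomorphic to the curve `s² x (y - 1/y) = x² - 1` in the product of two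
projective lines, via `(x, s)` -/
theorem surf_fibre_genusOne (b : PLine) (hb0 : b.rep 0 ≠ 0) (hb1 : b.rep 1 ≠ 0)
    (hb2 : b.rep 0 * b.rep 0 - b.rep 1 * b.rep 1 ≠ 0) :
    IsGenusOneCurve {P | P ∈ surf.points ∧ P 1 = b} := by
  have hm : b.rep 0 * b.rep 1 ≠ 0 := mul_ne_zero hb0 hb1
  have hk := hb2
  refine ⟨fibreB_G (b.rep 0 * b.rep 0 - b.rep 1 * b.rep 1) (b.rep 0 * b.rep 1),
    fibreB_G_multiHom _ _, fun Q hQ => fibreB_smooth hk hm Q hQ,
    fibreB_f, fibreB_g b hk hm, ?_, ?_, ?_, ?_⟩
  · intro P hP i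
    fin_cases i
    · obtain ⟨h1, h2, h3⟩ := fibreB_coord 0 P
      exact ⟨_, _, h1, h2, fun Q _ h => h3 Q h⟩
    · obtain ⟨h1, h2, h3⟩ := fibreB_coord 3 P
      exact ⟨_, _, h1, h2, fun Q _ h => h3 Q h⟩
  · intro P hP i
    fin_cases i
    · obtain ⟨h1, h2, h3⟩ := fibreB_coord 0 P
      exact ⟨_, _, h1, h2, fun Q _ h => h3 Q h⟩
    · refine ⟨0, fun c => C (b.rep c), fun c => IsMultiHom.C _, ⟨0, by simpa [evalAt] using hb0⟩,
        fun Q _ h => ?_⟩
      show b = _
      refine fibreB_eq_mk _ ?_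
      simp only [evalAt, eval_C]
      ring
    · refine ⟨Pi.single 1 1, ![C (b.rep 0 * b.rep 0 - b.rep 1 * b.rep 1) * X (1, 0),
        C (b.rep 0 * b.rep 1) * X (1, 1)], ?_, ?_, ?_⟩
      · have e : (Pi.single 1 1 : Fin 2 → ℕ) = 0 + Pi.single 1 1 := by simp
        intro c
        rw [e]
        fin_cases c
        · exact (IsMultiHom.C _).mul (IsMultiHom.X 1 0)
        · exact (IsMultiHom.C _).mul (IsMultiHom.X 1 1)
      · rcases fibreB_ne (P 1).rep_nonzero with h | h
        · refine ⟨0, ?_⟩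
          simp only [Matrix.cons_val_zero, evalAt, map_mul, eval_C, eval_X]
          exact mul_ne_zero hk h
        · refine ⟨1, ?_⟩
          have e : evalAt P ((![C (b.rep 0 * b.rep 0 - b.rep 1 * b.rep 1) * X (1, 0),
            C (b.rep 0 * b.rep 1) * X (1, 1)] : Fin 2 → HPoly 2) 1) =
            b.rep 0 * b.rep 1 * (P 1).rep 1 := by
            simp [evalAt]
          rw [e]
          exact mul_ne_zero hm h
      · intro Q _ h
        show Projectivization.mk ℂ (fibreB_r _ _ Q) _ = _
        refine fibreB_mk_eq _ _ ?_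
        simp only [evalAt, fibreB_r, Matrix.cons_val_zero, Matrix.cons_val_one, map_mul, eval_C,
          eval_X]
        ring
    · obtain ⟨h1, h2, h3⟩ := fibreB_coord 1 P
      exact ⟨_, _, h1, h2, fun Q _ h => h3 Q h⟩
    · have hX : ∀ Q : PPow 2, (fun c => evalAt Q ((![(X (0, 0) - C Complex.I * X (0, 1)) *
          (X (1, 0) - X (1, 1)), X (0, 0) * X (1, 0)] : Fin 2 → HPoly 2) c)) = fibreB_t Q := by
        intro Q
        funext c
        fin_cases c
        · simp [evalAt, fibreB_t]
        · simp [evalAt, fibreB_t, mul_comm]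
      refine ⟨Pi.single 0 1 + Pi.single 1 1, ![(X (0, 0) - C Complex.I * X (0, 1)) *
          (X (1, 0) - X (1, 1)), X (0, 0) * X (1, 0)], ?_, ?_, ?_⟩
      · intro c
        fin_cases c
        · refine IsMultiHom.mul ?_ ((IsMultiHom.X 1 0).sub (IsMultiHom.X 1 1))
          refine (IsMultiHom.X 0 0).sub ?_
          have := (IsMultiHom.C (m := 2) Complex.I).mul (IsMultiHom.X 0 1)
          simpa using this
        · exact (IsMultiHom.X 0 0).mul (IsMultiHom.X 1 0)
      · by_contra hc
        push Not at hc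
        apply fibreB_t_ne hk hm P hP
        rw [← hX P]
        funext c
        exact hc c
      · intro Q hQ h
        show fibreB_g b hk hm Q 4 = _
        rw [fibreB_g_t b hk hm Q (fibreB_t_ne hk hm Q hQ)]
        refine fibreB_mk_eq _ _ ?_
        have h0 := congrFun (hX Q) 0
        have h1 := congrFun (hX Q) 1
        rw [h0, h1]
        ring
  · rintro P ⟨hP, hPb⟩
    have hE := (mem_surf_iff (hasCoords_rep P)).mp hP
    obtain ⟨E0, E1, E2⟩ := hE
    simp only [] at E0 E1 E2
    rw [hPb] at E1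
    have hr := fibreB_ne (P 2).rep_nonzero
    have hG : evalAt (fibreB_f P)
        (fibreB_G (b.rep 0 * b.rep 0 - b.rep 1 * b.rep 1) (b.rep 0 * b.rep 1)) = 0 := by
      rw [fibreB_evalAt_G]
      simp only [fibreB_f, Matrix.cons_val_zero, Matrix.cons_val_one]
      rcases hr with h | h
      · refine (mul_eq_zero.mp ?_).resolve_left h
        linear_combination ((b.rep 0 * b.rep 0 - b.rep 1 * b.rep 1) * (P 3).rep 0) * E0 -
          ((P 3).rep 1 * ((P 0).rep 0 * (P 0).rep 0 - (P 0).rep 1 * (P 0).rep 1)) * E1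
      · refine (mul_eq_zero.mp ?_).resolve_left h
        linear_combination (b.rep 0 * b.rep 1 * (P 3).rep 1) * E0 -
          ((P 3).rep 0 * ((P 0).rep 0 * (P 0).rep 1)) * E1
    refine ⟨hG, ?_⟩
    funext i
    fin_cases i
    · rfl
    · exact hPb.symm
    · show Projectivization.mk ℂ (fibreB_r _ _ _) _ = P 2
      rw [← Projectivization.mk_rep (P 2)]
      refine fibreB_mk_eq _ _ ?_
      simp only [fibreB_r, fibreB_f, Matrix.cons_val_zero, Matrix.cons_val_one]
      linear_combination -E1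
    · rfl
    · show fibreB_g b hk hm (fibreB_f P) 4 = P 4
      rw [fibreB_g_t b hk hm _ (fibreB_t_ne hk hm _ hG)]
      rw [← Projectivization.mk_rep (P 4)]
      refine fibreB_mk_eq _ _ ?_
      simp only [fibreB_t, fibreB_f, Matrix.cons_val_zero, Matrix.cons_val_one]
      linear_combination -E2
  · intro Q hQ
    refine ⟨⟨?_, rfl⟩, ?_⟩
    · have hc : HasCoords (fibreB_g b hk hm Q) ![(Q 0).rep, b.rep,
          fibreB_r (b.rep 0 * b.rep 0 - b.rep 1 * b.rep 1) (b.rep 0 * b.rep 1) Q,
          (Q 1).rep, fibreB_t Q] := by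
        intro i
        fin_cases i
        · exact ⟨(Q 0).rep_nonzero, (Projectivization.mk_rep _).symm⟩
        · exact ⟨b.rep_nonzero, (Projectivization.mk_rep _).symm⟩
        · exact ⟨fibreB_r_ne hk hm Q, rfl⟩
        · exact ⟨(Q 1).rep_nonzero, (Projectivization.mk_rep _).symm⟩
        · exact ⟨fibreB_t_ne hk hm Q hQ, fibreB_g_t b hk hm Q _⟩
      rw [mem_surf_iff hc]
      have hQ' : evalAt Q
        (fibreB_G (b.rep 0 * b.rep 0 - b.rep 1 * b.rep 1) (b.rep 0 * b.rep 1)) = 0 := hQ
      rw [fibreB_evalAt_G] at hQ'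
      refine ⟨?_, ?_, ?_⟩
      · simp [fibreB_r, fibreB_t]
        linear_combination hQ'
      · simp [fibreB_r, fibreB_t]
        ring
      · simp [fibreB_r, fibreB_t]
        ring
    · funext i
      fin_cases i
      · rfl
      · rfl

end Pool.Agent.Lib.MP_33f69e_ag
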