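import Mathlib
import Pool.Agent.Lib.MP_33f69e_ag.Basic
import Pool.Agent.Lib.MP_33f69e_ag.FibreB

/-!
# The fibres of the projection to the `y`-line
-/

namespace Pool.Agent.Lib.MP_33f69e_ag

open MvPolynomial

theorem surf_surjective : ∀ b : PLine, ∃ P ∈ surf.points, P 1 = b := by
  intro b
  let z : Fin 5 → Fin 2 → ℂ := ![![1, 1], b.rep, ![0, 1], ![0, 1], ![1, 0]]
  have hz : ∀ i, z i ≠ 0 := by
    intro i
    fin_cases i
    · intro h
      have := congrFun h 0
      simp [z] at this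
    · exact b.rep_nonzero
    · intro h
      have := congrFun h 1
      simp [z] at this
    · intro h
      have := congrFun h 1
      simp [z] at this
    · intro h
      have := congrFun h 0
      simp [z] at this
  let P : PPow 5 := fun i => Projectivization.mk ℂ (z i) (hz i)
  have hP : HasCoords P z := fun i => ⟨hz i, rfl⟩
  refine ⟨P, (mem_surf_iff hP).2 ?_, ?_⟩
  · refine ⟨?_, ?_, ?_⟩ <;> simp [z]
  · exact b.mk_rep

/-- the linear algebra of the Jacobian criterion on a general fibre -/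
theorem fibreA_aux {x0 x1 y0 y1 r0 r1 s0 s1 t0 t1 : ℂ} (hb0 : y0 ≠ 0) (hb1 : y1 ≠ 0)
    (hb2 : y0 * y0 - y1 * y1 ≠ 0) (n0 : ¬(x0 = 0 ∧ x1 = 0)) (n2 : ¬(r0 = 0 ∧ r1 = 0))
    (n3 : ¬(s0 = 0 ∧ s1 = 0))
    (e0 : r0 * s0 * x0 * x1 = r1 * s1 * (x0 * x0 - x1 * x1))
    (e1 : r0 * s1 * y0 * y1 = r1 * s0 * (y0 * y0 - y1 * y1))
    (g : Fin 3 → ℂ)
    (c00 : g 0 * (x1 * (r0 * s0) - r1 * s1 * (x0 + x0)) + g 2 * (t0 * s0 - (s0 - s1) * t1) = 0)
    (c01 : g 0 * (r0 * s0 * x0 - r1 * s1 * (-x1 + -x1)) +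
      g 2 * ((s0 - s1) * (t1 * Complex.I)) = 0)
    (c20 : g 0 * (x1 * (x0 * s0)) + g 1 * (y1 * (y0 * s1)) = 0)
    (c21 : -(g 0 * ((x0 * x0 - x1 * x1) * s1)) + -(g 1 * ((y0 * y0 - y1 * y1) * s0)) = 0)
    (c30 : g 0 * (x1 * (x0 * r0)) + -(g 1 * ((y0 * y0 - y1 * y1) * r1)) +
      g 2 * (x0 * t0 - t1 * (x0 - Complex.I * x1)) = 0)
    (c40 : g 2 = 0 ∨ x0 = 0 ∨ s0 = 0)
    (c41 : g 2 = 0 ∨ s0 - s1 = 0 ∨ x0 - Complex.I * x1 = 0) :
    ∀ i : Fin 3, g i = 0 := by
  have hrs : ¬ (r0 * s0 = 0 ∧ r1 * s1 = 0) := by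
    rintro ⟨h1, h2⟩
    rcases mul_eq_zero.1 h1 with h | h
    · have hr1 : r1 ≠ 0 := fun h' => n2 ⟨h, h'⟩
      have hs1 : s1 = 0 := (mul_eq_zero.1 h2).resolve_left hr1
      have hs0 : s0 ≠ 0 := fun h' => n3 ⟨h', hs1⟩
      rw [h, hs1] at e1
      apply hb2
      have : r1 * s0 * (y0 * y0 - y1 * y1) = 0 := by linear_combination -e1
      exact (mul_eq_zero.1 this).resolve_left (mul_ne_zero hr1 hs0)
    · have hs1 : s1 ≠ 0 := fun h' => n3 ⟨h, h'⟩
      have hr1 : r1 = 0 := (mul_eq_zero.1 h2).resolve_right hs1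
      have hr0 : r0 ≠ 0 := fun h' => n2 ⟨h', hr1⟩
      rw [h, hr1] at e1
      have : r0 * s1 * (y0 * y1) = 0 := by linear_combination e1
      exact mul_ne_zero (mul_ne_zero hr0 hs1) (mul_ne_zero hb0 hb1) this
  have hg2 : g 2 = 0 := by
    by_contra hne
    have d0 := c40.resolve_left hne
    have d1 := c41.resolve_left hne
    have hr1s : r1 = 0 ∧ s1 ≠ 0 := by
      rcases d0 with hx | hs
      · have hx1 : x1 ≠ 0 := fun h' => n0 ⟨hx, h'⟩
        have hss : s0 - s1 = 0 := by
          rcases d1 with h | h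
          · exact h
          · exfalso
            rw [hx] at h
            have : Complex.I * x1 = 0 := by linear_combination -h
            exact mul_ne_zero Complex.I_ne_zero hx1 this
        have hs1 : s1 ≠ 0 := by
          intro h'
          exact n3 ⟨by linear_combination hss + h', h'⟩
        refine ⟨?_, hs1⟩
        rw [hx] at e0
        have : r1 * (s1 * (x1 * x1)) = 0 := by linear_combination e0
        exact (mul_eq_zero.1 this).resolve_right (mul_ne_zero hs1 (mul_ne_zero hx1 hx1))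
      · have hs1 : s1 ≠ 0 := fun h' => n3 ⟨hs, h'⟩
        refine ⟨?_, hs1⟩
        have hx : x0 - Complex.I * x1 = 0 := by
          rcases d1 with h | h
          · exfalso
            apply hs1
            linear_combination hs - h
          · exact h
        have hx0 : x0 = Complex.I * x1 := by linear_combination hx
        have hx1 : x1 ≠ 0 := by
          intro h'
          exact n0 ⟨by rw [hx0, h', mul_zero], h'⟩
        rw [hx0, hs] at e0
        have : r1 * (s1 * (x1 * x1)) = 0 := by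
          linear_combination (1 / 2 : ℂ) * e0 + (1 / 2 : ℂ) * r1 * s1 * x1 * x1 * Complex.I_sq
        exact (mul_eq_zero.1 this).resolve_right (mul_ne_zero hs1 (mul_ne_zero hx1 hx1))
    obtain ⟨hr1, hs1⟩ := hr1s
    have hr0 : r0 ≠ 0 := fun h' => n2 ⟨h', hr1⟩
    rw [hr1] at e1
    have : r0 * s1 * (y0 * y1) = 0 := by linear_combination e1
    exact mul_ne_zero (mul_ne_zero hr0 hs1) (mul_ne_zero hb0 hb1) this
  have hg0 : g 0 = 0 := by
    by_contra hne
    rw [hg2] at c00 c01
    have f0 : x1 * (r0 * s0) - r1 * s1 * (x0 + x0) = 0 := by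
      have : g 0 * (x1 * (r0 * s0) - r1 * s1 * (x0 + x0)) = 0 := by linear_combination c00
      exact (mul_eq_zero.1 this).resolve_left hne
    have f1 : r0 * s0 * x0 + 2 * (r1 * s1 * x1) = 0 := by
      have : g 0 * (r0 * s0 * x0 + 2 * (r1 * s1 * x1)) = 0 := by linear_combination c01
      exact (mul_eq_zero.1 this).resolve_left hne
    have k1 : g 1 * (r1 * s0 * (y0 * y0 - y1 * y1)) = 0 := by
      rw [hg2] at c30
      linear_combination (1 / 2 : ℂ) * (r0 * c20 - s0 * c30 - g 1 * e1)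
    have k2 : r1 * s1 * (x0 * x0 - x1 * x1) = 0 := by
      have : g 0 * (r1 * s1 * (x0 * x0 - x1 * x1)) = 0 := by
        linear_combination -r1 * c21 - k1
      exact (mul_eq_zero.1 this).resolve_left hne
    have k3 : r0 * s0 * (x0 * x1) = 0 := by linear_combination e0 + k2
    apply hrs
    have q1 : r0 * s0 * (x0 * x0 + x1 * x1) = 0 := by linear_combination x1 * f0 + x0 * f1
    have q2 : r1 * s1 * (x0 * x0 + x1 * x1) = 0 := by
      linear_combination (1 / 2 : ℂ) * (x1 * f1 - x0 * f0)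
    by_cases hq : x0 * x0 + x1 * x1 = 0
    · have hx1 : x1 ≠ 0 := by
        intro h'
        rw [h'] at hq
        have : x0 * x0 = 0 := by linear_combination hq
        exact n0 ⟨mul_self_eq_zero.1 this, h'⟩
      have hx0 : x0 ≠ 0 := by
        intro h'
        rw [h'] at hq
        have : x1 * x1 = 0 := by linear_combination hq
        exact hx1 (mul_self_eq_zero.1 this)
      constructor
      · exact (mul_eq_zero.1 k3).resolve_right (mul_ne_zero hx0 hx1)
      · have : r1 * s1 * (x1 * x1) = 0 := by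
          linear_combination (-1 / 2 : ℂ) * k2 + (1 / 2 : ℂ) * r1 * s1 * hq
        exact (mul_eq_zero.1 this).resolve_right (mul_ne_zero hx1 hx1)
    · exact ⟨(mul_eq_zero.1 q1).resolve_right hq, (mul_eq_zero.1 q2).resolve_right hq⟩
  have hg1 : g 1 = 0 := by
    by_contra hne
    rw [hg0] at c20 c21
    apply n3
    constructor
    · have : g 1 * (y0 * y0 - y1 * y1) * s0 = 0 := by linear_combination -c21
      exact (mul_eq_zero.1 this).resolve_left (mul_ne_zero hne hb2)
    · have : g 1 * (y0 * y1) * s1 = 0 := by linear_combination c20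
      exact (mul_eq_zero.1 this).resolve_left (mul_ne_zero hne (mul_ne_zero hb0 hb1))
  intro i
  fin_cases i
  · exact hg0
  · exact hg1
  · exact hg2

/-- the general fibre is smooth as a scheme -/
theorem surf_fibre_smooth (b : PLine) (hb0 : b.rep 0 ≠ 0) (hb1 : b.rep 1 ≠ 0)
    (hb2 : b.rep 0 * b.rep 0 - b.rep 1 * b.rep 1 ≠ 0) (P : PPow 5) (hP : P ∈ surf.points)
    (hPb : P 1 = b) : LinearIndependent ℂ
      (fun (j : Fin 3) (a : {a : Fin 5 × Fin 2 // a.1 ≠ 1}) =>
        evalAt P (pderiv (a : Fin 5 × Fin 2) (surf.F j))) := by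
  obtain ⟨e0, e1, e2⟩ := (mem_surf_iff (hasCoords_rep P)).1 hP
  rw [← hPb] at hb0 hb1 hb2
  have nz : ∀ i : Fin 5, ¬ ((P i).rep 0 = 0 ∧ (P i).rep 1 = 0) := by
    rintro i ⟨h0, h1⟩
    apply (P i).rep_nonzero
    funext j
    fin_cases j
    · exact h0
    · exact h1
  have n0 := nz 0
  have n2 := nz 2
  have n3 := nz 3
  rw [Fintype.linearIndependent_iff]
  intro g hg
  have hc : ∀ a : Fin 5 × Fin 2, a.1 ≠ 1 → g 0 * evalAt P (pderiv a F0) +
      g 1 * evalAt P (pderiv a F1) + g 2 * evalAt P (pderiv a F2) = 0 := by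
    intro a ha
    have := congrFun hg ⟨a, ha⟩
    rw [Fin.sum_univ_three] at this
    simpa [surf] using this
  have c00 := hc (0, 0) (by decide)
  have c01 := hc (0, 1) (by decide)
  have c20 := hc (2, 0) (by decide)
  have c21 := hc (2, 1) (by decide)
  have c30 := hc (3, 0) (by decide)
  have c40 := hc (4, 0) (by decide)
  have c41 := hc (4, 1) (by decide)
  simp [evalAt, F0, F1, F2, pderiv_X] at c00 c01 c20 c21 c30 c40 c41
  dsimp only at e0 e1 e2
  exact fibreA_aux hb0 hb1 hb2 n0 n2 n3 e0 e1 g c00 c01 c20 c21 c30 c40 c41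

/-- the excluded points form a finite set -/
theorem finite_excluded : {b : PLine | b.rep 0 = 0 ∨ b.rep 1 = 0 ∨
    b.rep 0 * b.rep 0 - b.rep 1 * b.rep 1 = 0}.Finite := by
  have h01 : (![0, 1] : Fin 2 → ℂ) ≠ 0 := fun h => by simpa using congrFun h 1
  have h10 : (![1, 0] : Fin 2 → ℂ) ≠ 0 := fun h => by simpa using congrFun h 0
  have h11 : (![1, 1] : Fin 2 → ℂ) ≠ 0 := fun h => by simpa using congrFun h 0
  have h1m : (![1, -1] : Fin 2 → ℂ) ≠ 0 := fun h => by simpa using congrFun h 0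
  have key : ∀ (b : PLine) (w : Fin 2 → ℂ) (hw : w ≠ 0) (c : ℂ), c * w 0 = b.rep 0 →
      c * w 1 = b.rep 1 → b = Projectivization.mk ℂ w hw := by
    intro b w hw c h0 h1
    rw [← b.mk_rep]
    refine (Projectivization.mk_eq_mk_iff' ℂ _ _ _ _).2 ⟨c, ?_⟩
    funext j
    fin_cases j
    · exact h0
    · exact h1
  refine Set.Finite.subset (s := {Projectivization.mk ℂ _ h01, Projectivization.mk ℂ _ h10,
    Projectivization.mk ℂ _ h11, Projectivization.mk ℂ _ h1m}) (by simp) ?_
  rintro b (h | h | h)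
  · left
    exact key b _ h01 (b.rep 1) (by simp [h]) (by simp)
  · right; left
    exact key b _ h10 (b.rep 0) (by simp) (by simp [h])
  · right; right
    have h' : (b.rep 0 - b.rep 1) * (b.rep 0 + b.rep 1) = 0 := by linear_combination h
    rcases mul_eq_zero.1 h' with h2 | h2
    · left
      exact key b _ h11 (b.rep 0) (by simp) (by simp; linear_combination h2)
    · right
      exact key b _ h1m (b.rep 0) (by simp) (by simp; linear_combination -h2)

end Pool.Agent.Lib.MP_33f69e_ag
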