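import Mathlib
import Pool.Agent.Lib.MP_33f69e_ag.Val

/-!
# Passing to the normalisation of the image, by Lueroth's theorem
-/

namespace Pool.Agent.Lib.MP_33f69e_ag

open Polynomial IntermediateField

theorem HasVal.aeval_of {u : ℂ} {h : RatFunc ℂ} {w : ℂ} (hw : HasVal u h w) (P : ℂ[X]) :
    HasVal u (aeval h P) (P.eval w) := by
  induction P using Polynomial.induction_on' with
  | add p q hp hq =>
    simpa only [map_add, eval_add] using hp.add hq
  | monomial n a =>
    have h1 : aeval h (monomial n a) = RatFunc.C a * h ^ n := by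
      rw [aeval_monomial, RatFunc.algebraMap_eq_C]
    rw [h1, eval_monomial]
    exact (HasVal.C u a).mul (hw.pow n)

theorem HasVal.comp_of {u : ℂ} {h : RatFunc ℂ} {w v : ℂ} (hw : HasVal u h w)
    (hT : Transcendental ℂ h) (F : RatFunc ℂ)
    (hF : HasVal u (aeval h F.num / aeval h F.denom) v) : HasVal w F v := by
  have hd0 : aeval h F.denom ≠ 0 := by
    intro h0
    exact hT ⟨F.denom, F.denom_ne_zero, h0⟩
  have h1 := hF.mul (hw.aeval_of F.denom)
  rw [div_mul_cancel₀ _ hd0] at h1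
  have h2 := (hw.aeval_of F.num).unique h1
  have h3 : F.denom.eval w ≠ 0 := by
    intro h0
    obtain ⟨b, c, hbc⟩ := F.isCoprime_num_denom
    have := congrArg (Polynomial.eval w) hbc
    simp [h2, h0] at this
  refine (HasVal.of_eval F h3).congr_val ?_
  rw [h2]
  field_simp

theorem lueroth_reduce (x y s z : RatFunc ℂ) (hs : s ≠ 0)
    (hz : z ∈ adjoin ℂ ({x, y, s} : Set (RatFunc ℂ))) (A : Finset ℂ) (hA : A.Nonempty) (ζ : ℂ → ℂ)
    (hval : ∀ u ∈ A, HasVal u x Complex.I ∧ HasVal u s 0 ∧ HasVal u z (ζ u)) :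
    ∃ (e : RatFunc ℂ →ₐ[ℂ] RatFunc ℂ) (x' y' s' : RatFunc ℂ) (T : Finset ℂ),
      e x' = x ∧ e y' = y ∧ e s' = s ∧ adjoin ℂ ({x', y', s'} : Set (RatFunc ℂ)) = ⊤ ∧
      (A.image ζ).card ≤ T.card ∧ ∀ w ∈ T, HasVal w x' Complex.I ∧ HasVal w s' 0 := by
  classical
  set E : IntermediateField ℂ (RatFunc ℂ) := adjoin ℂ ({x, y, s} : Set (RatFunc ℂ)) with hEdef
  have hxE : x ∈ E := subset_adjoin ℂ _ (by simp)
  have hyE : y ∈ E := subset_adjoin ℂ _ (by simp)
  have hsE : s ∈ E := subset_adjoin ℂ _ (by simp)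
  have hE : E ≠ ⊥ := by
    intro h
    rw [h] at hsE
    obtain ⟨c, hc⟩ := IntermediateField.mem_bot.mp hsE
    obtain ⟨u, hu⟩ := hA
    have h1 := (hval u hu).2.1
    have h2 : HasVal u s c := by
      rw [← hc, RatFunc.algebraMap_eq_C]
      exact HasVal.C u c
    have h3 := h2.unique h1
    apply hs
    rw [← hc, h3, map_zero]
  set h : RatFunc ℂ := RatFunc.Luroth.generator E with hh
  have hEh : E = ℂ⟮h⟯ := RatFunc.Luroth.eq_adjoin_generator
  obtain ⟨a, ha⟩ := Infinite.exists_notMem_finset (A.image fun u => h.num.eval u / h.denom.eval u)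
  have hq : ∀ u ∈ A, (h.num - Polynomial.C a * h.denom).eval u ≠ 0 := by
    intro u hu h0
    simp only [eval_sub, eval_mul, eval_C] at h0
    by_cases hd : h.denom.eval u = 0
    · obtain ⟨b, c, hbc⟩ := h.isCoprime_num_denom
      have := congrArg (Polynomial.eval u) hbc
      rw [hd, mul_zero, sub_zero] at h0
      simp [hd, h0] at this
    · apply ha
      rw [Finset.mem_image]
      refine ⟨u, hu, ?_⟩
      rw [div_eq_iff hd]
      exact sub_eq_zero.mp h0
  have hneC : ¬ ∃ c, h = RatFunc.C c := RatFunc.Luroth.generator_ne_C hE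
  have hha : h - RatFunc.C a ≠ 0 := by
    intro h0
    exact hneC ⟨a, sub_eq_zero.mp h0⟩
  set h1 : RatFunc ℂ := (h - RatFunc.C a)⁻¹ with hh1
  have hhinv : h = h1⁻¹ + RatFunc.C a := by
    rw [hh1, inv_inv]; ring
  have hneC1 : ¬ ∃ c, h1 = RatFunc.C c := by
    rintro ⟨c, hc⟩
    apply hneC
    refine ⟨c⁻¹ + a, ?_⟩
    rw [hhinv, hc, map_add, map_inv₀]
  have hT : Transcendental ℂ h1 := h1.transcendental_of_ne_C hneC1
  have hCmem : ∀ (F : IntermediateField ℂ (RatFunc ℂ)) (c : ℂ), RatFunc.C c ∈ F := by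
    intro F c
    rw [← RatFunc.algebraMap_eq_C]
    exact F.algebraMap_mem c
  have hE1 : ℂ⟮h1⟯ = E := by
    apply le_antisymm
    · rw [adjoin_simple_le_iff, hh1]
      exact E.inv_mem (E.sub_mem RatFunc.Luroth.generator_mem (hCmem E a))
    · rw [hEh, adjoin_simple_le_iff, hhinv]
      exact (ℂ⟮h1⟯).add_mem ((ℂ⟮h1⟯).inv_mem (mem_adjoin_simple_self ℂ h1)) (hCmem _ a)
  set e0 := RatFunc.algEquivOfTranscendental h1 hT with he0
  let e : RatFunc ℂ →ₐ[ℂ] RatFunc ℂ := (ℂ⟮h1⟯).val.comp e0.toAlgHom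
  have he : ∀ F, e F = aeval h1 F.num / aeval h1 F.denom := by
    intro F
    exact RatFunc.algEquivOfTranscendental_apply h1 hT F
  have hsurj : ∀ g ∈ E, ∃ g', e g' = g := by
    intro g hg
    rw [← hE1] at hg
    refine ⟨e0.symm ⟨g, hg⟩, ?_⟩
    change ((e0 (e0.symm ⟨g, hg⟩) : ℂ⟮h1⟯) : RatFunc ℂ) = g
    rw [AlgEquiv.apply_symm_apply]
  obtain ⟨x', hx'⟩ := hsurj x hxE
  obtain ⟨y', hy'⟩ := hsurj y hyE
  obtain ⟨s', hs'⟩ := hsurj s hsE
  obtain ⟨z', hz'⟩ := hsurj z hz
  have hval1 : ∀ u ∈ A, HasVal u h1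
      (h.denom.eval u / (h.num - Polynomial.C a * h.denom).eval u) := by
    intro u hu
    refine ⟨h.denom, h.num - Polynomial.C a * h.denom, hq u hu, ?_, ?_⟩
    · have hd' : algebraMap ℂ[X] (RatFunc ℂ) h.denom ≠ 0 := by
        intro h
        exact RatFunc.denom_ne_zero _ (RatFunc.algebraMap_injective ℂ (by simpa using h))
      have h4 := RatFunc.num_div_denom h
      rw [div_eq_iff hd'] at h4
      rw [map_sub, map_mul, h4, RatFunc.algebraMap_C, hh1]
      field_simp
    · rw [div_mul_cancel₀ _ (hq u hu)]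
  set wf : ℂ → ℂ := fun u => h.denom.eval u / (h.num - Polynomial.C a * h.denom).eval u with hwf
  have htrans : ∀ u ∈ A, ∀ F v, HasVal u (e F) v → HasVal (wf u) F v := by
    intro u hu F v hv
    rw [he] at hv
    exact (hval1 u hu).comp_of hT F hv
  refine ⟨e, x', y', s', A.image wf, hx', hy', hs', ?_, ?_, ?_⟩
  · apply IntermediateField.map_injective e
    rw [IntermediateField.adjoin_map]
    have h2 : (e : RatFunc ℂ → RatFunc ℂ) '' {x', y', s'} = {x, y, s} := by
      rw [Set.image_insert_eq, Set.image_insert_eq, Set.image_singleton, hx', hy', hs']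
    rw [h2, ← hEdef]
    ext g
    rw [IntermediateField.mem_map]
    constructor
    · intro hg
      obtain ⟨g', hg'⟩ := hsurj g hg
      exact ⟨g', trivial, hg'⟩
    · rintro ⟨g', -, rfl⟩
      rw [← hE1]
      exact (e0 g').2
  · have hsub : A.image ζ ⊆ (A.image wf).image fun w => z'.num.eval w / z'.denom.eval w := by
      intro v hv
      rw [Finset.mem_image] at hv
      obtain ⟨u, hu, rfl⟩ := hv
      rw [Finset.mem_image]
      refine ⟨wf u, Finset.mem_image_of_mem _ hu, ?_⟩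
      have h5 : HasVal (wf u) z' (ζ u) := htrans u hu z' (ζ u) (by rw [hz']; exact (hval u hu).2.2)
      rw [h5.num_eval, mul_div_cancel_right₀ _ h5.denom_ne_zero]
    exact (Finset.card_le_card hsub).trans Finset.card_image_le
  · intro w hw
    rw [Finset.mem_image] at hw
    obtain ⟨u, hu, rfl⟩ := hw
    obtain ⟨h5, h6, -⟩ := hval u hu
    exact ⟨htrans u hu x' _ (by rw [hx']; exact h5), htrans u hu s' _ (by rw [hs']; exact h6)⟩

end Pool.Agent.Lib.MP_33f69e_ag
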