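import Mathlib
import Pool.Agent.Lib.MP_33f69e_ag.Basic

/-!
# The surface is smooth
-/

namespace Pool.Agent.Lib.MP_33f69e_ag

open MvPolynomial

/-- two numbers with vanishing product and vanishing difference of squares -/
private theorem smooth_aux {a b : ℂ} (h : a * b = 0) (h' : a * a - b * b = 0) :
    a = 0 ∧ b = 0 := by
  rcases mul_eq_zero.1 h with h1 | h1
  · subst h1
    refine ⟨rfl, ?_⟩
    have : b * b = 0 := by linear_combination -h'
    exact mul_self_eq_zero.1 this
  · subst h1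
    refine ⟨?_, rfl⟩
    have : a * a = 0 := by linear_combination h'
    exact mul_self_eq_zero.1 this

/-- `u x1 = 2 v x0`, `u x0 = - 2 v x1`, `u x0 x1 = 0` imply `u = v = 0`. -/
private theorem smooth_aux2 {u v a b : ℂ} (hab : ¬ (a = 0 ∧ b = 0)) (h1 : u * b - 2 * v * a = 0)
    (h2 : u * a + 2 * v * b = 0) (h3 : u * (a * b) = 0) : u = 0 ∧ v = 0 := by
  have e1 : v * (a * a) = 0 := by linear_combination (h3 - a * h1) / 2
  have e2 : v * (b * b) = 0 := by linear_combination (b * h2 - h3) / 2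
  have hv : v = 0 := by
    by_contra hv
    have f1 := (mul_eq_zero.1 e1).resolve_left hv
    have f2 := (mul_eq_zero.1 e2).resolve_left hv
    exact hab ⟨mul_self_eq_zero.1 f1, mul_self_eq_zero.1 f2⟩
  subst hv
  refine ⟨?_, rfl⟩
  by_contra hu
  apply hab
  have g1 : u * b = 0 := by linear_combination h1
  have g2 : u * a = 0 := by linear_combination h2
  exact ⟨(mul_eq_zero.1 g2).resolve_left hu, (mul_eq_zero.1 g1).resolve_left hu⟩

private theorem smooth_caseA {x0 x1 y0 y1 r0 r1 s0 s1 al be : ℂ}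
    (hx : ¬ (x0 = 0 ∧ x1 = 0)) (hy : ¬ (y0 = 0 ∧ y1 = 0)) (hr : ¬ (r0 = 0 ∧ r1 = 0))
    (hs : ¬ (s0 = 0 ∧ s1 = 0))
    (E0 : r0 * s0 * x0 * x1 = r1 * s1 * (x0 * x0 - x1 * x1))
    (E1 : r0 * s1 * y0 * y1 = r1 * s0 * (y0 * y0 - y1 * y1))
    (cx0 : al * (r0 * s0 * x1 - 2 * r1 * s1 * x0) = 0)
    (cx1 : al * (r0 * s0 * x0 + 2 * r1 * s1 * x1) = 0)
    (cy0 : be * (r0 * s1 * y1 - 2 * r1 * s0 * y0) = 0)
    (cy1 : be * (r0 * s1 * y0 + 2 * r1 * s0 * y1) = 0)
    (cr0 : al * (s0 * x0 * x1) + be * (s1 * y0 * y1) = 0)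
    (cr1 : al * (s1 * (x0 * x0 - x1 * x1)) + be * (s0 * (y0 * y0 - y1 * y1)) = 0)
    (cs0 : al * (r0 * x0 * x1) - be * (r1 * (y0 * y0 - y1 * y1)) = 0)
    (cs1 : al * (r1 * (x0 * x0 - x1 * x1)) - be * (r0 * y0 * y1) = 0) :
    al = 0 ∧ be = 0 := by
  have k1 : be * (r1 * s0 * (y0 * y0 - y1 * y1)) = 0 := by
    linear_combination (r0 * cr0 - s0 * cs0 - be * E1) / 2
  have k2 : al * (r0 * s0 * x0 * x1) = 0 := by
    linear_combination s0 * cs0 + k1
  have hal : al = 0 := by
    by_contra hal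
    have a1 : r0 * s0 * (x0 * x1) = 0 := by
      have := (mul_eq_zero.1 k2).resolve_left hal
      linear_combination this
    have a2 : r0 * s0 * x1 - 2 * (r1 * s1) * x0 = 0 := by
      have := (mul_eq_zero.1 cx0).resolve_left hal
      linear_combination this
    have a3 : r0 * s0 * x0 + 2 * (r1 * s1) * x1 = 0 := by
      have := (mul_eq_zero.1 cx1).resolve_left hal
      linear_combination this
    obtain ⟨b1, b2⟩ := smooth_aux2 hx a2 a3 a1
    rcases mul_eq_zero.1 b1 with h | h
    · -- r0 = 0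
      subst h
      have hr1 : r1 ≠ 0 := fun h => hr ⟨rfl, h⟩
      have hs1 : s1 = 0 := (mul_eq_zero.1 b2).resolve_left hr1
      subst hs1
      have hs0 : s0 ≠ 0 := fun h => hs ⟨h, rfl⟩
      apply hx
      apply smooth_aux
      · have : (al * s0) * (x0 * x1) = 0 := by linear_combination cr0
        exact (mul_eq_zero.1 this).resolve_left (mul_ne_zero hal hs0)
      · have : (al * r1) * (x0 * x0 - x1 * x1) = 0 := by linear_combination cs1
        exact (mul_eq_zero.1 this).resolve_left (mul_ne_zero hal hr1)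
    · -- s0 = 0
      subst h
      have hs1 : s1 ≠ 0 := fun h => hs ⟨rfl, h⟩
      have hr1 : r1 = 0 := (mul_eq_zero.1 b2).resolve_right hs1
      subst hr1
      have hr0 : r0 ≠ 0 := fun h => hr ⟨h, rfl⟩
      apply hx
      apply smooth_aux
      · have : (al * r0) * (x0 * x1) = 0 := by linear_combination cs0
        exact (mul_eq_zero.1 this).resolve_left (mul_ne_zero hal hr0)
      · have : (al * s1) * (x0 * x0 - x1 * x1) = 0 := by linear_combination cr1
        exact (mul_eq_zero.1 this).resolve_left (mul_ne_zero hal hs1)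
  refine ⟨hal, ?_⟩
  subst hal
  by_contra hbe
  have k3 : be * (r0 * s1 * y0 * y1) = 0 := by
    linear_combination k1 + be * E1
  have a1 : r0 * s1 * (y0 * y1) = 0 := by
    have := (mul_eq_zero.1 k3).resolve_left hbe
    linear_combination this
  have a2 : r0 * s1 * y1 - 2 * (r1 * s0) * y0 = 0 := by
    have := (mul_eq_zero.1 cy0).resolve_left hbe
    linear_combination this
  have a3 : r0 * s1 * y0 + 2 * (r1 * s0) * y1 = 0 := by
    have := (mul_eq_zero.1 cy1).resolve_left hbe
    linear_combination this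
  obtain ⟨b1, b2⟩ := smooth_aux2 hy a2 a3 a1
  rcases mul_eq_zero.1 b1 with h | h
  · -- r0 = 0
    subst h
    have hr1 : r1 ≠ 0 := fun h => hr ⟨rfl, h⟩
    have hs0 : s0 = 0 := (mul_eq_zero.1 b2).resolve_left hr1
    subst hs0
    have hs1 : s1 ≠ 0 := fun h => hs ⟨rfl, h⟩
    apply hy
    apply smooth_aux
    · have : (be * s1) * (y0 * y1) = 0 := by linear_combination cr0
      exact (mul_eq_zero.1 this).resolve_left (mul_ne_zero hbe hs1)
    · have : (be * r1) * (y0 * y0 - y1 * y1) = 0 := by linear_combination -cs0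
      exact (mul_eq_zero.1 this).resolve_left (mul_ne_zero hbe hr1)
  · -- s1 = 0
    subst h
    have hs0 : s0 ≠ 0 := fun h => hs ⟨h, rfl⟩
    have hr1 : r1 = 0 := (mul_eq_zero.1 b2).resolve_right hs0
    subst hr1
    have hr0 : r0 ≠ 0 := fun h => hr ⟨h, rfl⟩
    apply hy
    apply smooth_aux
    · have : (be * r0) * (y0 * y1) = 0 := by linear_combination -cs1
      exact (mul_eq_zero.1 this).resolve_left (mul_ne_zero hbe hr0)
    · have : (be * s0) * (y0 * y0 - y1 * y1) = 0 := by linear_combination cr1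
      exact (mul_eq_zero.1 this).resolve_left (mul_ne_zero hbe hs0)

private theorem smooth_caseB {x0 x1 y0 y1 r0 r1 s0 s1 t0 t1 al be ga : ℂ}
    (hx : ¬ (x0 = 0 ∧ x1 = 0)) (hy : ¬ (y0 = 0 ∧ y1 = 0)) (hr : ¬ (r0 = 0 ∧ r1 = 0))
    (hs : ¬ (s0 = 0 ∧ s1 = 0)) (ht : ¬ (t0 = 0 ∧ t1 = 0))
    (E0 : r0 * s0 * x0 * x1 = r1 * s1 * (x0 * x0 - x1 * x1))
    (cx0 : al * (r0 * s0 * x1 - 2 * r1 * s1 * x0) + ga * (t0 * s0 - t1 * (s0 - s1)) = 0)
    (cx1 : al * (r0 * s0 * x0 + 2 * r1 * s1 * x1) + ga * (Complex.I * t1 * (s0 - s1)) = 0)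
    (cy0 : be * (r0 * s1 * y1 - 2 * r1 * s0 * y0) = 0)
    (cy1 : be * (r0 * s1 * y0 + 2 * r1 * s0 * y1) = 0)
    (cr1 : al * (s1 * (x0 * x0 - x1 * x1)) + be * (s0 * (y0 * y0 - y1 * y1)) = 0)
    (cs0 : al * (r0 * x0 * x1) - be * (r1 * (y0 * y0 - y1 * y1)) +
      ga * (t0 * x0 - t1 * (x0 - Complex.I * x1)) = 0)
    (cs1 : -(al * (r1 * (x0 * x0 - x1 * x1))) + be * (r0 * y0 * y1) +
      ga * (t1 * (x0 - Complex.I * x1)) = 0)
    (ct0 : ga * (s0 * x0) = 0) (ct1 : ga * ((x0 - Complex.I * x1) * (s0 - s1)) = 0) : ga = 0 := by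
  by_contra hga
  have d0 := (mul_eq_zero.1 ct0).resolve_left hga
  have d1 := (mul_eq_zero.1 ct1).resolve_left hga
  have hy' : ∀ w : ℂ, w ≠ 0 → be * (w * y1) = 0 → be * (w * y0) = 0 → be = 0 := by
    intro w hw h1 h2
    by_contra hbe
    apply hy
    have e1 := (mul_eq_zero.1 h1).resolve_left hbe
    have e2 := (mul_eq_zero.1 h2).resolve_left hbe
    exact ⟨(mul_eq_zero.1 e2).resolve_left hw, (mul_eq_zero.1 e1).resolve_left hw⟩
  by_cases hx0 : x0 = 0
  · subst hx0
    have hx1 : x1 ≠ 0 := fun h => hx ⟨rfl, h⟩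
    have hI : (0 : ℂ) - Complex.I * x1 ≠ 0 := by
      rw [zero_sub]
      exact neg_ne_zero.2 (mul_ne_zero Complex.I_ne_zero hx1)
    have hss := (mul_eq_zero.1 d1).resolve_left hI
    have hs01 : s0 = s1 := sub_eq_zero.1 hss
    subst hs01
    have hs0 : s0 ≠ 0 := fun h => hs ⟨h, h⟩
    have hr1 : r1 = 0 := by
      have : r1 * (s0 * (x1 * x1)) = 0 := by linear_combination E0
      exact (mul_eq_zero.1 this).resolve_right (mul_ne_zero hs0 (mul_ne_zero hx1 hx1))
    subst hr1
    have hr0 : r0 ≠ 0 := fun h => hr ⟨h, rfl⟩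
    have hbe : be = 0 := hy' (r0 * s0) (mul_ne_zero hr0 hs0) (by linear_combination cy0)
      (by linear_combination cy1)
    subst hbe
    have hal : al = 0 := by
      have : al * (s0 * (x1 * x1)) = 0 := by linear_combination -cr1
      exact (mul_eq_zero.1 this).resolve_right (mul_ne_zero hs0 (mul_ne_zero hx1 hx1))
    subst hal
    apply ht
    constructor
    · have : t0 * (ga * s0) = 0 := by linear_combination cx0
      exact (mul_eq_zero.1 this).resolve_right (mul_ne_zero hga hs0)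
    · have : t1 * (ga * (0 - Complex.I * x1)) = 0 := by linear_combination cs1
      exact (mul_eq_zero.1 this).resolve_right (mul_ne_zero hga hI)
  · have hs0 : s0 = 0 := (mul_eq_zero.1 d0).resolve_right hx0
    subst hs0
    have hs1 : s1 ≠ 0 := fun h => hs ⟨rfl, h⟩
    have hxx : x0 - Complex.I * x1 = 0 := by
      refine (mul_eq_zero.1 d1).resolve_right ?_
      rw [zero_sub]
      exact neg_ne_zero.2 hs1
    have hx01 : x0 = Complex.I * x1 := sub_eq_zero.1 hxx
    subst hx01
    have hx1 : x1 ≠ 0 := fun h => hx0 (by rw [h, mul_zero])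
    have hII : Complex.I * Complex.I = -1 := Complex.I_mul_I
    have hr1 : r1 = 0 := by
      have : r1 * (s1 * (x1 * x1)) = 0 := by
        linear_combination E0 / 2 + r1 * s1 * x1 * x1 / 2 * hII
      exact (mul_eq_zero.1 this).resolve_right (mul_ne_zero hs1 (mul_ne_zero hx1 hx1))
    subst hr1
    have hr0 : r0 ≠ 0 := fun h => hr ⟨h, rfl⟩
    have hbe : be = 0 := hy' (r0 * s1) (mul_ne_zero hr0 hs1) (by linear_combination cy0)
      (by linear_combination cy1)
    subst hbe
    have hal : al = 0 := by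
      have : al * (s1 * (x1 * x1)) = 0 := by
        linear_combination -cr1 / 2 + al * s1 * x1 * x1 / 2 * hII
      exact (mul_eq_zero.1 this).resolve_right (mul_ne_zero hs1 (mul_ne_zero hx1 hx1))
    subst hal
    have ht1 : t1 = 0 := by
      have : t1 * (ga * (Complex.I * s1)) = 0 := by linear_combination -cx1
      exact (mul_eq_zero.1 this).resolve_right
        (mul_ne_zero hga (mul_ne_zero Complex.I_ne_zero hs1))
    subst ht1
    apply ht
    refine ⟨?_, rfl⟩
    have : t0 * (ga * (Complex.I * x1)) = 0 := by linear_combination cs0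
    exact (mul_eq_zero.1 this).resolve_right (mul_ne_zero hga hx0)

theorem surf_isSmooth : surf.IsSmooth := by
  intro P hP
  have hE : Eqs (fun i => (P i).rep) := (mem_surf_iff (hasCoords_rep P)).1 hP
  obtain ⟨E0, E1, E2⟩ := hE
  have hz : ∀ i, ¬ ((P i).rep 0 = 0 ∧ (P i).rep 1 = 0) := by
    rintro i ⟨h0, h1⟩
    apply (P i).rep_nonzero
    funext c
    fin_cases c
    · exact h0
    · exact h1
  rw [Fintype.linearIndependent_iff]
  intro g hg
  have hc : ∀ a : Fin 5 × Fin 2, g 0 * evalAt P (pderiv a F0) + g 1 * evalAt P (pderiv a F1) +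
      g 2 * evalAt P (pderiv a F2) = 0 := by
    intro a
    have := congrFun hg a
    rw [Finset.sum_apply, Fin.sum_univ_three] at this
    simpa [surf] using this
  have c00 := hc (0, 0)
  have c01 := hc (0, 1)
  have c10 := hc (1, 0)
  have c11 := hc (1, 1)
  have c20 := hc (2, 0)
  have c21 := hc (2, 1)
  have c30 := hc (3, 0)
  have c31 := hc (3, 1)
  have c40 := hc (4, 0)
  have c41 := hc (4, 1)
  simp only at E0 E1 E2
  simp [evalAt, F0, F1, F2, pderiv_X, Derivation.leibniz, -mul_eq_zero, -neg_eq_zero] at c00 c01 c10 c11 c20 c21 c30 c31 c40 c41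
  have hfin : g 2 = 0 → g 0 = 0 ∧ g 1 = 0 := by
    intro h2
    rw [h2] at c00 c01 c30 c31
    refine smooth_caseA (hz 0) (hz 1) (hz 2) (hz 3) E0 E1 ?_ ?_ ?_ ?_ ?_ ?_ ?_ ?_
    · linear_combination c00
    · linear_combination c01
    · linear_combination c10
    · linear_combination c11
    · linear_combination c20
    · linear_combination -c21
    · linear_combination c30
    · linear_combination -c31
  have hg2 : g 2 = 0 := by
    refine smooth_caseB (al := g 0) (be := g 1) (hz 0) (hz 1) (hz 2) (hz 3) (hz 4) E0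
      ?_ ?_ ?_ ?_ ?_ ?_ ?_ ?_ ?_
    · linear_combination c00
    · linear_combination c01
    · linear_combination c10
    · linear_combination c11
    · linear_combination -c21
    · linear_combination c30
    · linear_combination c31
    · linear_combination c40
    · linear_combination -c41
  obtain ⟨h0, h1⟩ := hfin hg2
  intro i
  fin_cases i
  · exact h0
  · exact h1
  · exact hg2

end Pool.Agent.Lib.MP_33f69e_ag
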