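import Mathlib
import Pool.Agent.Lib.MP_33f69e_ag.Smooth
import Pool.Agent.Lib.MP_33f69e_ag.Fibre
import Pool.Agent.Lib.MP_33f69e_ag.Connected
import Pool.Agent.Lib.MP_33f69e_ag.Curve
import Pool.Agent.Lib.MP_33f69e_ag.Lueroth
import Pool.Agent.Lib.MP_33f69e_ag.Core
import Pool.Agent.Lib.MP_33f69e_ag.Count

/-!
# The main theorem
-/

namespace Pool.Agent.Lib.MP_33f69e_ag

open IntermediateField

theorem surf_isEllipticFibration : surf.IsEllipticFibration 1 where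
  smooth := surf_isSmooth
  connected := surf_connected
  surjective := surf_surjective
  fibres := by
    refine ⟨_, finite_excluded, fun b hb => ?_⟩
    have hb' : b.rep 0 ≠ 0 ∧ b.rep 1 ≠ 0 ∧ b.rep 0 * b.rep 0 - b.rep 1 * b.rep 1 ≠ 0 := by
      simpa [not_or] using hb
    obtain ⟨h0, h1, h2⟩ := hb'
    exact ⟨fun P hP hPb => surf_fibre_smooth b h0 h1 h2 P hP hPb, surf_fibre_genusOne b h0 h1 h2⟩

theorem unbounded (N : ℤ) : ∃ C : RationalCurve surf, N < C.canonicalDegree := by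
  classical
  obtain ⟨m, hm⟩ : ∃ m : ℕ, 3 * (N.toNat + 1) ≤ 2 ^ m := by
    refine ⟨3 * (N.toNat + 1), ?_⟩
    exact (Nat.lt_two_pow_self).le
  obtain ⟨A, hAcard, hA⟩ := exists_preimages m
  have hAne : A.Nonempty := by
    rw [← Finset.card_pos, hAcard]
    positivity
  obtain ⟨a₀, ha₀⟩ := hAne
  obtain ⟨x, y, s, z, hx, hy, hs, heq, hz, κ, hκ, hval⟩ := core m a₀ (hA a₀ ha₀)
  have hex : ∀ u : ℂ, ∃ ζ : ℂ, u ∈ A →
      HasVal u x Complex.I ∧ HasVal u s 0 ∧ HasVal u z ζ ∧ ζ ^ 2 = κ * (u ^ 3 - u) := by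
    intro u
    by_cases hu : u ∈ A
    · obtain ⟨ζ, h⟩ := hval u (hA u hu)
      exact ⟨ζ, fun _ => h⟩
    · exact ⟨0, fun h => absurd h hu⟩
  choose ζ hζ using hex
  obtain ⟨e, x', y', s', T, hx', hy', hs', hgen, hT, hTval⟩ :=
    lueroth_reduce x y s z hs hz A ⟨a₀, ha₀⟩ ζ (fun u hu => ⟨(hζ u hu).1, (hζ u hu).2.1, (hζ u hu).2.2.1⟩)
  have hcard := card_image_ge A ζ κ hκ (fun u hu => (hζ u hu).2.2.2)
  have hinj : Function.Injective e := e.toRingHom.injective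
  have hx0 : x' ≠ 0 := by rintro rfl; exact hx (by rw [← hx', map_zero])
  have hy0 : y' ≠ 0 := by rintro rfl; exact hy (by rw [← hy', map_zero])
  have hs0 : s' ≠ 0 := by rintro rfl; exact hs (by rw [← hs', map_zero])
  have heq' : s' ^ 2 * (y' - y'⁻¹) = x' - x'⁻¹ := by
    apply hinj
    simp only [map_mul, map_sub, map_pow, map_inv₀, hx', hy', hs', heq]
  obtain ⟨C, hC⟩ := exists_curve x' y' s' hx0 hy0 hs0 heq' hgen T hTval
  refine ⟨C, lt_of_lt_of_le ?_ hC⟩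
  have h1 : N.toNat + 1 ≤ T.card := by
    rw [hAcard] at hcard
    omega
  have h2 : N ≤ (N.toNat : ℤ) := Int.self_le_toNat N
  have h3 : ((N.toNat + 1 : ℕ) : ℤ) ≤ T.card := by exact_mod_cast h1
  push_cast at h3
  linarith

end Pool.Agent.Lib.MP_33f69e_ag
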